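import Mathlib

/-! Uncentred maximal function on the line with respect to an arbitrary measure. -/

set_option autoImplicit false
set_option linter.unusedVariables false
set_option linter.unusedSectionVars false

open MeasureTheory Set Filter Topology
open scoped ENNReal NNReal

namespace Pool.Agent.R216.GL

/-- uncentred maximal function with respect to a measure -/
noncomputable def MM (μ : Measure ℝ) (g : ℝ → ℝ≥0∞) (x : ℝ) : ℝ≥0∞ :=
  ⨆ (a : ℝ) (b : ℝ) (_ : x ∈ Ioo a b), (∫⁻ t in Ioo a b, g t ∂μ) / μ (Ioo a b)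

lemma le_MM (μ : Measure ℝ) (g : ℝ → ℝ≥0∞) {a b x : ℝ} (h : x ∈ Ioo a b) :
    (∫⁻ t in Ioo a b, g t ∂μ) / μ (Ioo a b) ≤ MM μ g x :=
  le_iSup_of_le a (le_iSup_of_le b (le_iSup_of_le h le_rfl))

lemma lt_MM_iff {μ : Measure ℝ} {g : ℝ → ℝ≥0∞} {x : ℝ} {t : ℝ≥0∞} :
    t < MM μ g x ↔ ∃ a b : ℝ, x ∈ Ioo a b ∧ t < (∫⁻ t in Ioo a b, g t ∂μ) / μ (Ioo a b) := by
  simp only [MM, lt_iSup_iff, exists_prop]

lemma level_eq (μ : Measure ℝ) (g : ℝ → ℝ≥0∞) (t : ℝ≥0∞) :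
    {x | t < MM μ g x} = ⋃ i ∈ {i : ℝ × ℝ | t < (∫⁻ s in Ioo i.1 i.2, g s ∂μ) / μ (Ioo i.1 i.2)},
      Ioo i.1 i.2 := by
  ext x
  simp only [mem_ofPred_eq, lt_MM_iff, mem_iUnion, exists_prop, Prod.exists]
  constructor
  · rintro ⟨a, b, h1, h2⟩; exact ⟨a, b, h2, h1⟩
  · rintro ⟨a, b, h1, h2⟩; exact ⟨a, b, h2, h1⟩

lemma isOpen_level (μ : Measure ℝ) (g : ℝ → ℝ≥0∞) (t : ℝ≥0∞) : IsOpen {x | t < MM μ g x} := by
  rw [level_eq]
  exact isOpen_biUnion fun i _ => isOpen_Ioo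

lemma measurable_MM (μ : Measure ℝ) (g : ℝ → ℝ≥0∞) : Measurable (MM μ g) :=
  measurable_of_Ioi fun t => (isOpen_level μ g t).measurableSet

lemma cover2 : ∀ (n : ℕ) (s : Finset (ℝ × ℝ)), s.card = n → ∃ s' ⊆ s,
    (⋃ i ∈ s', Ioo i.1 i.2) = (⋃ i ∈ s, Ioo i.1 i.2) ∧
      ∀ x, (s'.filter (fun i => x ∈ Ioo i.1 i.2)).card ≤ 2 := by
  intro n
  induction n using Nat.strong_induction_on with
  | _ n ih =>
    intro s hs
    by_cases h : ∀ x, (s.filter (fun i => x ∈ Ioo i.1 i.2)).card ≤ 2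
    · exact ⟨s, subset_rfl, rfl, h⟩
    · push Not at h
      obtain ⟨x, hx⟩ := h
      set F := s.filter (fun i => x ∈ Ioo i.1 i.2) with hF
      have hne : F.Nonempty := Finset.card_pos.1 (by omega)
      obtain ⟨i, hi, hi'⟩ := Finset.exists_min_image F (fun i => i.1) hne
      obtain ⟨j, hj, hj'⟩ := Finset.exists_max_image F (fun i => i.2) hne
      have : ∃ k ∈ F, k ∉ ({i, j} : Finset (ℝ × ℝ)) := by
        by_contra hcon
        push Not at hcon
        have := Finset.card_le_card (show F ⊆ {i, j} from fun k hk => hcon k hk)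
        have h2 := Finset.card_le_two (a := i) (b := j)
        omega
      obtain ⟨k, hk, hkij⟩ := this
      simp only [Finset.mem_insert, Finset.mem_singleton, not_or] at hkij
      have hks : k ∈ s := (Finset.mem_filter.1 hk).1
      have his : i ∈ s := (Finset.mem_filter.1 hi).1
      have hjs : j ∈ s := (Finset.mem_filter.1 hj).1
      have hxi := (Finset.mem_filter.1 hi).2
      have hxj := (Finset.mem_filter.1 hj).2
      have hsub : Ioo k.1 k.2 ⊆ Ioo i.1 i.2 ∪ Ioo j.1 j.2 := by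
        intro t ht
        rcases lt_or_ge t i.2 with h1 | h1
        · left; exact ⟨lt_of_le_of_lt (hi' k hk) ht.1, h1⟩
        · right
          exact ⟨lt_of_lt_of_le (lt_trans hxj.1 hxi.2) h1, lt_of_lt_of_le ht.2 (hj' k hk)⟩
      have hcard : (s.erase k).card < n := by
        rw [Finset.card_erase_of_mem hks]
        have : 0 < s.card := Finset.card_pos.2 ⟨k, hks⟩
        omega
      obtain ⟨s', h1, h2, h3⟩ := ih _ hcard (s.erase k) rfl
      refine ⟨s', h1.trans (Finset.erase_subset _ _), ?_, h3⟩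
      rw [h2]
      apply subset_antisymm
      · intro t ht
        simp only [mem_iUnion, exists_prop, Finset.mem_erase] at ht ⊢
        obtain ⟨l, hl, hl'⟩ := ht
        exact ⟨l, hl.2, hl'⟩
      · intro t ht
        simp only [mem_iUnion, exists_prop, Finset.mem_erase] at ht ⊢
        obtain ⟨l, hl, hl'⟩ := ht
        by_cases hlk : l = k
        · subst hlk
          rcases hsub hl' with h4 | h4
          · exact ⟨i, ⟨fun e => hkij.1 e.symm, his⟩, h4⟩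
          · exact ⟨j, ⟨fun e => hkij.2 e.symm, hjs⟩, h4⟩
        · exact ⟨l, ⟨hlk, hl⟩, hl'⟩

lemma weak_finset (μ : Measure ℝ) (g : ℝ → ℝ≥0∞) (hg : Measurable g) (t : ℝ≥0∞)
    (s : Finset (ℝ × ℝ))
    (hs : ∀ i ∈ s, t < (∫⁻ s in Ioo i.1 i.2, g s ∂μ) / μ (Ioo i.1 i.2)) :
    t * μ (⋃ i ∈ s, Ioo i.1 i.2) ≤ 2 * ∫⁻ x, g x ∂μ := by
  classical
  obtain ⟨s', h1, h2, h3⟩ := cover2 _ s rfl
  rw [← h2]
  calc t * μ (⋃ i ∈ s', Ioo i.1 i.2) ≤ t * ∑ i ∈ s', μ (Ioo i.1 i.2) :=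
        mul_le_mul' le_rfl (measure_biUnion_finset_le _ _)
    _ = ∑ i ∈ s', t * μ (Ioo i.1 i.2) := by rw [Finset.mul_sum]
    _ ≤ ∑ i ∈ s', ∫⁻ x in Ioo i.1 i.2, g x ∂μ :=
        Finset.sum_le_sum fun i hi => ENNReal.mul_le_of_le_div (hs i (h1 hi)).le
    _ = ∑ i ∈ s', ∫⁻ x, (Ioo i.1 i.2).indicator g x ∂μ := by
        refine Finset.sum_congr rfl fun i _ => ?_
        rw [lintegral_indicator measurableSet_Ioo]
    _ = ∫⁻ x, ∑ i ∈ s', (Ioo i.1 i.2).indicator g x ∂μ := by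
        rw [lintegral_finsetSum _ fun i _ => hg.indicator measurableSet_Ioo]
    _ ≤ ∫⁻ x, 2 * g x ∂μ := by
        refine lintegral_mono fun x => ?_
        have : ∑ i ∈ s', (Ioo i.1 i.2).indicator g x
            = ((s'.filter (fun i => x ∈ Ioo i.1 i.2)).card : ℝ≥0∞) * g x := by
          simp only [indicator_apply]
          rw [← Finset.sum_filter, Finset.sum_const, nsmul_eq_mul]
        rw [this]
        gcongr
        exact_mod_cast h3 x
    _ = 2 * ∫⁻ x, g x ∂μ := by rw [lintegral_const_mul _ hg]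

theorem weak (μ : Measure ℝ) (g : ℝ → ℝ≥0∞) (hg : Measurable g) (t : ℝ≥0∞) :
    t * μ {x | t < MM μ g x} ≤ 2 * ∫⁻ x, g x ∂μ := by
  rw [level_eq]
  set S := {i : ℝ × ℝ | t < (∫⁻ s in Ioo i.1 i.2, g s ∂μ) / μ (Ioo i.1 i.2)} with hS
  obtain ⟨T, hT1, hT2, hT3⟩ := TopologicalSpace.isOpen_biUnion_countable S
    (fun i : ℝ × ℝ => Ioo i.1 i.2) (fun i _ => isOpen_Ioo)
  rw [← hT3]
  rcases T.eq_empty_or_nonempty with h | h
  · simp [h]
  obtain ⟨f, hf⟩ := hT2.exists_eq_range h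
  have e : (⋃ i ∈ T, Ioo i.1 i.2) = ⋃ n, Ioo (f n).1 (f n).2 := by
    rw [hf]; simp
  rw [e, measure_iUnion_eq_iSup_accumulate, ENNReal.mul_iSup]
  refine iSup_le fun n => ?_
  have e2 : Set.accumulate (fun n => Ioo (f n).1 (f n).2) n
      = ⋃ i ∈ (Finset.range (n + 1)).image f, Ioo i.1 i.2 := by
    ext x
    simp only [Set.mem_accumulate, mem_iUnion, Finset.mem_image, Finset.mem_range, exists_prop]
    constructor
    · rintro ⟨m, h1, h2⟩; exact ⟨f m, ⟨m, by omega, rfl⟩, h2⟩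
    · rintro ⟨i, ⟨m, h1, rfl⟩, h2⟩; exact ⟨m, by omega, h2⟩
  rw [e2]
  refine weak_finset μ g hg t _ fun i hi => ?_
  obtain ⟨m, _, rfl⟩ := Finset.mem_image.1 hi
  have : f m ∈ S := hT1 (hf ▸ mem_range_self m)
  exact this

end Pool.Agent.R216.GL
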