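import Pool.Agent.R216.GL.A1

/-! Layer cake and the strong type inequality. -/

set_option autoImplicit false
set_option linter.unusedVariables false
set_option linter.unusedSectionVars false

open MeasureTheory Set Filter Topology
open scoped ENNReal NNReal

namespace Pool.Agent.R216.GL

lemma cake_real {q : ℝ} (hq : 0 < q) {c : ℝ} (hc : 0 ≤ c) :
    ∫⁻ t in Ioo 0 c, ENNReal.ofReal (q * t ^ (q - 1)) = ENNReal.ofReal (c ^ q) := by
  have hint : IntervalIntegrable (fun t : ℝ => q * t ^ (q - 1)) volume 0 c :=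
    (intervalIntegral.intervalIntegrable_rpow' (by linarith)).const_mul q
  have h1 : ∫ t in (0:ℝ)..c, q * t ^ (q - 1) = c ^ q := by
    rw [intervalIntegral.integral_const_mul, integral_rpow (Or.inl (by linarith))]
    rw [sub_add_cancel, Real.zero_rpow hq.ne']
    field_simp
    ring
  rw [← h1, intervalIntegral.integral_of_le hc, integral_Ioc_eq_integral_Ioo,
    ofReal_integral_eq_lintegral_ofReal]
  · exact ((intervalIntegrable_iff_integrableOn_Ioc_of_le hc).1 hint).mono_set Ioo_subset_Ioc_self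
  · filter_upwards [ae_restrict_mem measurableSet_Ioo] with t ht
    exact mul_nonneg hq.le (Real.rpow_nonneg ht.1.le _)

lemma cake_pt {q : ℝ} (hq : 0 < q) (c : ℝ≥0∞) :
    ∫⁻ t in Ioi (0:ℝ), (if ENNReal.ofReal t < c then ENNReal.ofReal (q * t ^ (q - 1)) else 0)
      = c ^ q := by
  by_cases hc : c = ∞
  · subst hc
    simp only [ENNReal.ofReal_lt_top, if_true, ENNReal.top_rpow_of_pos hq]
    refine top_unique ?_
    refine le_of_tendsto' (f := fun n : ℕ => ENNReal.ofReal ((n:ℝ) ^ q)) (x := atTop) ?_ ?_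
    · exact ENNReal.tendsto_ofReal_atTop.comp
        ((tendsto_rpow_atTop hq).comp tendsto_natCast_atTop_atTop)
    · intro n
      rw [← cake_real hq (Nat.cast_nonneg n)]
      exact lintegral_mono_set Ioo_subset_Ioi_self
  · lift c to ℝ≥0 using hc
    have : ∀ t : ℝ, t ∈ Ioi (0:ℝ) →
        (if ENNReal.ofReal t < (c : ℝ≥0∞) then ENNReal.ofReal (q * t ^ (q - 1)) else 0)
        = (Ioo (0:ℝ) c).indicator (fun t => ENNReal.ofReal (q * t ^ (q - 1))) t := by
      intro t ht
      have h1 : (ENNReal.ofReal t < (c : ℝ≥0∞)) ↔ t < c := by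
        rw [← ENNReal.ofReal_coe_nnreal]
        exact ENNReal.ofReal_lt_ofReal_iff_of_nonneg (le_of_lt ht)
      simp only [indicator_apply, mem_Ioo, h1]
      have : (0 < t ∧ t < (c:ℝ)) ↔ t < (c:ℝ) := ⟨fun h => h.2, fun h => ⟨ht, h⟩⟩
      simp only [this]
    rw [setLIntegral_congr_fun measurableSet_Ioi this, lintegral_indicator measurableSet_Ioo,
      Measure.restrict_restrict measurableSet_Ioo, inter_eq_left.2 Ioo_subset_Ioi_self]
    refine (cake_real hq c.2).trans ?_
    rw [← ENNReal.ofReal_rpow_of_nonneg c.2 hq.le]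
    simp

variable {X : Type*} [MeasurableSpace X]

lemma meas_lev {φ : X → ℝ≥0∞} (hφ : Measurable φ) :
    MeasurableSet {p : X × ℝ | ENNReal.ofReal p.2 < φ p.1} :=
  measurableSet_lt (ENNReal.measurable_ofReal.comp measurable_snd) (hφ.comp measurable_fst)

lemma cake (μ : Measure X) [SFinite μ] {q : ℝ} (hq : 0 < q) {φ : X → ℝ≥0∞} (hφ : Measurable φ) :
    ∫⁻ x, φ x ^ q ∂μ
      = ∫⁻ t in Ioi (0:ℝ), ENNReal.ofReal (q * t ^ (q - 1)) * μ {x | ENNReal.ofReal t < φ x} := by
  have h1 : ∀ x, φ x ^ q = ∫⁻ t in Ioi (0:ℝ),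
      (if ENNReal.ofReal t < φ x then ENNReal.ofReal (q * t ^ (q - 1)) else 0) :=
    fun x => (cake_pt hq (φ x)).symm
  simp_rw [h1]
  rw [lintegral_lintegral_swap]
  · refine lintegral_congr fun t => ?_
    have : (fun x => (if ENNReal.ofReal t < φ x then ENNReal.ofReal (q * t ^ (q - 1)) else 0))
        = {x | ENNReal.ofReal t < φ x}.indicator (fun _ => ENNReal.ofReal (q * t ^ (q - 1))) := by
      ext x; simp [indicator_apply]
    rw [this, lintegral_indicator (measurableSet_lt measurable_const hφ), setLIntegral_const]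
  · refine Measurable.aemeasurable ?_
    have : (Function.uncurry fun (x : X) (t : ℝ) =>
        (if ENNReal.ofReal t < φ x then ENNReal.ofReal (q * t ^ (q - 1)) else 0))
        = fun p : X × ℝ => if p ∈ {p : X × ℝ | ENNReal.ofReal p.2 < φ p.1} then
          ENNReal.ofReal (q * p.2 ^ (q - 1)) else 0 := by
      ext ⟨x, t⟩; simp [Function.uncurry]
    rw [this]
    exact Measurable.ite (meas_lev hφ) (by fun_prop) measurable_const

/-- comparison of level sets gives comparison of norms -/
lemma cake_mono (μ : Measure X) [SFinite μ] {q : ℝ} (hq : 0 < q) {φ ψ : X → ℝ≥0∞}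
    (hφ : Measurable φ) (hψ : Measurable ψ) {K : ℝ≥0∞} (hK : K ≠ ∞)
    (h : ∀ t : ℝ, 0 < t → μ {x | ENNReal.ofReal t < φ x} ≤ K * μ {x | ENNReal.ofReal t < ψ x}) :
    ∫⁻ x, φ x ^ q ∂μ ≤ K * ∫⁻ x, ψ x ^ q ∂μ := by
  rw [cake μ hq hφ, cake μ hq hψ]
  rw [← lintegral_const_mul' _ _ hK]
  refine setLIntegral_mono' measurableSet_Ioi fun t ht => ?_
  calc ENNReal.ofReal (q * t ^ (q - 1)) * μ {x | ENNReal.ofReal t < φ x}
      ≤ ENNReal.ofReal (q * t ^ (q - 1)) * (K * μ {x | ENNReal.ofReal t < ψ x}) :=
        mul_le_mul' le_rfl (h t ht)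
    _ = _ := by ring

/-- the constant in the strong type inequality -/
noncomputable def Cq (q : ℝ) : ℝ≥0∞ := ENNReal.ofReal (4 * q / (q - 1)) * 2 ^ (q - 1)

lemma Cq_ne_top (q : ℝ) (hq : 1 < q) : Cq q ≠ ∞ := by
  unfold Cq
  exact ENNReal.mul_ne_top ENNReal.ofReal_ne_top
    (ENNReal.rpow_ne_top_of_nonneg (by linarith) (by norm_num))

theorem strong (μ : Measure ℝ) [SFinite μ] {q : ℝ} (hq : 1 < q) {g : ℝ → ℝ≥0∞}
    (hg : Measurable g) : ∫⁻ x, MM μ g x ^ q ∂μ ≤ Cq q * ∫⁻ x, g x ^ q ∂μ := by
  have hq0 : 0 < q := by linarith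
  rw [cake μ hq0 (measurable_MM μ g)]
  -- the truncated function
  have key : ∀ t : ℝ, 0 < t → ENNReal.ofReal (q * t ^ (q - 1)) * μ {x | ENNReal.ofReal t < MM μ g x}
      ≤ ∫⁻ x, (if ENNReal.ofReal t < 2 * g x then
          ENNReal.ofReal ((q - 1) * t ^ (q - 1 - 1)) else 0) * (ENNReal.ofReal (4 * q / (q - 1)) * g x) ∂μ := by
    intro t ht
    set S : Set ℝ := {x | ENNReal.ofReal t < 2 * g x} with hS
    have hSm : MeasurableSet S := measurableSet_lt measurable_const (hg.const_mul 2)
    set g1 : ℝ → ℝ≥0∞ := S.indicator g with hg1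
    have hg1m : Measurable g1 := hg.indicator hSm
    have hsub : {x | ENNReal.ofReal t < MM μ g x} ⊆ {x | ENNReal.ofReal (t / 2) < MM μ g1 x} := by
      intro x hx
      simp only [mem_ofPred_eq, lt_MM_iff] at hx ⊢
      obtain ⟨a, b, h1, h2⟩ := hx
      refine ⟨a, b, h1, ?_⟩
      have h3 : ∀ s, g s ≤ g1 s + ENNReal.ofReal (t / 2) := by
        intro s
        by_cases hs : s ∈ S
        · simp [hg1, indicator_of_mem hs]
        · simp only [hg1, indicator_of_notMem hs, zero_add]
          simp only [hS, mem_ofPred_eq, not_lt] at hs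
          have : ENNReal.ofReal t = 2 * ENNReal.ofReal (t / 2) := by
            rw [← ENNReal.ofReal_ofNat, ← ENNReal.ofReal_mul (by norm_num)]
            congr 1; ring
          rw [this] at hs
          exact (ENNReal.mul_le_mul_iff_right (by norm_num) (by norm_num)).1 hs
      have h4 : (∫⁻ s in Ioo a b, g s ∂μ) / μ (Ioo a b)
          ≤ (∫⁻ s in Ioo a b, g1 s ∂μ) / μ (Ioo a b) + ENNReal.ofReal (t / 2) := by
        calc (∫⁻ s in Ioo a b, g s ∂μ) / μ (Ioo a b)
            ≤ (∫⁻ s in Ioo a b, (g1 s + ENNReal.ofReal (t / 2)) ∂μ) / μ (Ioo a b) :=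
              ENNReal.div_le_div_right (lintegral_mono fun s => h3 s) _
          _ = (∫⁻ s in Ioo a b, g1 s ∂μ) / μ (Ioo a b)
                + ENNReal.ofReal (t / 2) * μ (Ioo a b) / μ (Ioo a b) := by
              rw [lintegral_add_left hg1m, ENNReal.add_div, setLIntegral_const]
          _ ≤ _ := by
              gcongr
              rw [mul_div_assoc]
              exact mul_le_of_le_one_right' ENNReal.div_self_le_one
      have h5 := lt_of_lt_of_le h2 h4
      have h6 : ENNReal.ofReal t = ENNReal.ofReal (t / 2) + ENNReal.ofReal (t / 2) := by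
        rw [← ENNReal.ofReal_add (by positivity) (by positivity)]; congr 1; ring
      rw [h6] at h5
      exact (ENNReal.add_lt_add_iff_right ENNReal.ofReal_ne_top).1 h5
    have hw := weak μ g1 hg1m (ENNReal.ofReal (t / 2))
    have h7 : ENNReal.ofReal (q * t ^ (q - 1))
        = ENNReal.ofReal (2 * q / (q - 1) * ((q - 1) * t ^ (q - 1 - 1))) * ENNReal.ofReal (t / 2) := by
      rw [← ENNReal.ofReal_mul (by have : 0 < q - 1 := by linarith
                                   positivity)]
      congr 1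
      have : t ^ (q - 1) = t ^ (q - 1 - 1) * t := by
        rw [← Real.rpow_add_one ht.ne']; congr 1; ring
      rw [this]
      have : q - 1 ≠ 0 := by linarith
      field_simp
    rw [h7, mul_assoc]
    calc _ ≤ ENNReal.ofReal (2 * q / (q - 1) * ((q - 1) * t ^ (q - 1 - 1)))
          * (ENNReal.ofReal (t / 2) * μ {x | ENNReal.ofReal (t / 2) < MM μ g1 x}) := by
          gcongr
      _ ≤ ENNReal.ofReal (2 * q / (q - 1) * ((q - 1) * t ^ (q - 1 - 1))) * (2 * ∫⁻ x, g1 x ∂μ) := by
          gcongr
      _ = (ENNReal.ofReal ((q - 1) * t ^ (q - 1 - 1)) * ENNReal.ofReal (4 * q / (q - 1)))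
            * ∫⁻ x, g1 x ∂μ := by
          rw [← mul_assoc]
          congr 1
          rw [← ENNReal.ofReal_mul (by have : 0 < q - 1 := by linarith
                                       positivity), ← ENNReal.ofReal_ofNat 2,
            ← ENNReal.ofReal_mul (by have : 0 < q - 1 := by linarith
                                     positivity)]
          congr 1; ring
      _ = ∫⁻ x, (ENNReal.ofReal ((q - 1) * t ^ (q - 1 - 1)) * ENNReal.ofReal (4 * q / (q - 1)))
            * g1 x ∂μ := by rw [lintegral_const_mul _ hg1m]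
      _ = _ := by
          refine lintegral_congr fun x => ?_
          by_cases hx : x ∈ S
          · have hx' : ENNReal.ofReal t < 2 * g x := hx
            simp only [hg1, indicator_of_mem hx, hx', if_true]
            ring
          · have hx' : ¬ ENNReal.ofReal t < 2 * g x := hx
            simp only [hg1, indicator_of_notMem hx, hx', if_false]
            ring
  calc ∫⁻ t in Ioi (0:ℝ), ENNReal.ofReal (q * t ^ (q - 1)) * μ {x | ENNReal.ofReal t < MM μ g x}
      ≤ ∫⁻ t in Ioi (0:ℝ), ∫⁻ x, (if ENNReal.ofReal t < 2 * g x then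
          ENNReal.ofReal ((q - 1) * t ^ (q - 1 - 1)) else 0)
            * (ENNReal.ofReal (4 * q / (q - 1)) * g x) ∂μ :=
        setLIntegral_mono' measurableSet_Ioi fun t ht => key t ht
    _ = ∫⁻ x, (∫⁻ t in Ioi (0:ℝ), (if ENNReal.ofReal t < 2 * g x then
          ENNReal.ofReal ((q - 1) * t ^ (q - 1 - 1)) else 0)
            * (ENNReal.ofReal (4 * q / (q - 1)) * g x)) ∂μ := by
        rw [lintegral_lintegral_swap]
        refine Measurable.aemeasurable ?_
        have : (Function.uncurry fun (t : ℝ) (x : ℝ) => (if ENNReal.ofReal t < 2 * g x then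
          ENNReal.ofReal ((q - 1) * t ^ (q - 1 - 1)) else 0)
            * (ENNReal.ofReal (4 * q / (q - 1)) * g x))
            = fun p : ℝ × ℝ => (if p ∈ {p : ℝ × ℝ | ENNReal.ofReal p.1 < 2 * g p.2} then
          ENNReal.ofReal ((q - 1) * p.1 ^ (q - 1 - 1)) else 0)
            * (ENNReal.ofReal (4 * q / (q - 1)) * g p.2) := by
          ext ⟨x, t⟩; simp [Function.uncurry]
        rw [this]
        refine Measurable.mul (Measurable.ite ?_ (by fun_prop) measurable_const) ?_
        · exact measurableSet_lt (ENNReal.measurable_ofReal.comp measurable_fst)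
            ((hg.comp measurable_snd).const_mul 2)
        · exact (hg.comp measurable_snd).const_mul _
    _ = ∫⁻ x, (2 * g x) ^ (q - 1) * (ENNReal.ofReal (4 * q / (q - 1)) * g x) ∂μ := by
        refine lintegral_congr fun x => ?_
        rw [lintegral_mul_const, cake_pt (by linarith : 0 < q - 1)]
        exact Measurable.ite (measurableSet_lt ENNReal.measurable_ofReal measurable_const)
          (by fun_prop) measurable_const
    _ = ∫⁻ x, Cq q * g x ^ q ∂μ := by
        refine lintegral_congr fun x => ?_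
        rw [ENNReal.mul_rpow_of_nonneg _ _ (by linarith : 0 ≤ q - 1)]
        have : g x ^ q = g x ^ (q - 1) * g x := by
          rcases eq_or_ne (g x) 0 with h | h
          · rw [h, ENNReal.zero_rpow_of_pos hq0, mul_zero]
          · rcases eq_or_ne (g x) ∞ with h' | h'
            · rw [h', ENNReal.top_rpow_of_pos hq0, ENNReal.top_rpow_of_pos (by linarith)]; simp
            · nth_rewrite 3 [← ENNReal.rpow_one (g x)]
              rw [← ENNReal.rpow_add _ _ h h']; congr 1; ring
        rw [this, Cq]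
        ring
    _ = Cq q * ∫⁻ x, g x ^ q ∂μ := by
        rw [lintegral_const_mul _ (hg.pow_const q)]

end Pool.Agent.R216.GL
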