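import Pool.Agent.R216.GL.A2

/-! Muckenhoupt's theorem (Lerner's proof). -/

set_option autoImplicit false
set_option linter.unusedVariables false
set_option linter.unusedSectionVars false

open MeasureTheory Set Filter Topology
open scoped ENNReal NNReal

namespace Pool.Agent.R216.GL

/-- positive and finite almost everywhere -/
def Good (w : ℝ → ℝ≥0∞) : Prop := ∀ᵐ x, w x ≠ 0 ∧ w x ≠ ∞

/-- the `A_r` condition with constant `K` -/
def ApK (r : ℝ) (w : ℝ → ℝ≥0∞) (K : ℝ≥0∞) : Prop :=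
  ∀ a b : ℝ, a < b → ((∫⁻ x in Ioo a b, w x) / ENNReal.ofReal (b - a)) *
    ((∫⁻ x in Ioo a b, w x ^ (-(1 / (r - 1)))) / ENNReal.ofReal (b - a)) ^ (r - 1) ≤ K

lemma vol_ne {a b : ℝ} (h : a < b) : ENNReal.ofReal (b - a) ≠ 0 := by
  simp only [ne_eq, ENNReal.ofReal_eq_zero, not_le]; linarith

lemma int_pos {w : ℝ → ℝ≥0∞} (hw : Measurable w) (hg : ∀ᵐ x, w x ≠ 0) {a b : ℝ} (h : a < b) :
    ∫⁻ x in Ioo a b, w x ≠ 0 := by
  intro h0
  rw [lintegral_eq_zero_iff hw] at h0
  have h1 : ∀ᵐ x ∂(volume.restrict (Ioo a b)), False := by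
    filter_upwards [h0, ae_restrict_of_ae hg] with x h2 h3 using h3 h2
  have h2 : volume.restrict (Ioo a b) = 0 := by
    rw [← ae_eq_bot]; exact Filter.eventually_false_iff_eq_bot.1 h1
  rw [Measure.restrict_eq_zero, Real.volume_Ioo] at h2
  exact vol_ne h h2

/-- both factors are finite -/
lemma ap_fin {r : ℝ} (hr : 1 < r) {w : ℝ → ℝ≥0∞} (hw : Measurable w) (hg : Good w) {K : ℝ≥0∞}
    (hK : K ≠ ∞) (hA : ApK r w K) {a b : ℝ} (h : a < b) :
    ∫⁻ x in Ioo a b, w x ≠ ∞ ∧ ∫⁻ x in Ioo a b, w x ^ (-(1 / (r - 1))) ≠ ∞ := by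
  have hA' := hA a b h
  have hL := vol_ne h
  have hLt : ENNReal.ofReal (b - a) ≠ ∞ := ENNReal.ofReal_ne_top
  have h1 : ∫⁻ x in Ioo a b, w x ≠ 0 := int_pos hw (hg.mono fun x hx => hx.1) h
  have h2 : ∫⁻ x in Ioo a b, w x ^ (-(1 / (r - 1))) ≠ 0 := by
    refine int_pos (hw.pow_const _) ?_ h
    filter_upwards [hg] with x hx
    exact (ENNReal.rpow_pos (pos_iff_ne_zero.2 hx.1) hx.2).ne'
  have hr1 : 0 < r - 1 := by linarith
  constructor
  · intro h3
    rw [h3, ENNReal.top_div_of_ne_top hLt, ENNReal.top_mul] at hA'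
    · exact hK (top_unique hA')
    · intro h4
      rw [ENNReal.rpow_eq_zero_iff] at h4
      rcases h4 with ⟨h4, _⟩ | ⟨_, h5⟩
      · rw [ENNReal.div_eq_zero_iff] at h4
        rcases h4 with h4 | h4
        · exact h2 h4
        · exact hLt h4
      · linarith
  · intro h3
    rw [h3, ENNReal.top_div_of_ne_top hLt, ENNReal.top_rpow_of_pos hr1, ENNReal.mul_top] at hA'
    · exact hK (top_unique hA')
    · intro h4
      rw [ENNReal.div_eq_zero_iff] at h4
      rcases h4 with h4 | h4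
      · exact h1 h4
      · exact hLt h4

/-- the constant in Muckenhoupt's theorem -/
noncomputable def Cm (r : ℝ) (K : ℝ≥0∞) : ℝ≥0∞ :=
  K ^ (r / (r - 1)) * (Cq (r / (r - 1)) * Cq r)

lemma one_lt_conj {r : ℝ} (hr : 1 < r) : 1 < r / (r - 1) := by
  rw [lt_div_iff₀ (by linarith)]; linarith

lemma Cm_ne_top {r : ℝ} (hr : 1 < r) {K : ℝ≥0∞} (hK : K ≠ ∞) : Cm r K ≠ ∞ := by
  unfold Cm
  have h := one_lt_conj hr
  exact ENNReal.mul_ne_top (ENNReal.rpow_ne_top_of_nonneg (by linarith) hK)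
    (ENNReal.mul_ne_top (Cq_ne_top _ h) (Cq_ne_top _ hr))

theorem muck {r : ℝ} (hr : 1 < r) {w : ℝ → ℝ≥0∞} (hw : Measurable w) (hg : Good w) {K : ℝ≥0∞}
    (hK : K ≠ ∞) (hA : ApK r w K) {f : ℝ → ℝ≥0∞} (hf : Measurable f) :
    ∫⁻ x, MM volume f x ^ r * w x ≤ Cm r K * ∫⁻ x, f x ^ r * w x := by
  have hr1 : 0 < r - 1 := by linarith
  have hr0 : 0 < r := by linarith
  have hrc : 1 < r / (r - 1) := one_lt_conj hr
  set σ : ℝ → ℝ≥0∞ := fun x => w x ^ (-(1 / (r - 1))) with hσ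
  have hσm : Measurable σ := hw.pow_const _
  have hσg : ∀ᵐ x, σ x ≠ 0 ∧ σ x ≠ ∞ := by
    filter_upwards [hg] with x hx
    exact ⟨(ENNReal.rpow_pos (pos_iff_ne_zero.2 hx.1) hx.2).ne', ENNReal.rpow_ne_top_of_ne_zero hx.1 hx.2⟩
  set μw : Measure ℝ := volume.withDensity w with hμw
  set μσ : Measure ℝ := volume.withDensity σ with hμσ
  set h : ℝ → ℝ≥0∞ := fun t => f t * (σ t)⁻¹ with hh
  have hhm : Measurable h := hf.mul hσm.inv
  set g : ℝ → ℝ≥0∞ := fun x => (MM μσ h x) ^ (r - 1) * (w x)⁻¹ with hgd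
  have hgm : Measurable g := ((measurable_MM μσ h).pow_const _).mul hw.inv
  -- Claim 1
  have c1 : ∀ x, (MM volume f x) ^ (r - 1) ≤ K * MM μw g x := by
    intro x
    have : MM volume f x ≤ (K * MM μw g x) ^ (1 / (r - 1)) := by
      refine iSup_le fun a => iSup_le fun b => iSup_le fun hx => ?_
      have hab : a < b := hx.1.trans hx.2
      rw [Real.volume_Ioo]
      set L := ENNReal.ofReal (b - a) with hL
      have hL0 : L ≠ 0 := vol_ne hab
      have hLt : L ≠ ∞ := ENNReal.ofReal_ne_top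
      have hwI : μw (Ioo a b) = ∫⁻ x in Ioo a b, w x := withDensity_apply _ measurableSet_Ioo
      have hσI : μσ (Ioo a b) = ∫⁻ x in Ioo a b, σ x := withDensity_apply _ measurableSet_Ioo
      have fin := ap_fin hr hw hg hK hA hab
      have hw0 : μw (Ioo a b) ≠ 0 := by
        rw [hwI]; exact int_pos hw (hg.mono fun x hx => hx.1) hab
      have hσ0 : μσ (Ioo a b) ≠ 0 := by
        rw [hσI]; exact int_pos hσm (hσg.mono fun x hx => hx.1) hab
      have hwt : μw (Ioo a b) ≠ ∞ := by rw [hwI]; exact fin.1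
      have hσt : μσ (Ioo a b) ≠ ∞ := by rw [hσI]; exact fin.2
      have e1 : ∫⁻ t in Ioo a b, f t = ∫⁻ t in Ioo a b, h t ∂μσ := by
        rw [hμσ, setLIntegral_withDensity_eq_setLIntegral_mul _ hσm hhm measurableSet_Ioo]
        refine lintegral_congr_ae ?_
        filter_upwards [ae_restrict_of_ae hσg] with t ht
        simp only [Pi.mul_apply, hh]
        rw [mul_comm (f t), ← mul_assoc, ENNReal.mul_inv_cancel ht.1 ht.2, one_mul]
      set A := (∫⁻ t in Ioo a b, h t ∂μσ) / μσ (Ioo a b) with hAd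
      have e2 : A ^ (r - 1) * L ≤ ∫⁻ t in Ioo a b, g t ∂μw := by
        rw [hμw, setLIntegral_withDensity_eq_setLIntegral_mul _ hw hgm measurableSet_Ioo]
        calc A ^ (r - 1) * L = ∫⁻ t in Ioo a b, A ^ (r - 1) := by
              rw [setLIntegral_const, Real.volume_Ioo]
          _ ≤ ∫⁻ t in Ioo a b, (w * g) t := by
              refine lintegral_mono_ae ?_
              filter_upwards [ae_restrict_of_ae hg, ae_restrict_mem measurableSet_Ioo] with t ht ht'
              simp only [Pi.mul_apply, hgd]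
              rw [mul_comm (w t), mul_assoc, ENNReal.inv_mul_cancel ht.1 ht.2, mul_one]
              exact ENNReal.rpow_le_rpow (le_MM μσ h ht') hr1.le
      have e3 : ((∫⁻ t in Ioo a b, f t) / L) ^ (r - 1) ≤ K * MM μw g x := by
        have e4 : (∫⁻ t in Ioo a b, f t) / L = A * (μσ (Ioo a b) / L) := by
          rw [hAd, e1, ← mul_div_assoc, ENNReal.div_mul_cancel hσ0 hσt]
        have e5 : (μσ (Ioo a b) / L) ^ (r - 1) ≤ K * (L / μw (Ioo a b)) := by
          have := hA a b hab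
          rw [← hwI] at this
          have h2 : (∫⁻ x in Ioo a b, w x ^ (-(1 / (r - 1)))) = μσ (Ioo a b) := hσI.symm
          rw [h2, mul_comm] at this
          have h3 : μw (Ioo a b) / L ≠ 0 := ENNReal.div_ne_zero.2 ⟨hw0, hLt⟩
          have h4 : μw (Ioo a b) / L ≠ ∞ := ENNReal.div_ne_top hwt hL0
          have h5 : (μσ (Ioo a b) / L) ^ (r - 1) ≤ K / (μw (Ioo a b) / L) := by
            rw [ENNReal.le_div_iff_mul_le (Or.inl h3) (Or.inl h4)]; exact this
          refine h5.trans (le_of_eq ?_)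
          rw [ENNReal.div_eq_inv_mul, ENNReal.inv_div (Or.inl hLt) (Or.inl hL0), mul_comm]
        calc ((∫⁻ t in Ioo a b, f t) / L) ^ (r - 1)
            = A ^ (r - 1) * (μσ (Ioo a b) / L) ^ (r - 1) := by
              rw [e4, ENNReal.mul_rpow_of_nonneg _ _ hr1.le]
          _ ≤ A ^ (r - 1) * (K * (L / μw (Ioo a b))) := mul_le_mul' le_rfl e5
          _ = K * ((A ^ (r - 1) * L) / μw (Ioo a b)) := by
              simp only [div_eq_mul_inv]; ring
          _ ≤ K * ((∫⁻ t in Ioo a b, g t ∂μw) / μw (Ioo a b)) := by gcongr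
          _ ≤ K * MM μw g x := mul_le_mul' le_rfl (le_MM μw g hx)
      calc (∫⁻ t in Ioo a b, f t) / L
          = (((∫⁻ t in Ioo a b, f t) / L) ^ (r - 1)) ^ (1 / (r - 1)) := by
            rw [← ENNReal.rpow_mul, mul_one_div_cancel hr1.ne', ENNReal.rpow_one]
        _ ≤ _ := ENNReal.rpow_le_rpow e3 (by positivity)
    calc (MM volume f x) ^ (r - 1) ≤ ((K * MM μw g x) ^ (1 / (r - 1))) ^ (r - 1) :=
          ENNReal.rpow_le_rpow this hr1.le
      _ = K * MM μw g x := by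
          rw [← ENNReal.rpow_mul, one_div_mul_cancel hr1.ne', ENNReal.rpow_one]
  have hMm : Measurable (MM volume f) := measurable_MM _ _
  -- Claim 2
  have c2 : ∫⁻ x, g x ^ (r / (r - 1)) ∂μw = ∫⁻ x, MM μσ h x ^ r ∂μσ := by
    rw [hμw, lintegral_withDensity_eq_lintegral_mul _ hw (hgm.pow_const _), hμσ,
      lintegral_withDensity_eq_lintegral_mul _ hσm ((measurable_MM _ _).pow_const _)]
    refine lintegral_congr_ae ?_
    filter_upwards [hg] with x hx
    simp only [Pi.mul_apply, hgd]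
    rw [ENNReal.mul_rpow_of_nonneg _ _ (by linarith), ← ENNReal.rpow_mul]
    have e1 : (r - 1) * (r / (r - 1)) = r := by field_simp
    rw [e1, ENNReal.inv_rpow, ← ENNReal.rpow_neg]
    have e2 : w x * w x ^ (-(r / (r - 1))) = σ x := by
      simp only [hσ]
      nth_rewrite 1 [← ENNReal.rpow_one (w x)]
      rw [← ENNReal.rpow_add _ _ hx.1 hx.2]
      congr 1
      field_simp
      ring
    rw [← e2]; ring
  have c3 : ∫⁻ x, h x ^ r ∂μσ = ∫⁻ x, f x ^ r * w x := by
    rw [hμσ, lintegral_withDensity_eq_lintegral_mul _ hσm (hhm.pow_const _)]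
    refine lintegral_congr_ae ?_
    filter_upwards [hg] with x hx
    simp only [Pi.mul_apply, hh]
    rw [ENNReal.mul_rpow_of_nonneg _ _ hr0.le, ENNReal.inv_rpow, ← ENNReal.rpow_neg]
    have e2 : σ x * σ x ^ (-r) = w x := by
      simp only [hσ]
      rw [← ENNReal.rpow_mul, ← ENNReal.rpow_add _ _ hx.1 hx.2]
      nth_rewrite 2 [← ENNReal.rpow_one (w x)]
      congr 1
      field_simp
      ring
    calc _ = f x ^ r * (σ x * σ x ^ (-r)) := by ring
      _ = _ := by rw [e2]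
  calc ∫⁻ x, MM volume f x ^ r * w x
      = ∫⁻ x, ((MM volume f x) ^ (r - 1)) ^ (r / (r - 1)) ∂μw := by
        rw [hμw, lintegral_withDensity_eq_lintegral_mul _ hw ((hMm.pow_const _).pow_const _)]
        refine lintegral_congr fun x => ?_
        simp only [Pi.mul_apply]
        rw [← ENNReal.rpow_mul, mul_comm]
        congr 2
        field_simp
    _ ≤ ∫⁻ x, (K * MM μw g x) ^ (r / (r - 1)) ∂μw :=
        lintegral_mono fun x => ENNReal.rpow_le_rpow (c1 x) (by linarith)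
    _ = K ^ (r / (r - 1)) * ∫⁻ x, MM μw g x ^ (r / (r - 1)) ∂μw := by
        rw [← lintegral_const_mul _ ((measurable_MM _ _).pow_const _)]
        refine lintegral_congr fun x => ?_
        rw [ENNReal.mul_rpow_of_nonneg _ _ (by linarith)]
    _ ≤ K ^ (r / (r - 1)) * (Cq (r / (r - 1)) * ∫⁻ x, g x ^ (r / (r - 1)) ∂μw) := by
        gcongr
        exact strong μw hrc hgm
    _ = K ^ (r / (r - 1)) * (Cq (r / (r - 1)) * ∫⁻ x, MM μσ h x ^ r ∂μσ) := by rw [c2]
    _ ≤ K ^ (r / (r - 1)) * (Cq (r / (r - 1)) * (Cq r * ∫⁻ x, h x ^ r ∂μσ)) := by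
        gcongr
        exact strong μσ hr hhm
    _ = _ := by rw [c3, Cm]; ring

end Pool.Agent.R216.GL
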