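import Pool.Agent.R216.GL.A3

/-! The Rubio de Francia majorant. -/

set_option autoImplicit false
set_option linter.unusedVariables false
set_option linter.unusedSectionVars false

open MeasureTheory Set Filter Topology
open scoped ENNReal NNReal

namespace Pool.Agent.R216.GL

/-- iterated maximal function -/
noncomputable def It (h : ℝ → ℝ≥0∞) : ℕ → ℝ → ℝ≥0∞
  | 0 => h
  | (k + 1) => MM volume (It h k)

lemma It_meas {h : ℝ → ℝ≥0∞} (hh : Measurable h) (k : ℕ) : Measurable (It h k) := by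
  cases k with
  | zero => exact hh
  | succ k => exact measurable_MM _ _

/-- norm bound -/
noncomputable def cc (p : ℝ) (K : ℝ≥0∞) : ℝ≥0∞ := 1 + (Cm p K) ^ (1 / p)

lemma cc_ne_top {p : ℝ} (hp : 1 < p) {K : ℝ≥0∞} (hK : K ≠ ∞) : cc p K ≠ ∞ := by
  unfold cc
  exact ENNReal.add_ne_top.2 ⟨ENNReal.one_ne_top,
    ENNReal.rpow_ne_top_of_nonneg (by positivity) (Cm_ne_top hp hK)⟩

lemma one_le_cc (p : ℝ) (K : ℝ≥0∞) : 1 ≤ cc p K := le_self_add

lemma cc_ne_zero (p : ℝ) (K : ℝ≥0∞) : cc p K ≠ 0 :=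
  (lt_of_lt_of_le one_pos (one_le_cc p K)).ne'

lemma Cm_le_cc {p : ℝ} (hp : 1 < p) (K : ℝ≥0∞) : Cm p K ≤ cc p K ^ p := by
  have hp0 : 0 < p := by linarith
  calc Cm p K = ((Cm p K) ^ (1 / p)) ^ p := by
        rw [← ENNReal.rpow_mul, one_div_mul_cancel hp0.ne', ENNReal.rpow_one]
    _ ≤ _ := ENNReal.rpow_le_rpow le_add_self hp0.le

lemma geo2 (n : ℕ) : ∑ k ∈ Finset.range n, ((2:ℝ≥0∞) ^ k)⁻¹ ≤ 2 := by
  calc ∑ k ∈ Finset.range n, ((2:ℝ≥0∞) ^ k)⁻¹ ≤ ∑' k, ((2:ℝ≥0∞) ^ k)⁻¹ := ENNReal.sum_le_tsum _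
    _ = ∑' k, ((2:ℝ≥0∞)⁻¹) ^ k := by simp_rw [ENNReal.inv_pow]
    _ = 2 := by rw [ENNReal.tsum_geometric, ENNReal.one_sub_inv_two, inv_inv]
    _ ≤ 2 := le_rfl

lemma geo2t : ∑' k, ((2:ℝ≥0∞) ^ k)⁻¹ = 2 := by
  simp_rw [ENNReal.inv_pow]
  rw [ENNReal.tsum_geometric, ENNReal.one_sub_inv_two, inv_inv]

section
variable {p : ℝ} {U : ℝ → ℝ≥0∞} {K : ℝ≥0∞}

lemma It_bound (hp : 1 < p) (hU : Measurable U) (hg : Good U) (hK : K ≠ ∞) (hA : ApK p U K)
    {h : ℝ → ℝ≥0∞} (hh : Measurable h) (k : ℕ) :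
    ∫⁻ x, It h k x ^ p * U x ≤ Cm p K ^ k * ∫⁻ x, h x ^ p * U x := by
  induction k with
  | zero => simp [It]
  | succ k ih =>
    calc ∫⁻ x, It h (k + 1) x ^ p * U x ≤ Cm p K * ∫⁻ x, It h k x ^ p * U x :=
          muck hp hU hg hK hA (It_meas hh k)
      _ ≤ Cm p K * (Cm p K ^ k * ∫⁻ x, h x ^ p * U x) := by gcongr
      _ = _ := by rw [pow_succ]; ring

/-- the majorant -/
noncomputable def GG (p : ℝ) (K : ℝ≥0∞) (h : ℝ → ℝ≥0∞) (x : ℝ) : ℝ≥0∞ :=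
  ∑' k, ((2 * cc p K) ^ k)⁻¹ * It h k x

lemma GG_meas {h : ℝ → ℝ≥0∞} (hh : Measurable h) : Measurable (GG p K h) :=
  Measurable.tsum fun k => (It_meas hh k).const_mul _

lemma le_GG (h : ℝ → ℝ≥0∞) (x : ℝ) : h x ≤ GG p K h x := by
  have := ENNReal.le_tsum (f := fun k => ((2 * cc p K) ^ k)⁻¹ * It h k x) 0
  simpa [GG, It] using this

lemma MM_GG (hp : 1 < p) (hK : K ≠ ∞) {h : ℝ → ℝ≥0∞} (hh : Measurable h) (x : ℝ) :
    MM volume (GG p K h) x ≤ 2 * cc p K * GG p K h x := by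
  have hc0 : 2 * cc p K ≠ 0 := mul_ne_zero (by norm_num) (cc_ne_zero _ _)
  have hct : 2 * cc p K ≠ ∞ := ENNReal.mul_ne_top (by norm_num) (cc_ne_top hp hK)
  refine iSup_le fun a => iSup_le fun b => iSup_le fun hx => ?_
  have e1 : ∫⁻ t in Ioo a b, GG p K h t = ∑' k, ((2 * cc p K) ^ k)⁻¹ * ∫⁻ t in Ioo a b, It h k t := by
    unfold GG
    rw [lintegral_tsum fun k => ((It_meas hh k).const_mul _).aemeasurable]
    refine tsum_congr fun k => ?_
    rw [lintegral_const_mul _ (It_meas hh k)]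
  rw [e1, div_eq_mul_inv, ← ENNReal.tsum_mul_right]
  calc ∑' k, ((2 * cc p K) ^ k)⁻¹ * (∫⁻ t in Ioo a b, It h k t) * (volume (Ioo a b))⁻¹
      ≤ ∑' k, (2 * cc p K) * (((2 * cc p K) ^ (k + 1))⁻¹ * It h (k + 1) x) := by
        refine ENNReal.tsum_le_tsum fun k => ?_
        have h1 : ((2 * cc p K) ^ k)⁻¹ = (2 * cc p K) * ((2 * cc p K) ^ (k + 1))⁻¹ := by
          rw [pow_succ, ENNReal.mul_inv (Or.inr hct) (Or.inr hc0), mul_comm _ (2 * cc p K)⁻¹,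
            ← mul_assoc, ENNReal.mul_inv_cancel hc0 hct, one_mul]
        rw [mul_assoc, h1, mul_assoc]
        gcongr
        exact le_MM volume (It h k) hx
    _ = (2 * cc p K) * ∑' k, (((2 * cc p K) ^ (k + 1))⁻¹ * It h (k + 1) x) := by
        rw [ENNReal.tsum_mul_left]
    _ ≤ 2 * cc p K * GG p K h x := by
        gcongr
        exact ENNReal.tsum_comp_le_tsum_of_injective (add_left_injective 1)
          (fun k => ((2 * cc p K) ^ k)⁻¹ * It h k x)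

lemma GG_pt (hp : 1 < p) (hK : K ≠ ∞) (h : ℝ → ℝ≥0∞) (x : ℝ) :
    GG p K h x ^ p ≤ 2 ^ (p - 1) * ∑' k, ((2:ℝ≥0∞) ^ k)⁻¹ * ((cc p K ^ k)⁻¹ * It h k x) ^ p := by
  have hp0 : 0 < p := by linarith
  set X := ∑' k, ((2:ℝ≥0∞) ^ k)⁻¹ * ((cc p K ^ k)⁻¹ * It h k x) ^ p with hX
  have h1 : GG p K h x ≤ 2 ^ (1 - p⁻¹) * X ^ p⁻¹ := by
    unfold GG
    rw [ENNReal.tsum_eq_iSup_nat]
    refine iSup_le fun n => ?_
    calc ∑ k ∈ Finset.range n, ((2 * cc p K) ^ k)⁻¹ * It h k x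
        = ∑ k ∈ Finset.range n, ((2:ℝ≥0∞) ^ k)⁻¹ * ((cc p K ^ k)⁻¹ * It h k x) := by
          refine Finset.sum_congr rfl fun k _ => ?_
          rw [mul_pow, ENNReal.mul_inv (Or.inl (by positivity)) (Or.inl (by simp)), mul_assoc]
      _ ≤ (∑ k ∈ Finset.range n, ((2:ℝ≥0∞) ^ k)⁻¹) ^ (1 - p⁻¹) *
          (∑ k ∈ Finset.range n, ((2:ℝ≥0∞) ^ k)⁻¹ * ((cc p K ^ k)⁻¹ * It h k x) ^ p) ^ p⁻¹ :=
          ENNReal.inner_le_weight_mul_Lp_of_nonneg _ hp.le _ _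
      _ ≤ 2 ^ (1 - p⁻¹) * X ^ p⁻¹ := by
          have h2 : 0 ≤ 1 - p⁻¹ := by
            rw [sub_nonneg]; exact inv_le_one_of_one_le₀ hp.le
          gcongr
          · exact geo2 n
          · exact ENNReal.sum_le_tsum _
  calc GG p K h x ^ p ≤ (2 ^ (1 - p⁻¹) * X ^ p⁻¹) ^ p := ENNReal.rpow_le_rpow h1 hp0.le
    _ = 2 ^ (p - 1) * X := by
        rw [ENNReal.mul_rpow_of_nonneg _ _ hp0.le, ← ENNReal.rpow_mul, ← ENNReal.rpow_mul,
          inv_mul_cancel₀ hp0.ne', ENNReal.rpow_one]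
        congr 2
        field_simp

lemma GG_norm (hp : 1 < p) (hU : Measurable U) (hg : Good U) (hK : K ≠ ∞) (hA : ApK p U K)
    {h : ℝ → ℝ≥0∞} (hh : Measurable h) :
    ∫⁻ x, GG p K h x ^ p * U x ≤ 2 ^ p * ∫⁻ x, h x ^ p * U x := by
  have hp0 : 0 < p := by linarith
  calc ∫⁻ x, GG p K h x ^ p * U x
      ≤ ∫⁻ x, 2 ^ (p - 1) * ∑' k, ((2:ℝ≥0∞) ^ k)⁻¹ * (((cc p K ^ k)⁻¹) ^ p * (It h k x ^ p * U x)) := by
        refine lintegral_mono fun x => ?_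
        calc GG p K h x ^ p * U x
            ≤ (2 ^ (p - 1) * ∑' k, ((2:ℝ≥0∞) ^ k)⁻¹ * ((cc p K ^ k)⁻¹ * It h k x) ^ p) * U x :=
              mul_le_mul' (GG_pt hp hK h x) le_rfl
          _ = _ := by
              rw [mul_assoc, ← ENNReal.tsum_mul_right]
              congr 1
              refine tsum_congr fun k => ?_
              rw [ENNReal.mul_rpow_of_nonneg _ _ hp0.le]
              ring
    _ = 2 ^ (p - 1) * ∑' k, ((2:ℝ≥0∞) ^ k)⁻¹ * (((cc p K ^ k)⁻¹) ^ p * ∫⁻ x, It h k x ^ p * U x) := by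
        have hm : ∀ k, Measurable fun x => It h k x ^ p * U x :=
          fun k => ((It_meas hh k).pow_const p).mul hU
        rw [lintegral_const_mul _ (Measurable.tsum fun k =>
          ((hm k).const_mul _).const_mul _), lintegral_tsum fun k =>
          (((hm k).const_mul _).const_mul _).aemeasurable]
        congr 1
        refine tsum_congr fun k => ?_
        rw [lintegral_const_mul _ ((hm k).const_mul _), lintegral_const_mul _ (hm k)]
    _ ≤ 2 ^ (p - 1) * ∑' k, ((2:ℝ≥0∞) ^ k)⁻¹ * ∫⁻ x, h x ^ p * U x := by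
        gcongr with k
        calc ((cc p K ^ k)⁻¹) ^ p * ∫⁻ x, It h k x ^ p * U x
            ≤ ((cc p K ^ k)⁻¹) ^ p * (Cm p K ^ k * ∫⁻ x, h x ^ p * U x) := by
              gcongr; exact It_bound hp hU hg hK hA hh k
          _ ≤ ((cc p K ^ k)⁻¹) ^ p * ((cc p K ^ p) ^ k * ∫⁻ x, h x ^ p * U x) := by
              gcongr; exact Cm_le_cc hp K
          _ = ∫⁻ x, h x ^ p * U x := by
              have e : ((cc p K ^ k)⁻¹) ^ p * (cc p K ^ p) ^ k = 1 := by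
                rw [ENNReal.inv_rpow, ← ENNReal.rpow_natCast (cc p K ^ p), ← ENNReal.rpow_natCast
                  (cc p K), ← ENNReal.rpow_mul, ← ENNReal.rpow_mul, mul_comm p]
                refine ENNReal.inv_mul_cancel ?_ ?_
                · exact (ENNReal.rpow_pos (pos_iff_ne_zero.2 (cc_ne_zero p K)) (cc_ne_top hp hK)).ne'
                · exact ENNReal.rpow_ne_top_of_nonneg (by positivity) (cc_ne_top hp hK)
              rw [← mul_assoc, e, one_mul]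
    _ = 2 ^ p * ∫⁻ x, h x ^ p * U x := by
        rw [ENNReal.tsum_mul_right, geo2t, ← mul_assoc]
        congr 1
        nth_rewrite 2 [← ENNReal.rpow_one (2:ℝ≥0∞)]
        rw [← ENNReal.rpow_add _ _ (by norm_num) (by norm_num)]
        congr 1; ring

lemma GG_pos {h : ℝ → ℝ≥0∞} (hh : Measurable h) (hp : 1 < p) (hK : K ≠ ∞)
    (hne : ¬ h =ᵐ[volume] 0) (x : ℝ) : GG p K h x ≠ 0 := by
  intro h0
  have h1 : It h 1 x = 0 := by
    have h2 : ∀ k, ((2 * cc p K) ^ k)⁻¹ * It h k x = 0 := ENNReal.tsum_eq_zero.1 h0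
    have h3 := h2 1
    rw [mul_eq_zero] at h3
    rcases h3 with h3 | h3
    · exfalso
      rw [ENNReal.inv_eq_zero, pow_one] at h3
      exact ENNReal.mul_ne_top (by norm_num) (cc_ne_top hp hK) h3
    · exact h3
  have h4 : ∀ n : ℕ, ∫⁻ t in Ioo (x - (n + 1)) (x + (n + 1)), h t = 0 := by
    intro n
    have h5 : (∫⁻ t in Ioo (x - (n + 1)) (x + (n + 1)), h t) / volume (Ioo (x - (n + 1)) (x + (n + 1)))
        ≤ 0 := by
      rw [← h1]
      refine le_MM volume h ⟨by linarith [n.cast_nonneg (α := ℝ)], by linarith [n.cast_nonneg (α := ℝ)]⟩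
    have h6 := le_antisymm h5 zero_le
    rw [ENNReal.div_eq_zero_iff] at h6
    rcases h6 with h6 | h6
    · exact h6
    · rw [Real.volume_Ioo] at h6; exact absurd h6 ENNReal.ofReal_ne_top
  apply hne
  have h7 : ∀ n : ℕ, ∀ᵐ t, t ∈ Ioo (x - (n + 1)) (x + (n + 1)) → h t = 0 := by
    intro n
    have := h4 n
    rw [lintegral_eq_zero_iff hh] at this
    exact (ae_restrict_iff' measurableSet_Ioo).1 this
  filter_upwards [ae_all_iff.2 h7] with t ht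
  obtain ⟨n, hn⟩ := exists_nat_gt |t - x|
  refine ht n ⟨?_, ?_⟩
  · have := neg_abs_le (t - x); linarith
  · have := le_abs_self (t - x); linarith

end

end Pool.Agent.R216.GL
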