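import Pool.Agent.R216.GL.A4

/-! The `A_2` weight obtained from the majorant. -/

set_option autoImplicit false
set_option linter.unusedVariables false
set_option linter.unusedSectionVars false

open MeasureTheory Set Filter Topology
open scoped ENNReal NNReal

namespace Pool.Agent.R216.GL

/-- average over an interval -/
noncomputable def av (G : ℝ → ℝ≥0∞) (a b : ℝ) : ℝ≥0∞ := (∫⁻ x in Ioo a b, G x) / ENNReal.ofReal (b - a)

/-- the weight `G^{p-2} U` -/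
noncomputable def WW (p : ℝ) (U G : ℝ → ℝ≥0∞) (x : ℝ) : ℝ≥0∞ := U x * (G x ^ (2 - p))⁻¹

lemma inv_bd {a b d : ℝ≥0∞} (h0 : a ≠ 0) (ht : a ≠ ∞) (h : a ≤ b * d) : d⁻¹ ≤ b * a⁻¹ := by
  calc d⁻¹ = (a * a⁻¹) * d⁻¹ := by rw [ENNReal.mul_inv_cancel h0 ht, one_mul]
    _ ≤ (b * d * a⁻¹) * d⁻¹ := by gcongr
    _ = b * a⁻¹ * (d * d⁻¹) := by ring
    _ ≤ b * a⁻¹ * 1 := by gcongr; exact ENNReal.mul_inv_le_one d
    _ = _ := mul_one _

section
variable {p : ℝ} {U G : ℝ → ℝ≥0∞} {K c : ℝ≥0∞}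

lemma WW_meas (hU : Measurable U) (hG : Measurable G) : Measurable (WW p U G) :=
  hU.mul (hG.pow_const _).inv

lemma av_le (hGM : ∀ x, MM volume G x ≤ c * G x) {a b x : ℝ} (hx : x ∈ Ioo a b) :
    av G a b ≤ c * G x := by
  refine le_trans ?_ (hGM x)
  have := le_MM volume G hx
  rwa [Real.volume_Ioo] at this

lemma ex_pt {P : ℝ → Prop} (hP : ∀ᵐ x, P x) {a b : ℝ} (h : a < b) : ∃ x ∈ Ioo a b, P x := by
  by_contra hcon
  push Not at hcon
  have h1 : Ioo a b ⊆ {x | ¬ P x} := fun x hx => hcon x hx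
  have h2 : volume (Ioo a b) ≤ 0 := (measure_mono h1).trans (le_of_eq (ae_iff.1 hP))
  rw [Real.volume_Ioo] at h2
  exact vol_ne h (le_antisymm h2 zero_le)

lemma av_ne_top (hGt : ∀ᵐ x, G x ≠ ∞) (hGM : ∀ x, MM volume G x ≤ c * G x) (hc : c ≠ ∞)
    {a b : ℝ} (h : a < b) : av G a b ≠ ∞ := by
  obtain ⟨x, hx, hx'⟩ := ex_pt hGt h
  exact ne_top_of_le_ne_top (ENNReal.mul_ne_top hc hx') (av_le hGM hx)

lemma av_ne_zero (hG : Measurable G) (hG0 : ∀ x, G x ≠ 0) {a b : ℝ} (h : a < b) : av G a b ≠ 0 := by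
  unfold av
  rw [ne_eq, ENNReal.div_eq_zero_iff, not_or]
  exact ⟨int_pos hG (ae_of_all _ hG0) h, ENNReal.ofReal_ne_top⟩

lemma av_mul {a b : ℝ} (h : a < b) : av G a b * ENNReal.ofReal (b - a) = ∫⁻ x in Ioo a b, G x := by
  unfold av
  rw [ENNReal.div_mul_cancel (vol_ne h) ENNReal.ofReal_ne_top]

lemma WW_good (hp2 : p < 2) (hg : Good U) (hG0 : ∀ x, G x ≠ 0) (hGt : ∀ᵐ x, G x ≠ ∞) :
    Good (WW p U G) := by
  have h2 : 0 < 2 - p := by linarith
  filter_upwards [hg, hGt] with x hx hx'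
  refine ⟨mul_ne_zero hx.1 (ENNReal.inv_ne_zero.2 (ENNReal.rpow_ne_top_of_nonneg h2.le hx')), ?_⟩
  refine ENNReal.mul_ne_top hx.2 (ENNReal.inv_ne_top.2 ?_)
  exact (ENNReal.rpow_pos (pos_iff_ne_zero.2 (hG0 x)) hx').ne'

lemma WW_upper (hp2 : p < 2) (hU : Measurable U) (hG : Measurable G)
    (hG0 : ∀ x, G x ≠ 0) (hGt : ∀ᵐ x, G x ≠ ∞)
    (hGM : ∀ x, MM volume G x ≤ c * G x) (hc : c ≠ ∞) {a b : ℝ} (h : a < b) :
    ∫⁻ x in Ioo a b, WW p U G x ≤ c ^ (2 - p) * (av G a b ^ (2 - p))⁻¹ * ∫⁻ x in Ioo a b, U x := by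
  have h2 : 0 < 2 - p := by linarith
  have hg0 := av_ne_zero hG hG0 h
  have hgt := av_ne_top hGt hGM hc h
  rw [← lintegral_const_mul _ hU]
  refine setLIntegral_mono' measurableSet_Ioo fun x hx => ?_
  unfold WW
  rw [mul_comm (U x)]
  gcongr
  refine inv_bd (ENNReal.rpow_pos (pos_iff_ne_zero.2 hg0) hgt).ne'
    (ENNReal.rpow_ne_top_of_nonneg h2.le hgt) ?_
  rw [← ENNReal.mul_rpow_of_nonneg _ _ h2.le]
  exact ENNReal.rpow_le_rpow (av_le hGM hx) h2.le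

lemma WW_inv (hp : 1 < p) (hp2 : p < 2) (hU : Measurable U) (hg : Good U) (hG : Measurable G)
    (a b : ℝ) :
    ∫⁻ x in Ioo a b, (WW p U G x)⁻¹ ≤
      (∫⁻ x in Ioo a b, G x) ^ (2 - p) * (∫⁻ x in Ioo a b, U x ^ (-(1 / (p - 1)))) ^ (p - 1) := by
  have h2 : 0 < 2 - p := by linarith
  have h1 : 0 < p - 1 := by linarith
  have hpq : ((2 - p)⁻¹).HolderConjugate ((p - 1)⁻¹) := by
    rw [Real.holderConjugate_iff]
    refine ⟨?_, by rw [inv_inv, inv_inv]; ring⟩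
    rw [one_lt_inv₀ h2]; linarith
  have := ENNReal.lintegral_mul_le_Lp_mul_Lq (volume.restrict (Ioo a b)) hpq
    (f := fun x => G x ^ (2 - p)) (g := fun x => (U x)⁻¹) (hG.pow_const _).aemeasurable
    hU.inv.aemeasurable
  simp only [one_div, inv_inv] at this
  refine le_trans (le_of_eq ?_) (this.trans (le_of_eq ?_))
  · refine lintegral_congr_ae ?_
    filter_upwards [ae_restrict_of_ae hg] with x hx
    simp only [Pi.mul_apply, WW]
    rw [ENNReal.mul_inv (Or.inl hx.1) (Or.inl hx.2), inv_inv, mul_comm]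
  · congr 2
    · refine lintegral_congr fun x => ?_
      rw [← ENNReal.rpow_mul, mul_inv_cancel₀ h2.ne', ENNReal.rpow_one]
    · refine lintegral_congr fun x => ?_
      rw [ENNReal.inv_rpow, ← ENNReal.rpow_neg, one_div]

lemma WW_A2 (hp : 1 < p) (hp2 : p < 2) (hU : Measurable U) (hg : Good U) (hA : ApK p U K)
    (hG : Measurable G) (hG0 : ∀ x, G x ≠ 0) (hGt : ∀ᵐ x, G x ≠ ∞)
    (hGM : ∀ x, MM volume G x ≤ c * G x) (hc : c ≠ ∞) :
    ApK 2 (WW p U G) (c ^ (2 - p) * K) := by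
  intro a b h
  have h2 : 0 < 2 - p := by linarith
  have h1 : 0 < p - 1 := by linarith
  have e : (-(1 / ((2:ℝ) - 1))) = -1 := by norm_num
  have e' : ((2:ℝ) - 1) = 1 := by norm_num
  rw [e, e']
  simp only [ENNReal.rpow_neg_one, ENNReal.rpow_one]
  set L := ENNReal.ofReal (b - a) with hL
  have hL0 : L ≠ 0 := vol_ne h
  have hLt : L ≠ ∞ := ENNReal.ofReal_ne_top
  have hg0 := av_ne_zero hG hG0 h
  have hgt := av_ne_top hGt hGM hc h
  have hA' := hA a b h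
  have t1 := WW_upper hp2 hU hG hG0 hGt hGM hc h
  have t2 := WW_inv hp hp2 hU hg hG a b
  rw [← av_mul (G := G) h] at t2
  set g := av G a b with hgd
  set UI := ∫⁻ x in Ioo a b, U x with hUI
  set SI := ∫⁻ x in Ioo a b, U x ^ (-(1 / (p - 1))) with hSI
  have e1 : (g * L) ^ (2 - p) * SI ^ (p - 1) = g ^ (2 - p) * (SI / L) ^ (p - 1) * L := by
    rw [ENNReal.mul_rpow_of_nonneg _ _ h2.le]
    have e2 : SI = (SI / L) * L := by rw [ENNReal.div_mul_cancel hL0 hLt]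
    have e3 : SI ^ (p - 1) = (SI / L) ^ (p - 1) * L ^ (p - 1) := by
      nth_rewrite 1 [e2]
      rw [ENNReal.mul_rpow_of_nonneg _ _ h1.le]
    rw [e3]
    have e4 : L ^ (2 - p) * L ^ (p - 1) = L := by
      rw [← ENNReal.rpow_add _ _ hL0 hLt]
      have : 2 - p + (p - 1) = 1 := by ring
      rw [this, ENNReal.rpow_one]
    calc _ = g ^ (2 - p) * (SI / L) ^ (p - 1) * (L ^ (2 - p) * L ^ (p - 1)) := by ring
      _ = _ := by rw [e4]
  calc ((∫⁻ x in Ioo a b, WW p U G x) / L) * ((∫⁻ x in Ioo a b, (WW p U G x)⁻¹) / L)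
      ≤ ((c ^ (2 - p) * (g ^ (2 - p))⁻¹ * UI) / L) * (((g * L) ^ (2 - p) * SI ^ (p - 1)) / L) := by
        gcongr
    _ = ((c ^ (2 - p) * (g ^ (2 - p))⁻¹ * UI) / L) * (g ^ (2 - p) * (SI / L) ^ (p - 1)) := by
        rw [e1, ENNReal.mul_div_cancel_right hL0 hLt]
    _ = c ^ (2 - p) * ((g ^ (2 - p))⁻¹ * g ^ (2 - p)) * ((UI / L) * (SI / L) ^ (p - 1)) := by
        simp only [div_eq_mul_inv]; ring
    _ = c ^ (2 - p) * ((UI / L) * (SI / L) ^ (p - 1)) := by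
        rw [ENNReal.inv_mul_cancel (ENNReal.rpow_pos (pos_iff_ne_zero.2 hg0) hgt).ne'
          (ENNReal.rpow_ne_top_of_nonneg h2.le hgt), mul_one]
    _ ≤ c ^ (2 - p) * K := by gcongr

/-- the reverse estimate -/
lemma WW_lower (hp : 1 < p) (hp2 : p < 2) (hU : Measurable U) (hg : Good U) (hK : K ≠ ∞)
    (hA : ApK p U K)
    (hG : Measurable G) (hG0 : ∀ x, G x ≠ 0) (hGt : ∀ᵐ x, G x ≠ ∞)
    (hGM : ∀ x, MM volume G x ≤ c * G x) (hc : c ≠ ∞) {a b : ℝ} (h : a < b) :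
    (av G a b ^ (2 - p))⁻¹ * ∫⁻ x in Ioo a b, U x ≤ 4 * K * ∫⁻ x in Ioo a b, WW p U G x := by
  have h2 : 0 < 2 - p := by linarith
  have h1 : 0 < p - 1 := by linarith
  have hp0 : 0 < p := by linarith
  set L := ENNReal.ofReal (b - a) with hL
  have hL0 : L ≠ 0 := vol_ne h
  have hLt : L ≠ ∞ := ENNReal.ofReal_ne_top
  have hg0 := av_ne_zero hG hG0 h
  have hgt := av_ne_top hGt hGM hc h
  have hfin := ap_fin hp hU hg hK hA h
  have hA' := hA a b h
  have hav := av_mul (G := G) h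
  set g := av G a b with hgd
  set UI := ∫⁻ x in Ioo a b, U x with hUI
  set SI := ∫⁻ x in Ioo a b, U x ^ (-(1 / (p - 1))) with hSI
  set E : Set ℝ := {x | G x ≤ 2 * g} with hE
  have hEm : MeasurableSet E := measurableSet_le hG measurable_const
  -- Markov
  have m1 : (2 * g) * volume.restrict (Ioo a b) Eᶜ ≤ g * L := by
    rw [hav]
    refine le_trans ?_ (mul_meas_ge_le_lintegral hG (2 * g))
    gcongr
    intro x hx
    simp only [hE, mem_compl_iff, mem_ofPred_eq, not_le] at hx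
    exact hx.le
  have m2 : 2 * volume.restrict (Ioo a b) Eᶜ ≤ L := by
    have : g * (2 * volume.restrict (Ioo a b) Eᶜ) ≤ g * L := by
      calc _ = (2 * g) * volume.restrict (Ioo a b) Eᶜ := by ring
        _ ≤ _ := m1
    exact (ENNReal.mul_le_mul_iff_right hg0 hgt).1 this
  have m3 : volume.restrict (Ioo a b) E + volume.restrict (Ioo a b) Eᶜ = L := by
    rw [measure_add_measure_compl hEm, Measure.restrict_apply_univ, Real.volume_Ioo]
  have m4 : L ≤ 2 * volume.restrict (Ioo a b) E := by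
    have hne : volume.restrict (Ioo a b) Eᶜ ≠ ∞ := by
      refine ne_top_of_le_ne_top hLt ?_
      rw [← m3]; exact le_add_self
    have h5 : L + 2 * volume.restrict (Ioo a b) Eᶜ ≤ 2 * volume.restrict (Ioo a b) E
        + 2 * volume.restrict (Ioo a b) Eᶜ := by
      calc L + 2 * volume.restrict (Ioo a b) Eᶜ ≤ L + L := by gcongr
        _ = 2 * L := by ring
        _ = _ := by rw [← m3]; ring
    exact (ENNReal.add_le_add_iff_right (ENNReal.mul_ne_top (by norm_num) hne)).1 h5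
  -- Hölder
  set μE := (volume.restrict (Ioo a b)).restrict E with hμE
  have hpq : p.HolderConjugate (p / (p - 1)) := by
    rw [Real.holderConjugate_iff]
    refine ⟨hp, ?_⟩
    field_simp; ring
  have q1 := ENNReal.lintegral_mul_le_Lp_mul_Lq μE hpq
    (f := fun x => U x ^ (1 / p)) (g := fun x => U x ^ (-(1 / p))) (hU.pow_const _).aemeasurable
    (hU.pow_const _).aemeasurable
  have q2 : ∫⁻ x, ((fun x => U x ^ (1 / p)) * fun x => U x ^ (-(1 / p))) x ∂μE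
      = volume.restrict (Ioo a b) E := by
    have : ∫⁻ x, ((fun x => U x ^ (1 / p)) * fun x => U x ^ (-(1 / p))) x ∂μE = ∫⁻ x, 1 ∂μE := by
      refine lintegral_congr_ae ?_
      filter_upwards [ae_restrict_of_ae (ae_restrict_of_ae hg)] with x hx
      simp only [Pi.mul_apply]
      rw [← ENNReal.rpow_add _ _ hx.1 hx.2, add_neg_cancel, ENNReal.rpow_zero]
    rw [this, lintegral_one, hμE, Measure.restrict_apply_univ]
  have q3 : ∫⁻ x, (U x ^ (1 / p)) ^ p ∂μE = ∫⁻ x, U x ∂μE := by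
    refine lintegral_congr fun x => ?_
    rw [← ENNReal.rpow_mul, one_div_mul_cancel hp0.ne', ENNReal.rpow_one]
  have q4 : ∫⁻ x, (U x ^ (-(1 / p))) ^ (p / (p - 1)) ∂μE ≤ SI := by
    refine le_trans (lintegral_mono' (Measure.restrict_le_self) le_rfl) (le_of_eq ?_)
    refine lintegral_congr fun x => ?_
    rw [← ENNReal.rpow_mul]
    congr 1
    field_simp
  rw [q2, q3] at q1
  have q5 : (volume.restrict (Ioo a b) E) ^ p ≤ (∫⁻ x, U x ∂μE) * SI ^ (p - 1) := by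
    calc (volume.restrict (Ioo a b) E) ^ p
        ≤ ((∫⁻ x, U x ∂μE) ^ (1 / p) * (∫⁻ x, (U x ^ (-(1 / p))) ^ (p / (p - 1)) ∂μE) ^
          (1 / (p / (p - 1)))) ^ p := ENNReal.rpow_le_rpow q1 hp0.le
      _ ≤ ((∫⁻ x, U x ∂μE) ^ (1 / p) * SI ^ (1 / (p / (p - 1)))) ^ p := by gcongr
      _ = _ := by
        rw [ENNReal.mul_rpow_of_nonneg _ _ hp0.le, ← ENNReal.rpow_mul, ← ENNReal.rpow_mul,
          one_div_mul_cancel hp0.ne', ENNReal.rpow_one]
        congr 2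
        field_simp
  -- combine
  have r1 : UI * SI ^ (p - 1) ≤ K * L ^ p := by
    have e2 : SI = (SI / L) * L := by rw [ENNReal.div_mul_cancel hL0 hLt]
    have e3 : SI ^ (p - 1) = (SI / L) ^ (p - 1) * L ^ (p - 1) := by
      nth_rewrite 1 [e2]
      rw [ENNReal.mul_rpow_of_nonneg _ _ h1.le]
    have e4 : UI = (UI / L) * L := by rw [ENNReal.div_mul_cancel hL0 hLt]
    have e5 : L ^ p = L * L ^ (p - 1) := by
      nth_rewrite 2 [← ENNReal.rpow_one L]
      rw [← ENNReal.rpow_add _ _ hL0 hLt]; congr 1; ring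
    calc UI * SI ^ (p - 1) = ((UI / L) * (SI / L) ^ (p - 1)) * (L * L ^ (p - 1)) := by
          rw [e3]; nth_rewrite 1 [e4]; ring
      _ ≤ K * (L * L ^ (p - 1)) := by gcongr
      _ = _ := by rw [e5]
  have r2 : UI ≤ 2 ^ p * K * ∫⁻ x, U x ∂μE := by
    have hLp0 : L ^ p ≠ 0 := (ENNReal.rpow_pos (pos_iff_ne_zero.2 hL0) hLt).ne'
    have hLpt : L ^ p ≠ ∞ := ENNReal.rpow_ne_top_of_nonneg hp0.le hLt
    have : L ^ p * UI ≤ L ^ p * (2 ^ p * K * ∫⁻ x, U x ∂μE) := by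
      calc L ^ p * UI ≤ (2 * volume.restrict (Ioo a b) E) ^ p * UI := by gcongr
        _ = 2 ^ p * (volume.restrict (Ioo a b) E) ^ p * UI := by
            rw [ENNReal.mul_rpow_of_nonneg _ _ hp0.le]
        _ ≤ 2 ^ p * ((∫⁻ x, U x ∂μE) * SI ^ (p - 1)) * UI := by gcongr
        _ = 2 ^ p * (∫⁻ x, U x ∂μE) * (UI * SI ^ (p - 1)) := by ring
        _ ≤ 2 ^ p * (∫⁻ x, U x ∂μE) * (K * L ^ p) := by gcongr
        _ = _ := by ring
    exact (ENNReal.mul_le_mul_iff_right hLp0 hLpt).1 this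
  have r3 : ∫⁻ x, U x ∂μE ≤ (2 * g) ^ (2 - p) * ∫⁻ x in Ioo a b, WW p U G x := by
    calc ∫⁻ x, U x ∂μE ≤ ∫⁻ x, (2 * g) ^ (2 - p) * WW p U G x ∂μE := by
          refine lintegral_mono_ae ?_
          have hGt' : ∀ᵐ x ∂μE, G x ≠ ∞ := ae_restrict_of_ae (ae_restrict_of_ae hGt)
          filter_upwards [ae_restrict_mem hEm, hGt'] with x hx hx'
          have hG1 : G x ^ (2 - p) ≠ 0 := (ENNReal.rpow_pos (pos_iff_ne_zero.2 (hG0 x)) hx').ne'
          have hG2 : G x ^ (2 - p) ≠ ∞ := ENNReal.rpow_ne_top_of_nonneg h2.le hx'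
          calc U x = (G x ^ (2 - p)) * (U x * (G x ^ (2 - p))⁻¹) := by
                rw [mul_comm (U x), ← mul_assoc, ENNReal.mul_inv_cancel hG1 hG2, one_mul]
            _ ≤ (2 * g) ^ (2 - p) * (U x * (G x ^ (2 - p))⁻¹) := by
                gcongr
                exact hx
      _ = (2 * g) ^ (2 - p) * ∫⁻ x, WW p U G x ∂μE := by
          rw [lintegral_const_mul _ (WW_meas hU hG)]
      _ ≤ _ := by
          gcongr
          exact Measure.restrict_le_self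
  have hgp0 : g ^ (2 - p) ≠ 0 := (ENNReal.rpow_pos (pos_iff_ne_zero.2 hg0) hgt).ne'
  have hgpt : g ^ (2 - p) ≠ ∞ := ENNReal.rpow_ne_top_of_nonneg h2.le hgt
  calc (g ^ (2 - p))⁻¹ * UI
      ≤ (g ^ (2 - p))⁻¹ * (2 ^ p * K * ((2 * g) ^ (2 - p) * ∫⁻ x in Ioo a b, WW p U G x)) := by
        gcongr
        exact r2.trans (by gcongr)
    _ = ((g ^ (2 - p))⁻¹ * g ^ (2 - p)) * ((2 ^ p * 2 ^ (2 - p)) * K * ∫⁻ x in Ioo a b, WW p U G x) := by
        rw [ENNReal.mul_rpow_of_nonneg _ _ h2.le]; ring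
    _ = 4 * K * ∫⁻ x in Ioo a b, WW p U G x := by
        rw [ENNReal.inv_mul_cancel hgp0 hgpt, one_mul, ← ENNReal.rpow_add _ _ (by norm_num)
          (by norm_num)]
        have : p + (2 - p) = 2 := by ring
        rw [this]
        norm_num

end

end Pool.Agent.R216.GL
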