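import Pool.Agent.R216.GL.A3

/-! Tail estimate for `A_2` weights. -/

set_option autoImplicit false
set_option linter.unusedVariables false

open MeasureTheory Set Filter Topology
open scoped ENNReal

namespace Pool.Agent.R216.GL

lemma MM_ind {z y : ℝ} (hy : 0 < y) (x : ℝ) :
    ENNReal.ofReal (y / (y + |x - z|)) ≤ MM volume ((Ioo (z - y) (z + y)).indicator 1) x := by
  set d := |x - z| with hd
  have hd0 : 0 ≤ d := abs_nonneg _
  have hx : x ∈ Ioo (z - y - d) (z + y + d) := by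
    have h1 : x - z ≤ d := le_abs_self _
    have h2 : -d ≤ x - z := neg_abs_le _
    constructor <;> linarith
  refine le_trans ?_ (le_MM volume _ hx)
  have hsub : Ioo (z - y) (z + y) ⊆ Ioo (z - y - d) (z + y + d) :=
    Ioo_subset_Ioo (by linarith) (by linarith)
  rw [lintegral_indicator measurableSet_Ioo, Measure.restrict_restrict measurableSet_Ioo,
    inter_eq_left.2 hsub]
  simp only [Pi.one_apply, lintegral_const, one_mul, MeasurableSet.univ,
    Measure.restrict_apply, univ_inter, Real.volume_Ioo]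
  rw [← ENNReal.ofReal_div_of_pos (by linarith)]
  refine le_of_eq ?_
  congr 1
  have : y + d ≠ 0 := by positivity
  have h2 : z + y + d - (z - y - d) = 2 * (y + d) := by ring
  rw [h2]
  field_simp
  ring

theorem tail2 {w : ℝ → ℝ≥0∞} (hw : Measurable w) (hg : Good w) {K : ℝ≥0∞} (hK : K ≠ ∞)
    (hA : ApK 2 w K) {z y : ℝ} (hy : 0 < y) :
    ∫⁻ x, ENNReal.ofReal (y ^ 2 / ((x - z) ^ 2 + y ^ 2)) * w x
      ≤ 2 * Cm 2 K * ∫⁻ x in Ioo (z - y) (z + y), w x := by
  have hm : Measurable ((Ioo (z - y) (z + y)).indicator (1 : ℝ → ℝ≥0∞)) :=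
    measurable_one.indicator measurableSet_Ioo
  have h1 := muck (r := 2) (by norm_num) hw hg hK hA hm
  have h2 : ∫⁻ x, ((Ioo (z - y) (z + y)).indicator (1 : ℝ → ℝ≥0∞)) x ^ (2:ℝ) * w x
      = ∫⁻ x in Ioo (z - y) (z + y), w x := by
    rw [← lintegral_indicator measurableSet_Ioo]
    refine lintegral_congr fun x => ?_
    by_cases hx : x ∈ Ioo (z - y) (z + y)
    · rw [indicator_of_mem hx, indicator_of_mem hx]; simp
    · rw [indicator_of_notMem hx, indicator_of_notMem hx]; simp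
  rw [h2] at h1
  calc ∫⁻ x, ENNReal.ofReal (y ^ 2 / ((x - z) ^ 2 + y ^ 2)) * w x
      ≤ ∫⁻ x, 2 * (MM volume ((Ioo (z - y) (z + y)).indicator 1) x ^ (2:ℝ) * w x) := by
        refine lintegral_mono fun x => ?_
        rw [← mul_assoc]
        refine mul_le_mul_left ?_ _
        have h3 := MM_ind hy (z := z) x
        have h4 : ENNReal.ofReal (y ^ 2 / ((x - z) ^ 2 + y ^ 2))
            ≤ 2 * ENNReal.ofReal (y / (y + |x - z|)) ^ (2:ℝ) := by
          rw [ENNReal.ofReal_rpow_of_nonneg (by positivity) (by norm_num)]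
          have e2 : (2:ℝ≥0∞) = ENNReal.ofReal 2 := by simp
          rw [e2, ← ENNReal.ofReal_mul (by norm_num)]
          refine ENNReal.ofReal_le_ofReal ?_
          have hd0 : 0 ≤ |x - z| := abs_nonneg _
          have e3 : (x - z) ^ 2 = |x - z| ^ 2 := (sq_abs _).symm
          rw [e3]
          set d := |x - z|
          have e4 : (y / (y + d)) ^ (2:ℝ) = y ^ 2 / (y + d) ^ 2 := by
            rw [Real.rpow_two, div_pow]
          rw [e4, ← mul_div_assoc, div_le_div_iff₀ (by positivity) (by positivity)]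
          nlinarith [mul_nonneg (sq_nonneg y) (sq_nonneg (y - d))]
        exact h4.trans (mul_le_mul_right (ENNReal.rpow_le_rpow h3 (by norm_num)) _)
    _ = 2 * ∫⁻ x, MM volume ((Ioo (z - y) (z + y)).indicator 1) x ^ (2:ℝ) * w x :=
        lintegral_const_mul' _ _ (by norm_num)
    _ ≤ 2 * (Cm 2 K * ∫⁻ x in Ioo (z - y) (z + y), w x) := mul_le_mul_right h1 _
    _ = _ := by ring

lemma ApK2_inv {w : ℝ → ℝ≥0∞} {K : ℝ≥0∞} (hA : ApK 2 w K) : ApK 2 (fun x => (w x)⁻¹) K := by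
  intro a b h
  have h1 := hA a b h
  have e : (-(1 / ((2:ℝ) - 1))) = -1 := by norm_num
  have e2 : ((2:ℝ) - 1) = 1 := by norm_num
  rw [e, e2] at h1 ⊢
  simp only [ENNReal.rpow_neg_one, ENNReal.rpow_one, inv_inv] at h1 ⊢
  rw [mul_comm]
  exact h1

lemma Good_inv {w : ℝ → ℝ≥0∞} (hg : Good w) : Good (fun x => (w x)⁻¹) :=
  hg.mono fun x hx => ⟨ENNReal.inv_ne_zero.2 hx.2, ENNReal.inv_ne_top.2 hx.1⟩

lemma ApK2_prod {w : ℝ → ℝ≥0∞} {K : ℝ≥0∞} (hA : ApK 2 w K) {a b : ℝ} (h : a < b) :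
    (∫⁻ x in Ioo a b, w x) * (∫⁻ x in Ioo a b, (w x)⁻¹) ≤ K * ENNReal.ofReal (b - a) ^ 2 := by
  have h1 := hA a b h
  have e : (-(1 / ((2:ℝ) - 1))) = -1 := by norm_num
  have e2 : ((2:ℝ) - 1) = 1 := by norm_num
  rw [e, e2] at h1
  simp only [ENNReal.rpow_neg_one, ENNReal.rpow_one] at h1
  have hv0 := vol_ne h
  have hvt : ENNReal.ofReal (b - a) ≠ ∞ := ENNReal.ofReal_ne_top
  calc (∫⁻ x in Ioo a b, w x) * (∫⁻ x in Ioo a b, (w x)⁻¹)
      = ((∫⁻ x in Ioo a b, w x) / ENNReal.ofReal (b - a)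
        * ((∫⁻ x in Ioo a b, (w x)⁻¹) / ENNReal.ofReal (b - a))) * ENNReal.ofReal (b - a) ^ 2 := by
        have h3 : ∀ A : ℝ≥0∞, A / ENNReal.ofReal (b - a) * ENNReal.ofReal (b - a) = A :=
          fun A => ENNReal.div_mul_cancel hv0 hvt
        calc _ = ((∫⁻ x in Ioo a b, w x) / ENNReal.ofReal (b - a) * ENNReal.ofReal (b - a))
              * ((∫⁻ x in Ioo a b, (w x)⁻¹) / ENNReal.ofReal (b - a) * ENNReal.ofReal (b - a)) := by
              rw [h3, h3]
          _ = _ := by ring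
    _ ≤ _ := mul_le_mul_left h1 _

end Pool.Agent.R216.GL
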