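import Mathlib

/-! Calculus for the Bellman function. -/

set_option autoImplicit false
set_option linter.unusedVariables false

namespace Pool.Agent.R216.GL

/-- `5F - 4u²/v - u²/(2v³w²)` with `i = 1/v`, `j = 1/w` -/
noncomputable def psi (F u i j : ℝ) : ℝ := 5 * F - 4 * (u ^ 2 * i) - (u ^ 2 * i ^ 3 * j ^ 2) / 2

/-- first derivative -/
noncomputable def psi1 (F1 u i j u1 v1 w1 : ℝ) : ℝ :=
  5 * F1 - 4 * (2 * u * u1 * i - u ^ 2 * v1 * i ^ 2)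
    - (2 * u * u1 * (i ^ 3 * j ^ 2) - u ^ 2 * (i ^ 3 * j ^ 2) * (3 * v1 * i + 2 * w1 * j)) / 2

/-- the quadratic part of minus the second derivative -/
noncomputable def quad (u i j u1 v1 w1 : ℝ) : ℝ :=
  8 * i * (u1 - u * i * v1) ^ 2
    + (i ^ 3 * j ^ 2) * (2 * u1 ^ 2 - 4 * u * u1 * (3 * v1 * i + 2 * w1 * j)
      + u ^ 2 * ((3 * v1 * i + 2 * w1 * j) ^ 2 + 3 * (v1 * i) ^ 2 + 2 * (w1 * j) ^ 2)) / 2

/-- the part of the second derivative that is linear in the second derivatives -/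
noncomputable def lin (u i j F2 u2 v2 w2 : ℝ) : ℝ :=
  5 * F2 - 4 * (2 * u * i * u2 - u ^ 2 * i ^ 2 * v2)
    - (i ^ 3 * j ^ 2) * (2 * u * u2 - u ^ 2 * (3 * v2 * i + 2 * w2 * j)) / 2

lemma hasDeriv1 {F u i j F1 u1 v1 w1 : ℝ → ℝ} {s : ℝ} (hF : HasDerivAt F (F1 s) s)
    (hu : HasDerivAt u (u1 s) s) (hi : HasDerivAt i (-(v1 s) * i s ^ 2) s)
    (hj : HasDerivAt j (-(w1 s) * j s ^ 2) s) :
    HasDerivAt (fun t => psi (F t) (u t) (i t) (j t))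
      (psi1 (F1 s) (u s) (i s) (j s) (u1 s) (v1 s) (w1 s)) s := by
  unfold psi psi1
  have h := ((hF.const_mul 5).sub (((hu.pow 2).mul hi).const_mul 4)).sub
    ((((hu.pow 2).mul (hi.pow 3)).mul (hj.pow 2)).div_const 2)
  refine h.congr_deriv ?_
  simp only [Pi.pow_apply, Pi.mul_apply]
  push_cast
  ring

lemma hasDeriv2 {F u i j F1 u1 v1 w1 F2 u2 v2 w2 : ℝ → ℝ} {s : ℝ} (hF1 : HasDerivAt F1 (F2 s) s)
    (hu : HasDerivAt u (u1 s) s) (hi : HasDerivAt i (-(v1 s) * i s ^ 2) s)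
    (hj : HasDerivAt j (-(w1 s) * j s ^ 2) s) (hu1 : HasDerivAt u1 (u2 s) s)
    (hv1 : HasDerivAt v1 (v2 s) s) (hw1 : HasDerivAt w1 (w2 s) s) :
    HasDerivAt (fun t => psi1 (F1 t) (u t) (i t) (j t) (u1 t) (v1 t) (w1 t))
      (-quad (u s) (i s) (j s) (u1 s) (v1 s) (w1 s)
        + lin (u s) (i s) (j s) (F2 s) (u2 s) (v2 s) (w2 s)) s := by
  unfold psi1 quad lin
  have h := ((hF1.const_mul 5).sub (((((hu.const_mul 2).mul hu1).mul hi).sub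
    (((hu.pow 2).mul hv1).mul (hi.pow 2))).const_mul 4)).sub
    (((((hu.const_mul 2).mul hu1).mul ((hi.pow 3).mul (hj.pow 2))).sub
      (((hu.pow 2).mul ((hi.pow 3).mul (hj.pow 2))).mul
        (((hv1.const_mul 3).mul hi).add ((hw1.const_mul 2).mul hj)))).div_const 2)
  refine h.congr_deriv ?_
  simp only [Pi.pow_apply, Pi.mul_apply, Pi.add_apply]
  push_cast
  ring

/-- the key inequality -/
lemma quad_ge {u v w u1 v1 w1 Q : ℝ} (hv : 0 < v) (hw : 0 < w) (h1 : 1 ≤ v * w) (hQ : v * w ≤ Q) :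
    u1 ^ 2 * w / (5 * Q ^ 3) ≤ quad u v⁻¹ w⁻¹ u1 v1 w1 := by
  have hQ1 : 1 ≤ Q := h1.trans hQ
  have hQ0 : 0 < Q := by linarith
  set X := (u1 - u * v⁻¹ * v1) * v⁻¹ with hX
  set r := u * v⁻¹ with hr
  set p := v1 * v⁻¹ with hp
  set q := w1 * w⁻¹ with hq
  have hvv : v * v⁻¹ = 1 := mul_inv_cancel₀ hv.ne'
  have hww : w * w⁻¹ = 1 := mul_inv_cancel₀ hw.ne'
  have eu : u = r * v := by rw [hr]; field_simp
  have ev1 : v1 = p * v := by rw [hp]; field_simp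
  have ew1 : w1 = q * w := by rw [hq]; field_simp
  have eu1 : u1 = v * (X + r * p) := by rw [hX, hr, hp]; field_simp; ring
  set T := (v * w)⁻¹ ^ 2 with hT
  have hT1 : T ≤ 1 := by
    rw [hT]
    have : (v * w)⁻¹ ≤ 1 := inv_le_one_of_one_le₀ h1
    have h0 : 0 ≤ (v * w)⁻¹ := by positivity
    nlinarith
  have hTQ : (Q⁻¹) ^ 2 ≤ T := by
    rw [hT]
    have : Q⁻¹ ≤ (v * w)⁻¹ := inv_anti₀ (by positivity) hQ
    gcongr
  have e1 : quad u v⁻¹ w⁻¹ u1 v1 w1 = v * (8 * X ^ 2 + T * (X ^ 2 - 4 * r * X * (p + q)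
      + r ^ 2 * ((p + q) ^ 2 + 2 * q ^ 2))) := by
    rw [eu1, eu, ev1, ew1]
    unfold quad
    rw [hT]
    field_simp
    ring
  rw [e1]
  have e2 : u1 ^ 2 * w / (5 * Q ^ 3) ≤ v * (X + r * p) ^ 2 / (5 * Q ^ 2) := by
    rw [eu1, div_le_div_iff₀ (by positivity) (by positivity)]
    have : v * w * (v * (X + r * p) ^ 2 * (5 * Q ^ 2)) ≤ Q * (v * (X + r * p) ^ 2 * (5 * Q ^ 2)) :=
      mul_le_mul_of_nonneg_right hQ (by positivity)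
    nlinarith [this]
  refine e2.trans ?_
  rw [mul_div_assoc]
  refine mul_le_mul_of_nonneg_left ?_ hv.le
  have hQ2 : (Q⁻¹) ^ 2 = 1 / Q ^ 2 := by field_simp
  have hd : (X + r * p) ^ 2 / (5 * Q ^ 2) = (X + r * p) ^ 2 / 5 * (Q⁻¹) ^ 2 := by
    rw [hQ2]; field_simp
  rw [hd]
  have hq0 : 0 ≤ (Q⁻¹) ^ 2 := by positivity
  have hq1 : (Q⁻¹) ^ 2 ≤ 1 := hTQ.trans hT1
  have hT0 : 0 ≤ T := by positivity
  have s1 : -7 * X ^ 2 + (2/5) * (r * p) ^ 2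
      ≤ X ^ 2 - 4 * r * X * (p + q) + r ^ 2 * ((p + q) ^ 2 + 2 * q ^ 2) := by
    have e : (X ^ 2 - 4 * r * X * (p + q) + r ^ 2 * ((p + q) ^ 2 + 2 * q ^ 2))
        - (-7 * X ^ 2 + (2/5) * (r * p) ^ 2)
        = (1/2) * (4 * X - r * (p + q)) ^ 2 + (1/10) * (r * p + 5 * (r * q)) ^ 2 := by ring
    have : 0 ≤ (1/2) * (4 * X - r * (p + q)) ^ 2 + (1/10) * (r * p + 5 * (r * q)) ^ 2 := by
      positivity
    rw [← e] at this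
    exact sub_nonneg.1 this
  have s3 : T * (-7 * X ^ 2 + (2/5) * (r * p) ^ 2)
      ≤ T * (X ^ 2 - 4 * r * X * (p + q) + r ^ 2 * ((p + q) ^ 2 + 2 * q ^ 2)) :=
    mul_le_mul_of_nonneg_left s1 hT0
  have s4 : (X + r * p) ^ 2 / 5 ≤ (2/5) * X ^ 2 + (2/5) * (r * p) ^ 2 := by
    have e : ((2/5) * X ^ 2 + (2/5) * (r * p) ^ 2) - (X + r * p) ^ 2 / 5
        = (1/5) * (X - r * p) ^ 2 := by ring
    have : 0 ≤ (1/5) * (X - r * p) ^ 2 := by positivity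
    rw [← e] at this
    exact sub_nonneg.1 this
  have s6 : (2/5) * X ^ 2 * (Q⁻¹) ^ 2 ≤ (2/5) * X ^ 2 :=
    mul_le_of_le_one_right (by positivity) hq1
  have s7 : (2/5) * (r * p) ^ 2 * (Q⁻¹) ^ 2 ≤ (2/5) * (r * p) ^ 2 * T :=
    mul_le_mul_of_nonneg_left hTQ (by positivity)
  have s8 : 7 * X ^ 2 * T ≤ 7 * X ^ 2 := mul_le_of_le_one_right (by positivity) hT1
  have s9 : 0 ≤ X ^ 2 := sq_nonneg X
  calc (X + r * p) ^ 2 / 5 * (Q⁻¹) ^ 2 ≤ ((2/5) * X ^ 2 + (2/5) * (r * p) ^ 2) * (Q⁻¹) ^ 2 :=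
        mul_le_mul_of_nonneg_right s4 hq0
    _ = (2/5) * X ^ 2 * (Q⁻¹) ^ 2 + (2/5) * (r * p) ^ 2 * (Q⁻¹) ^ 2 := by ring
    _ ≤ (2/5) * X ^ 2 + (2/5) * (r * p) ^ 2 * T := add_le_add s6 s7
    _ = (7 * X ^ 2 * T + (2/5) * X ^ 2) + T * (-7 * X ^ 2 + (2/5) * (r * p) ^ 2) := by ring
    _ ≤ (7 * X ^ 2 + X ^ 2) + T * (X ^ 2 - 4 * r * X * (p + q) + r ^ 2 * ((p + q) ^ 2 + 2 * q ^ 2)) := by
        refine add_le_add (add_le_add s8 ?_) s3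
        calc (2/5) * X ^ 2 ≤ 1 * X ^ 2 := mul_le_mul_of_nonneg_right (by norm_num) s9
          _ = X ^ 2 := one_mul _
    _ = _ := by ring

lemma psi_nonneg {F u v w : ℝ} (hv : 0 < v) (hw : 0 < w) (h1 : 1 ≤ v * w) (hF : u ^ 2 ≤ F * v) :
    0 ≤ psi F u v⁻¹ w⁻¹ := by
  unfold psi
  have h2 : u ^ 2 * v⁻¹ ≤ F := by
    rw [← div_eq_mul_inv, div_le_iff₀ hv]; exact hF
  have h3 : u ^ 2 * v⁻¹ ^ 3 * w⁻¹ ^ 2 ≤ u ^ 2 * v⁻¹ := by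
    have e : u ^ 2 * v⁻¹ ^ 3 * w⁻¹ ^ 2 = u ^ 2 * v⁻¹ * ((v * w)⁻¹ ^ 2) := by
      field_simp
    rw [e]
    refine mul_le_of_le_one_right (by positivity) ?_
    have : (v * w)⁻¹ ≤ 1 := inv_le_one_of_one_le₀ h1
    have h0 : 0 ≤ (v * w)⁻¹ := by positivity
    nlinarith
  have h4 : 0 ≤ u ^ 2 * v⁻¹ := by positivity
  linarith

lemma psi_le {F u v w : ℝ} (hv : 0 < v) (hw : 0 < w) : psi F u v⁻¹ w⁻¹ ≤ 5 * F := by
  unfold psi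
  have h3 : 0 ≤ u ^ 2 * v⁻¹ ^ 3 * w⁻¹ ^ 2 := by positivity
  have h4 : 0 ≤ u ^ 2 * v⁻¹ := by positivity
  linarith

end Pool.Agent.R216.GL
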