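import Pool.Agent.R216.GL.B1

/-! Green's inequality in the upper half plane. -/

set_option autoImplicit false
set_option linter.unusedVariables false

open MeasureTheory Set Filter Topology

namespace Pool.Agent.R216.GL

lemma ibp2 {a b : ℝ} (hab : a ≤ b) {g g1 g2 φ φ1 φ2 : ℝ → ℝ}
    (hg : ∀ x ∈ Icc a b, HasDerivAt g (g1 x) x) (hg1 : ∀ x ∈ Icc a b, HasDerivAt g1 (g2 x) x)
    (hg2 : ContinuousOn g2 (Icc a b))
    (hφ : ∀ x, HasDerivAt φ (φ1 x) x) (hφ1 : ∀ x, HasDerivAt φ1 (φ2 x) x) (hφ2 : Continuous φ2) :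
    ∫ x in a..b, g2 x * φ x = (g1 b * φ b - g1 a * φ a) - (g b * φ1 b - g a * φ1 a)
      + ∫ x in a..b, g x * φ2 x := by
  have hI : uIcc a b = Icc a b := uIcc_of_le hab
  have c1 : ContinuousOn g1 (Icc a b) := fun x hx => (hg1 x hx).continuousAt.continuousWithinAt
  have cφ1 : Continuous φ1 := continuous_iff_continuousAt.2 fun x => (hφ1 x).continuousAt
  have i1 : IntervalIntegrable g1 volume a b := (hI ▸ c1).intervalIntegrable
  have i2 : IntervalIntegrable g2 volume a b := (hI ▸ hg2).intervalIntegrable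
  have e1 := intervalIntegral.integral_mul_deriv_eq_deriv_mul (u := φ) (v := g1) (u' := φ1)
    (v' := g2) (a := a) (b := b) (fun x _ => hφ x) (fun x hx => hg1 x (hI ▸ hx))
    (cφ1.intervalIntegrable a b) i2
  have e2 := intervalIntegral.integral_mul_deriv_eq_deriv_mul (u := φ1) (v := g) (u' := φ2)
    (v' := g1) (a := a) (b := b) (fun x _ => hφ1 x) (fun x hx => hg x (hI ▸ hx))
    (hφ2.intervalIntegrable a b) i1
  have c3 : ∫ x in a..b, g2 x * φ x = ∫ x in a..b, φ x * g2 x := by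
    congr 1; ext x; ring
  have c4 : ∫ x in a..b, g x * φ2 x = ∫ x in a..b, φ2 x * g x := by
    congr 1; ext x; ring
  rw [c3, c4, e1, e2]
  ring

/-- cutoff in the horizontal variable -/
noncomputable def al (R z : ℝ) : ℝ := (1 - z ^ 2 / R ^ 2) ^ 2
noncomputable def al1 (R z : ℝ) : ℝ := 2 * (1 - z ^ 2 / R ^ 2) * (-(2 * z / R ^ 2))
noncomputable def al2 (R z : ℝ) : ℝ := -4 / R ^ 2 + 12 * z ^ 2 / R ^ 4
/-- cutoff in the vertical variable -/
noncomputable def be (e R y : ℝ) : ℝ := (y - e) * (1 - (y - e) ^ 2 / R ^ 2) ^ 2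
noncomputable def be1 (e R y : ℝ) : ℝ :=
  1 - 6 * (y - e) ^ 2 / R ^ 2 + 5 * (y - e) ^ 4 / R ^ 4
noncomputable def be2 (e R y : ℝ) : ℝ := -12 * (y - e) / R ^ 2 + 20 * (y - e) ^ 3 / R ^ 4

lemma al_d {R : ℝ} (hR : 0 < R) (z : ℝ) : HasDerivAt (al R) (al1 R z) z := by
  have h := ((((hasDerivAt_id z).pow 2).div_const (R ^ 2)).const_sub 1).pow 2
  refine h.congr_deriv ?_
  simp only [al1, id_eq, Pi.pow_apply]
  push_cast
  field_simp

lemma al1_d {R : ℝ} (hR : 0 < R) (z : ℝ) : HasDerivAt (al1 R) (al2 R z) z := by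
  have h := (((((hasDerivAt_id z).pow 2).div_const (R ^ 2)).const_sub 1).const_mul 2).mul
    (((hasDerivAt_id z).const_mul 2).div_const (R ^ 2)).neg
  refine h.congr_deriv ?_
  simp only [al2, id_eq, Pi.pow_apply, Pi.neg_apply]
  push_cast
  field_simp
  ring

lemma be_d {e R : ℝ} (hR : 0 < R) (y : ℝ) : HasDerivAt (be e R) (be1 e R y) y := by
  have h0 := (hasDerivAt_id y).sub_const e
  have h := h0.mul ((((h0.pow 2).div_const (R ^ 2)).const_sub 1).pow 2)
  refine h.congr_deriv ?_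
  simp only [be1, id_eq, Pi.pow_apply]
  push_cast
  field_simp
  ring

lemma be1_d {e R : ℝ} (hR : 0 < R) (y : ℝ) : HasDerivAt (be1 e R) (be2 e R y) y := by
  have h0 := (hasDerivAt_id y).sub_const e
  have h := ((((h0.pow 2).const_mul 6).div_const (R ^ 2)).const_sub 1).add
    (((h0.pow 4).const_mul 5).div_const (R ^ 4))
  refine h.congr_deriv ?_
  simp only [be2, id_eq, Pi.pow_apply]
  push_cast
  field_simp
  ring

lemma al_nonneg (R z : ℝ) : 0 ≤ al R z := sq_nonneg _

lemma al_le {R z : ℝ} (hR : 0 < R) (h1 : -R ≤ z) (h2 : z ≤ R) : al R z ≤ 1 := by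
  unfold al
  have : z ^ 2 / R ^ 2 ≤ 1 := by
    rw [div_le_one (by positivity)]; nlinarith
  have h0 : 0 ≤ z ^ 2 / R ^ 2 := by positivity
  nlinarith

lemma be_nonneg {e R y : ℝ} (h : e ≤ y) : 0 ≤ be e R y :=
  mul_nonneg (by linarith) (sq_nonneg _)

lemma be_le {e R y : ℝ} (hR : 0 < R) (h1 : e ≤ y) (h2 : y ≤ e + R) : be e R y ≤ R := by
  unfold be
  have : (y - e) ^ 2 / R ^ 2 ≤ 1 := by
    rw [div_le_one (by positivity)]; nlinarith
  have h0 : 0 ≤ (y - e) ^ 2 / R ^ 2 := by positivity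
  have h3 : (1 - (y - e) ^ 2 / R ^ 2) ^ 2 ≤ 1 := by nlinarith
  have h4 : 0 ≤ (1 - (y - e) ^ 2 / R ^ 2) ^ 2 := sq_nonneg _
  calc _ ≤ (y - e) * 1 := mul_le_mul_of_nonneg_left h3 (by linarith)
    _ ≤ R := by linarith

lemma cut_bd {e R z y : ℝ} (hR : 0 < R) (h1 : -R ≤ z) (h2 : z ≤ R) (h3 : e ≤ y) (h4 : y ≤ e + R) :
    -(al2 R z * be e R y) - al R z * be2 e R y ≤ 16 / R := by
  have a1 := al_nonneg R z
  have a2 := al_le hR h1 h2
  have b1 := be_nonneg (R := R) h3
  have b2 := be_le hR h3 h4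
  have c1 : -(al2 R z) ≤ 4 / R ^ 2 := by
    unfold al2
    have : 0 ≤ 12 * z ^ 2 / R ^ 4 := by positivity
    have e4 : -(-4 / R ^ 2) = 4 / R ^ 2 := by ring
    linarith
  have c2 : -(be2 e R y) ≤ 12 / R := by
    unfold be2
    have : 0 ≤ 20 * (y - e) ^ 3 / R ^ 4 := by
      have : 0 ≤ y - e := by linarith
      positivity
    have h5 : -(-12 * (y - e) / R ^ 2) ≤ 12 / R := by
      have : -(-12 * (y - e) / R ^ 2) = 12 * (y - e) / R ^ 2 := by ring
      rw [this, div_le_div_iff₀ (by positivity) hR]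
      nlinarith [mul_nonneg hR.le (show 0 ≤ e + R - y by linarith)]
    linarith
  have d1 : -(al2 R z * be e R y) ≤ 4 / R := by
    calc -(al2 R z * be e R y) = -(al2 R z) * be e R y := by ring
      _ ≤ 4 / R ^ 2 * be e R y := mul_le_mul_of_nonneg_right c1 b1
      _ ≤ 4 / R ^ 2 * R := mul_le_mul_of_nonneg_left b2 (by positivity)
      _ = 4 / R := by field_simp
  have d2 : -(al R z * be2 e R y) ≤ 12 / R := by
    calc -(al R z * be2 e R y) = al R z * (-(be2 e R y)) := by ring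
      _ ≤ al R z * (12 / R) := mul_le_mul_of_nonneg_left c2 a1
      _ ≤ 1 * (12 / R) := mul_le_mul_of_nonneg_right a2 (by positivity)
      _ = 12 / R := one_mul _
  have : 16 / R = 4 / R + 12 / R := by ring
  linarith

/-- the upper half plane -/
def HH : Set ℂ := {ζ | 0 < ζ.im}

lemma HH_open : IsOpen HH := isOpen_lt continuous_const Complex.continuous_im

/-- the point `z + i y` -/
noncomputable def pt (z y : ℝ) : ℂ := (z : ℂ) + y * Complex.I

lemma pt_im (z y : ℝ) : (pt z y).im = y := by simp [pt]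
lemma pt_re (z y : ℝ) : (pt z y).re = z := by simp [pt]

lemma pt_mem {z y : ℝ} (hy : 0 < y) : pt z y ∈ HH := by
  show 0 < (pt z y).im
  rw [pt_im]; exact hy

lemma pt_cont : Continuous fun p : ℝ × ℝ => pt p.1 p.2 := by unfold pt; fun_prop

/-- the rectangle -/
def DD (e R : ℝ) : Set (ℝ × ℝ) := Ioc (-R) R ×ˢ Ioc e (e + R)

lemma DD_int {e R : ℝ} (he : 0 < e) {Φ : ℂ → ℝ} (hΦ : ContinuousOn Φ HH) {c : ℝ × ℝ → ℝ}
    (hc : Continuous c) :
    IntegrableOn (fun p : ℝ × ℝ => Φ (pt p.1 p.2) * c p) (DD e R) := by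
  have hsub : DD e R ⊆ Icc (-R) R ×ˢ Icc e (e + R) :=
    prod_mono Ioc_subset_Icc_self Ioc_subset_Icc_self
  refine IntegrableOn.mono_set ?_ hsub
  refine ContinuousOn.integrableOn_compact (isCompact_Icc.prod isCompact_Icc) ?_
  refine ContinuousOn.mul (hΦ.comp pt_cont.continuousOn ?_) hc.continuousOn
  intro p hp
  exact pt_mem (lt_of_lt_of_le he hp.2.1)

theorem green_abs {Ψ Pz Pzz Py Pyy F : ℂ → ℝ} (cΨ : ContinuousOn Ψ HH) (cPzz : ContinuousOn Pzz HH)
    (cPyy : ContinuousOn Pyy HH) (cF : ContinuousOn F HH)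
    (hz : ∀ z y : ℝ, 0 < y → HasDerivAt (fun s : ℝ => Ψ (pt s y)) (Pz (pt z y)) z)
    (hzz : ∀ z y : ℝ, 0 < y → HasDerivAt (fun s : ℝ => Pz (pt s y)) (Pzz (pt z y)) z)
    (hy : ∀ z y : ℝ, 0 < y → HasDerivAt (fun s : ℝ => Ψ (pt z s)) (Py (pt z y)) y)
    (hyy : ∀ z y : ℝ, 0 < y → HasDerivAt (fun s : ℝ => Py (pt z s)) (Pyy (pt z y)) y)
    (h0 : ∀ ζ ∈ HH, 0 ≤ Ψ ζ) (h5 : ∀ ζ ∈ HH, Ψ ζ ≤ 5 * F ζ) {e R : ℝ} (he : 0 < e) (hR : 0 < R) :
    ∫ p in DD e R, (-(Pzz (pt p.1 p.2) + Pyy (pt p.1 p.2))) * (al R p.1 * be e R p.2)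
      ≤ 80 / R * ∫ p in DD e R, F (pt p.1 p.2) := by
  have cal : Continuous fun p : ℝ × ℝ => al R p.1 := by unfold al; fun_prop
  have cal2 : Continuous fun p : ℝ × ℝ => al2 R p.1 := by unfold al2; fun_prop
  have cbe : Continuous fun p : ℝ × ℝ => be e R p.2 := by unfold be; fun_prop
  have cbe2 : Continuous fun p : ℝ × ℝ => be2 e R p.2 := by unfold be2; fun_prop
  have mD : MeasurableSet (DD e R) := measurableSet_Ioc.prod measurableSet_Ioc
  have iz : IntegrableOn (fun p : ℝ × ℝ => Pzz (pt p.1 p.2) * (al R p.1 * be e R p.2)) (DD e R) :=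
    DD_int (e := e) (R := R) he cPzz (cal.mul cbe)
  have iy : IntegrableOn (fun p : ℝ × ℝ => Pyy (pt p.1 p.2) * (al R p.1 * be e R p.2)) (DD e R) :=
    DD_int (e := e) (R := R) he cPyy (cal.mul cbe)
  have iz' : IntegrableOn (fun p : ℝ × ℝ => Ψ (pt p.1 p.2) * (al2 R p.1 * be e R p.2)) (DD e R) :=
    DD_int (e := e) (R := R) he cΨ (cal2.mul cbe)
  have iy' : IntegrableOn (fun p : ℝ × ℝ => Ψ (pt p.1 p.2) * (al R p.1 * be2 e R p.2)) (DD e R) :=
    DD_int (e := e) (R := R) he cΨ (cal.mul cbe2)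
  have iF := DD_int (e := e) (R := R) he cF (continuous_const (y := (1:ℝ)))
  simp only [mul_one] at iF
  -- horizontal part
  have E1 : ∫ p in DD e R, Pzz (pt p.1 p.2) * (al R p.1 * be e R p.2)
      = ∫ p in DD e R, Ψ (pt p.1 p.2) * (al2 R p.1 * be e R p.2) := by
    have key : ∀ y ∈ Ioc e (e + R), ∫ z in Ioc (-R) R, Pzz (pt z y) * (al R z * be e R y)
        = ∫ z in Ioc (-R) R, Ψ (pt z y) * (al2 R z * be e R y) := by
      intro y hy'
      have hy0 : 0 < y := he.trans hy'.1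
      have h := ibp2 (a := -R) (b := R) (by linarith) (g := fun s => Ψ (pt s y))
        (g1 := fun s => Pz (pt s y)) (g2 := fun s => Pzz (pt s y)) (φ := al R) (φ1 := al1 R)
        (φ2 := al2 R) (fun x _ => hz x y hy0) (fun x _ => hzz x y hy0)
        (cPzz.comp (pt_cont.comp (by fun_prop : Continuous fun s : ℝ => (s, y))).continuousOn
          (fun s _ => pt_mem hy0)) (al_d hR) (al1_d hR)
          (cal2.comp (by fun_prop : Continuous fun s : ℝ => (s, (0:ℝ))))
      have a1 : al R R = 0 := by unfold al; field_simp; ring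
      have a2 : al R (-R) = 0 := by unfold al; field_simp; ring
      have a3 : al1 R R = 0 := by unfold al1; field_simp; ring
      have a4 : al1 R (-R) = 0 := by unfold al1; field_simp; ring
      rw [a1, a2, a3, a4] at h
      simp only [mul_zero, sub_zero, zero_add] at h
      rw [← intervalIntegral.integral_of_le (by linarith), ← intervalIntegral.integral_of_le
        (by linarith)]
      calc _ = ∫ z in (-R)..R, be e R y * (Pzz (pt z y) * al R z) := by congr 1; ext z; ring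
        _ = be e R y * ∫ z in (-R)..R, Pzz (pt z y) * al R z := by
            rw [intervalIntegral.integral_const_mul]
        _ = be e R y * ∫ z in (-R)..R, Ψ (pt z y) * al2 R z := by rw [h]
        _ = ∫ z in (-R)..R, be e R y * (Ψ (pt z y) * al2 R z) := by
            rw [intervalIntegral.integral_const_mul]
        _ = _ := by congr 1; ext z; ring
    have s1 := setIntegral_prod_swap (μ := (volume : Measure ℝ)) (ν := (volume : Measure ℝ))
      (Ioc (-R) R) (Ioc e (e + R)) (fun p : ℝ × ℝ => Pzz (pt p.1 p.2) * (al R p.1 * be e R p.2))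
    have s2 := setIntegral_prod_swap (μ := (volume : Measure ℝ)) (ν := (volume : Measure ℝ))
      (Ioc (-R) R) (Ioc e (e + R)) (fun p : ℝ × ℝ => Ψ (pt p.1 p.2) * (al2 R p.1 * be e R p.2))
    have iz2 : IntegrableOn (fun p : ℝ × ℝ => Pzz (pt p.2 p.1) * (al R p.2 * be e R p.1))
        (Ioc e (e + R) ×ˢ Ioc (-R) R) (volume.prod volume) := by
      have := iz.swap
      exact this
    have iz3 : IntegrableOn (fun p : ℝ × ℝ => Ψ (pt p.2 p.1) * (al2 R p.2 * be e R p.1))
        (Ioc e (e + R) ×ˢ Ioc (-R) R) (volume.prod volume) := by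
      have := iz'.swap
      exact this
    unfold DD
    rw [Measure.volume_eq_prod, ← s1, ← s2]
    simp only [Prod.fst_swap, Prod.snd_swap]
    rw [setIntegral_prod _ iz2, setIntegral_prod _ iz3]
    exact setIntegral_congr_fun measurableSet_Ioc key
  -- vertical part
  have E2 : ∫ p in DD e R, Ψ (pt p.1 p.2) * (al R p.1 * be2 e R p.2)
      ≤ ∫ p in DD e R, Pyy (pt p.1 p.2) * (al R p.1 * be e R p.2) := by
    have key : ∀ z ∈ Ioc (-R) R, ∫ y in Ioc e (e + R), Ψ (pt z y) * (al R z * be2 e R y)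
        ≤ ∫ y in Ioc e (e + R), Pyy (pt z y) * (al R z * be e R y) := by
      intro z hz'
      have hpos : ∀ x ∈ Icc e (e + R), 0 < x := fun x hx => lt_of_lt_of_le he hx.1
      have h := ibp2 (a := e) (b := e + R) (by linarith) (g := fun s => Ψ (pt z s))
        (g1 := fun s => Py (pt z s)) (g2 := fun s => Pyy (pt z s)) (φ := be e R) (φ1 := be1 e R)
        (φ2 := be2 e R) (fun x hx => hy z x (hpos x hx)) (fun x hx => hyy z x (hpos x hx))
        (cPyy.comp (pt_cont.comp (by fun_prop : Continuous fun s : ℝ => (z, s))).continuousOn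
          (fun s hs => pt_mem (hpos s hs))) (be_d hR) (be1_d hR)
          (cbe2.comp (by fun_prop : Continuous fun s : ℝ => ((0:ℝ), s)))
      have a1 : be e R (e + R) = 0 := by unfold be; simp; right; field_simp; ring
      have a2 : be e R e = 0 := by unfold be; simp
      have a3 : be1 e R (e + R) = 0 := by unfold be1; simp; field_simp; ring
      have a4 : be1 e R e = 1 := by unfold be1; simp
      rw [a1, a2, a3, a4] at h
      simp only [mul_zero, sub_zero, zero_sub, mul_one, neg_neg, sub_self, zero_add] at h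
      rw [← intervalIntegral.integral_of_le (by linarith), ← intervalIntegral.integral_of_le
        (by linarith)]
      calc _ = ∫ y in e..(e + R), al R z * (Ψ (pt z y) * be2 e R y) := by congr 1; ext y; ring
        _ = al R z * ∫ y in e..(e + R), Ψ (pt z y) * be2 e R y := by
            rw [intervalIntegral.integral_const_mul]
        _ ≤ al R z * (Ψ (pt z e) + ∫ y in e..(e + R), Ψ (pt z y) * be2 e R y) := by
            refine mul_le_mul_of_nonneg_left ?_ (al_nonneg R z)
            have := h0 _ (pt_mem (z := z) he)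
            linarith
        _ = al R z * ∫ y in e..(e + R), Pyy (pt z y) * be e R y := by rw [h]
        _ = ∫ y in e..(e + R), al R z * (Pyy (pt z y) * be e R y) := by
            rw [intervalIntegral.integral_const_mul]
        _ = _ := by congr 1; ext y; ring
    have iy2 : IntegrableOn (fun p : ℝ × ℝ => Pyy (pt p.1 p.2) * (al R p.1 * be e R p.2))
        (Ioc (-R) R ×ˢ Ioc e (e + R)) (volume.prod volume) := iy
    have iy3 : IntegrableOn (fun p : ℝ × ℝ => Ψ (pt p.1 p.2) * (al R p.1 * be2 e R p.2))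
        (Ioc (-R) R ×ˢ Ioc e (e + R)) (volume.prod volume) := iy'
    unfold DD
    rw [Measure.volume_eq_prod, setIntegral_prod _ iy2, setIntegral_prod _ iy3]
    rw [IntegrableOn, ← Measure.prod_restrict] at iy2 iy3
    exact setIntegral_mono_on iy3.integral_prod_left iy2.integral_prod_left measurableSet_Ioc key
  calc ∫ p in DD e R, (-(Pzz (pt p.1 p.2) + Pyy (pt p.1 p.2))) * (al R p.1 * be e R p.2)
      = -(∫ p in DD e R, Pzz (pt p.1 p.2) * (al R p.1 * be e R p.2))
        - ∫ p in DD e R, Pyy (pt p.1 p.2) * (al R p.1 * be e R p.2) := by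
        have h1 := integral_sub (Integrable.neg iz) iy
        have h2 := integral_neg (μ := volume.restrict (DD e R))
          (fun p : ℝ × ℝ => Pzz (pt p.1 p.2) * (al R p.1 * be e R p.2))
        rw [← h2]
        refine Eq.trans ?_ h1
        congr 1; ext p; simp only [Pi.neg_apply]; ring
    _ ≤ -(∫ p in DD e R, Ψ (pt p.1 p.2) * (al2 R p.1 * be e R p.2))
        - ∫ p in DD e R, Ψ (pt p.1 p.2) * (al R p.1 * be2 e R p.2) := by
        rw [E1]; linarith
    _ = ∫ p in DD e R, Ψ (pt p.1 p.2) * (-(al2 R p.1 * be e R p.2) - al R p.1 * be2 e R p.2) := by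
        have h1 := integral_sub (Integrable.neg iz') iy'
        have h2 := integral_neg (μ := volume.restrict (DD e R))
          (fun p : ℝ × ℝ => Ψ (pt p.1 p.2) * (al2 R p.1 * be e R p.2))
        rw [← h2]
        refine Eq.trans h1.symm ?_
        congr 1; ext p; simp only [Pi.neg_apply]; ring
    _ ≤ ∫ p in DD e R, 80 / R * F (pt p.1 p.2) := by
        refine setIntegral_mono_on ?_ (iF.const_mul _) mD ?_
        · exact DD_int he cΨ ((cal2.mul cbe).neg.sub (cal.mul cbe2))
        · intro p hp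
          have hp2 : 0 < p.2 := he.trans hp.2.1
          have b1 := cut_bd (e := e) (z := p.1) (y := p.2) hR hp.1.1.le hp.1.2 hp.2.1.le hp.2.2
          have b2 := h0 _ (pt_mem (z := p.1) hp2)
          have b3 := h5 _ (pt_mem (z := p.1) hp2)
          calc Ψ (pt p.1 p.2) * (-(al2 R p.1 * be e R p.2) - al R p.1 * be2 e R p.2)
              ≤ Ψ (pt p.1 p.2) * (16 / R) := mul_le_mul_of_nonneg_left b1 b2
            _ ≤ (5 * F (pt p.1 p.2)) * (16 / R) := mul_le_mul_of_nonneg_right b3 (by positivity)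
            _ = _ := by ring
    _ = 80 / R * ∫ p in DD e R, F (pt p.1 p.2) := by rw [integral_const_mul]

end Pool.Agent.R216.GL
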