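import Pool.Agent.R216.GL.B2

/-! Poisson integrals as imaginary parts of analytic functions. -/

set_option autoImplicit false
set_option linter.unusedVariables false

open MeasureTheory Set Filter Topology

namespace Pool.Agent.R216.GL

/-- Poisson kernel -/
noncomputable def pk (z y t : ℝ) : ℝ := Real.pi⁻¹ * (y / ((t - z) ^ 2 + y ^ 2))

/-- Poisson integral -/
noncomputable def PP (ρ : ℝ → ℝ) (z y : ℝ) : ℝ := ∫ t, ρ t * pk z y t

/-- admissible functions -/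
def Adm (ρ : ℝ → ℝ) : Prop := Integrable (fun t => ρ t * (1 + t ^ 2)⁻¹)

lemma pk_eq {y : ℝ} (hy : 0 < y) (z t : ℝ) :
    pk z y t = ProbabilityTheory.cauchyPDFReal z (Real.toNNReal y) t := by
  rw [ProbabilityTheory.cauchyPDFReal_def, Real.coe_toNNReal _ hy.le, pk]
  rw [mul_assoc, div_eq_mul_inv]

lemma pk_pos {y : ℝ} (hy : 0 < y) (z t : ℝ) : 0 < pk z y t := by
  unfold pk; have := Real.pi_pos; positivity

lemma pk_int {y : ℝ} (hy : 0 < y) (z : ℝ) : ∫ t, pk z y t = 1 := by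
  simp_rw [pk_eq hy]
  exact ProbabilityTheory.integral_cauchyPDFReal_eq_one z (by simpa using hy)

lemma pk_integrable {y : ℝ} (hy : 0 < y) (z : ℝ) : Integrable (pk z y) := by
  have : pk z y = ProbabilityTheory.cauchyPDFReal z (Real.toNNReal y) := by
    ext t; exact pk_eq hy z t
  rw [this]
  exact ProbabilityTheory.integrable_cauchyPDFReal z

lemma pk_symm (z y t : ℝ) : pk z y t = pk t y z := by
  unfold pk; congr 2; ring

lemma pk_lint {y : ℝ} (hy : 0 < y) (z : ℝ) : ∫⁻ t, ENNReal.ofReal (pk z y t) = 1 := by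
  rw [← ofReal_integral_eq_lintegral_ofReal (pk_integrable hy z)
    (ae_of_all _ fun t => (pk_pos hy z t).le), pk_int hy, ENNReal.ofReal_one]

lemma pk_lint' {y : ℝ} (hy : 0 < y) (t : ℝ) : ∫⁻ z, ENNReal.ofReal (pk z y t) = 1 := by
  simp_rw [fun z => pk_symm z y t]
  exact pk_lint hy t

lemma pk_meas (z y : ℝ) : Measurable (pk z y) := by unfold pk; fun_prop

lemma bd_aux {x y : ℝ} (hy : 0 < y) (t : ℝ) :
    1 + t ^ 2 ≤ (2 + (2 * x ^ 2 + 1) / y ^ 2) * ((t - x) ^ 2 + y ^ 2) := by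
  have e : (2 + (2 * x ^ 2 + 1) / y ^ 2) * ((t - x) ^ 2 + y ^ 2)
      = 2 * (t - x) ^ 2 + 2 * y ^ 2 + (2 * x ^ 2 + 1) * ((t - x) ^ 2 / y ^ 2) + (2 * x ^ 2 + 1) := by
    field_simp
    ring
  have h1 : 0 ≤ (2 * x ^ 2 + 1) * ((t - x) ^ 2 / y ^ 2) := by positivity
  rw [e]
  nlinarith [sq_nonneg (t - 2 * x), sq_nonneg y]

lemma adm_mul {ρ : ℝ → ℝ} (h : Adm ρ) {φ : ℝ → ℂ} (hφ : Measurable φ) {C : ℝ}
    (hb : ∀ t, ‖φ t‖ * (1 + t ^ 2) ≤ C) : Integrable (fun t => (ρ t : ℂ) * φ t) := by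
  have h1 : Integrable (fun t => ((ρ t * (1 + t ^ 2)⁻¹ : ℝ) : ℂ)) := h.ofReal
  have h2 : Integrable (fun t => (φ t * (1 + (t:ℂ) ^ 2)) * ((ρ t * (1 + t ^ 2)⁻¹ : ℝ) : ℂ)) := by
    refine h1.bdd_mul (c := C) ?_ ?_
    · exact (hφ.mul (by fun_prop)).aestronglyMeasurable
    · refine ae_of_all _ fun t => ?_
      rw [norm_mul]
      have : ‖(1 + (t:ℂ) ^ 2)‖ = 1 + t ^ 2 := by
        have e : (1 + (t:ℂ) ^ 2) = ((1 + t ^ 2 : ℝ) : ℂ) := by push_cast; ring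
        rw [e, Complex.norm_real, Real.norm_of_nonneg (by positivity)]
      rw [this]
      exact hb t
  refine h2.congr (ae_of_all _ fun t => ?_)
  have : (1 + (t:ℂ) ^ 2) ≠ 0 := by
    have e : (1 + (t:ℂ) ^ 2) = ((1 + t ^ 2 : ℝ) : ℂ) := by push_cast; ring
    rw [e, Complex.ofReal_ne_zero]; positivity
  push_cast
  field_simp

lemma adm_mul_real {ρ : ℝ → ℝ} (h : Adm ρ) {φ : ℝ → ℝ} (hφ : Measurable φ) {C : ℝ}
    (hb : ∀ t, |φ t| * (1 + t ^ 2) ≤ C) : Integrable (fun t => ρ t * φ t) := by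
  have h2 : Integrable (fun t => (φ t * (1 + t ^ 2)) * (ρ t * (1 + t ^ 2)⁻¹)) := by
    refine h.bdd_mul (c := C) ?_ ?_
    · exact (hφ.mul (by fun_prop)).aestronglyMeasurable
    · refine ae_of_all _ fun t => ?_
      rw [norm_mul, Real.norm_eq_abs, Real.norm_of_nonneg (by positivity : (0:ℝ) ≤ 1 + t ^ 2)]
      exact hb t
  refine h2.congr (ae_of_all _ fun t => ?_)
  have : (1 + t ^ 2) ≠ 0 := by positivity
  field_simp

lemma PP_integrable {ρ : ℝ → ℝ} (h : Adm ρ) {z y : ℝ} (hy : 0 < y) :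
    Integrable (fun t => ρ t * pk z y t) := by
  refine adm_mul_real h (pk_meas z y) (C := Real.pi⁻¹ * y * (2 + (2 * z ^ 2 + 1) / y ^ 2)) ?_
  intro t
  rw [abs_of_pos (pk_pos hy z t)]
  unfold pk
  have h1 := bd_aux (x := z) hy t
  have h2 : 0 < (t - z) ^ 2 + y ^ 2 := by positivity
  have hpi := Real.pi_pos
  calc Real.pi⁻¹ * (y / ((t - z) ^ 2 + y ^ 2)) * (1 + t ^ 2)
      ≤ Real.pi⁻¹ * (y / ((t - z) ^ 2 + y ^ 2)) *
        ((2 + (2 * z ^ 2 + 1) / y ^ 2) * ((t - z) ^ 2 + y ^ 2)) := by gcongr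
    _ = _ := by field_simp

/-- the kernel of the analytic extension -/
noncomputable def kk (ζ : ℂ) (t : ℝ) : ℂ := ((t : ℂ) - ζ)⁻¹ - (t : ℂ) / (1 + (t : ℂ) ^ 2)

/-- the analytic extension -/
noncomputable def Af (ρ : ℝ → ℝ) (ζ : ℂ) : ℂ := (Real.pi : ℂ)⁻¹ * ∫ t, (ρ t : ℂ) * kk ζ t

lemma sub_ne {ζ : ℂ} (hζ : ζ ∈ HH) (t : ℝ) : (t : ℂ) - ζ ≠ 0 := by
  intro h
  have h1 : ((t : ℂ) - ζ).im = 0 := by rw [h]; rfl
  simp at h1
  have : 0 < ζ.im := hζ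
  linarith

lemma one_sq_ne (t : ℝ) : (1 + (t:ℂ) ^ 2) ≠ 0 := by
  have e : (1 + (t:ℂ) ^ 2) = ((1 + t ^ 2 : ℝ) : ℂ) := by push_cast; ring
  rw [e, Complex.ofReal_ne_zero]; positivity

lemma one_sq_norm (t : ℝ) : ‖(1 + (t:ℂ) ^ 2)‖ = 1 + t ^ 2 := by
  have e : (1 + (t:ℂ) ^ 2) = ((1 + t ^ 2 : ℝ) : ℂ) := by push_cast; ring
  rw [e, Complex.norm_real, Real.norm_of_nonneg (by positivity)]

lemma normsq_sub (ζ : ℂ) (t : ℝ) : ‖(t : ℂ) - ζ‖ ^ 2 = (t - ζ.re) ^ 2 + ζ.im ^ 2 := by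
  rw [← Complex.normSq_eq_norm_sq, Complex.normSq_apply]
  simp
  ring

lemma norm_sub_ge {ζ : ℂ} (hζ : ζ ∈ HH) (t : ℝ) : ζ.im ≤ ‖(t : ℂ) - ζ‖ := by
  have h := Complex.abs_im_le_norm ((t : ℂ) - ζ)
  simp only [Complex.sub_im, Complex.ofReal_im, zero_sub, abs_neg] at h
  exact (le_abs_self _).trans h

lemma kk_meas (ζ : ℂ) : Measurable (kk ζ) := by unfold kk; fun_prop

lemma kk_bd {ζ : ℂ} (hζ : ζ ∈ HH) (t : ℝ) :
    ‖kk ζ t‖ * (1 + t ^ 2) ≤ ‖1 + ζ ^ 2‖ / ζ.im + ‖ζ‖ := by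
  have hi : 0 < ζ.im := hζ
  have h1 := sub_ne hζ t
  have h2 := one_sq_ne t
  rw [← one_sq_norm, ← norm_mul]
  have e : kk ζ t * (1 + (t:ℂ) ^ 2) = (1 + ζ ^ 2) / ((t:ℂ) - ζ) + ζ := by
    unfold kk
    field_simp
    ring
  rw [e]
  refine (norm_add_le _ _).trans ?_
  rw [norm_div]
  have h3 := norm_sub_ge hζ t
  gcongr

lemma kk_integrable {ρ : ℝ → ℝ} (h : Adm ρ) {ζ : ℂ} (hζ : ζ ∈ HH) :
    Integrable (fun t => (ρ t : ℂ) * kk ζ t) :=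
  adm_mul h (kk_meas ζ) (kk_bd hζ)

lemma kk_im (ζ : ℂ) (t : ℝ) : (kk ζ t).im = ζ.im / ((t - ζ.re) ^ 2 + ζ.im ^ 2) := by
  unfold kk
  have h2 : ((t : ℂ) / (1 + (t : ℂ) ^ 2)).im = 0 := by
    have : ((t : ℂ) / (1 + (t : ℂ) ^ 2)) = ((t / (1 + t ^ 2) : ℝ) : ℂ) := by push_cast; ring
    rw [this, Complex.ofReal_im]
  rw [Complex.sub_im, h2, sub_zero, Complex.inv_im, Complex.normSq_eq_norm_sq, normsq_sub]
  simp

lemma Af_im {ρ : ℝ → ℝ} (h : Adm ρ) {ζ : ℂ} (hζ : ζ ∈ HH) :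
    (Af ρ ζ).im = PP ρ ζ.re ζ.im := by
  unfold Af PP
  have e : ((Real.pi : ℂ)⁻¹ * ∫ t, (ρ t : ℂ) * kk ζ t).im
      = Real.pi⁻¹ * (∫ t, (ρ t : ℂ) * kk ζ t).im := by
    rw [← Complex.ofReal_inv, Complex.im_ofReal_mul]
  rw [e]
  have h1 := integral_im (kk_integrable h hζ)
  have h2 : (∫ t, (ρ t : ℂ) * kk ζ t).im = ∫ t, ((ρ t : ℂ) * kk ζ t).im := h1.symm
  rw [h2, ← integral_const_mul]
  congr 1
  ext t
  rw [Complex.im_ofReal_mul, kk_im, pk]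
  ring

lemma Af_hasDeriv {ρ : ℝ → ℝ} (h : Adm ρ) {ζ : ℂ} (hζ : ζ ∈ HH) :
    HasDerivAt (Af ρ) ((Real.pi : ℂ)⁻¹ * ∫ t, (ρ t : ℂ) * (((t : ℂ) - ζ) ^ 2)⁻¹) ζ := by
  have hi : 0 < ζ.im := hζ
  set δ := ζ.im / 2 with hδ
  have hδ0 : 0 < δ := by positivity
  unfold Af
  refine HasDerivAt.const_mul _ ?_
  have hball : ∀ x ∈ Metric.ball ζ δ, δ ≤ x.im ∧ |x.re| ≤ |ζ.re| + δ := by
    intro x hx
    rw [Metric.mem_ball, dist_eq_norm] at hx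
    have h1 := (Complex.abs_im_le_norm (x - ζ)).trans hx.le
    have h2 := (Complex.abs_re_le_norm (x - ζ)).trans hx.le
    rw [Complex.sub_im] at h1
    rw [Complex.sub_re] at h2
    constructor
    · have := (abs_le.1 h1).1; linarith
    · have h3 := abs_sub_abs_le_abs_sub x.re ζ.re
      linarith
  have hmem : ∀ x ∈ Metric.ball ζ δ, x ∈ HH := fun x hx => hδ0.trans_le (hball x hx).1
  set M := 2 + (2 * (|ζ.re| + δ) ^ 2 + 1) / δ ^ 2 with hM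
  have hM0 : 0 < M := by positivity
  have hbd : ∀ t : ℝ, ∀ x ∈ Metric.ball ζ δ, ‖(((t : ℂ) - x) ^ 2)⁻¹‖ ≤ M * (1 + t ^ 2)⁻¹ := by
    intro t x hx
    obtain ⟨h1, h2⟩ := hball x hx
    have h3 := bd_aux (x := x.re) (hδ0.trans_le h1) t
    rw [norm_inv, norm_pow, normsq_sub]
    have h4 : 2 + (2 * x.re ^ 2 + 1) / x.im ^ 2 ≤ M := by
      have : x.re ^ 2 ≤ (|ζ.re| + δ) ^ 2 := by
        rw [← sq_abs x.re]
        exact pow_le_pow_left₀ (abs_nonneg _) h2 2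
      rw [hM]
      gcongr
    have h5 : 0 < (t - x.re) ^ 2 + x.im ^ 2 := by
      have : 0 < x.im := hδ0.trans_le h1
      positivity
    have h6 : 1 + t ^ 2 ≤ M * ((t - x.re) ^ 2 + x.im ^ 2) :=
      h3.trans (mul_le_mul_of_nonneg_right h4 h5.le)
    rw [inv_eq_one_div, ← div_eq_mul_inv, div_le_div_iff₀ h5 (by positivity)]
    linarith
  have key := hasDerivAt_integral_of_dominated_loc_of_deriv_le (μ := volume) (𝕜 := ℂ)
    (s := Metric.ball ζ δ) (x₀ := ζ) (F := fun x t => (ρ t : ℂ) * kk x t)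
    (F' := fun x t => (ρ t : ℂ) * (((t : ℂ) - x) ^ 2)⁻¹)
    (bound := fun t => M * ‖ρ t * (1 + t ^ 2)⁻¹‖)
    (Metric.ball_mem_nhds ζ hδ0)
    (by
      filter_upwards [Metric.ball_mem_nhds ζ hδ0] with x hx
      exact (kk_integrable h (hmem x hx)).aestronglyMeasurable)
    (kk_integrable h hζ)
    ?_ ?_ ((h.norm).const_mul M) ?_
  · exact key.2
  · refine (adm_mul h (φ := fun t => (((t : ℂ) - ζ) ^ 2)⁻¹) (by fun_prop) (C := M) ?_).aestronglyMeasurable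
    intro t
    have := hbd t ζ (Metric.mem_ball_self hδ0)
    calc _ ≤ M * (1 + t ^ 2)⁻¹ * (1 + t ^ 2) := by gcongr
      _ = M := by
        have : (1 + t ^ 2) ≠ 0 := by positivity
        field_simp
  · refine ae_of_all _ fun t x hx => ?_
    rw [norm_mul, norm_mul, Complex.norm_real]
    have h1 := hbd t x hx
    have h2 : ‖((1:ℝ) + t ^ 2)⁻¹‖ = (1 + t ^ 2)⁻¹ := Real.norm_of_nonneg (by positivity)
    rw [h2]
    calc ‖ρ t‖ * ‖(((t : ℂ) - x) ^ 2)⁻¹‖ ≤ ‖ρ t‖ * (M * (1 + t ^ 2)⁻¹) := by gcongr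
      _ = _ := by ring
  · refine ae_of_all _ fun t x hx => ?_
    refine HasDerivAt.const_mul _ ?_
    unfold kk
    have h1 : HasDerivAt (fun x : ℂ => (t : ℂ) - x) (-1) x := by
      simpa using (hasDerivAt_id x).const_sub (t : ℂ)
    have h2 := (h1.inv (sub_ne (hmem x hx) t)).sub_const ((t : ℂ) / (1 + (t : ℂ) ^ 2))
    refine h2.congr_deriv ?_
    have := sub_ne (hmem x hx) t
    field_simp

lemma Af_diff {ρ : ℝ → ℝ} (h : Adm ρ) : DifferentiableOn ℂ (Af ρ) HH :=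
  fun ζ hζ => (Af_hasDeriv h hζ).differentiableAt.differentiableWithinAt

end Pool.Agent.R216.GL
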