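import Pool.Agent.R216.GL.B3

/-! The area integral estimate for analytic data. -/

set_option autoImplicit false
set_option linter.unusedVariables false

open MeasureTheory Set Filter Topology
open scoped ENNReal

namespace Pool.Agent.R216.GL

section lines
variable {A : ℂ → ℂ}

lemma line_z {ζ' : ℂ} {z y : ℝ} (h : HasDerivAt A ζ' (pt z y)) :
    HasDerivAt (fun s : ℝ => A (pt s y)) ζ' z := by
  have h1 : HasDerivAt (fun s : ℝ => pt s y) 1 z := by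
    unfold pt
    simpa using (Complex.ofRealCLM.hasDerivAt (x := z)).add_const ((y:ℂ) * Complex.I)
  have h2 := h.comp z h1
  rw [mul_one] at h2
  exact h2

lemma line_y {ζ' : ℂ} {z y : ℝ} (h : HasDerivAt A ζ' (pt z y)) :
    HasDerivAt (fun s : ℝ => A (pt z s)) (ζ' * Complex.I) y := by
  have h1 : HasDerivAt (fun s : ℝ => pt z s) Complex.I y := by
    unfold pt
    simpa using ((Complex.ofRealCLM.hasDerivAt (x := y)).mul_const Complex.I).const_add (z:ℂ)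
  exact h.comp y h1

lemma has_im {g : ℝ → ℂ} {g' : ℂ} {s : ℝ} (h : HasDerivAt g g' s) :
    HasDerivAt (fun t => (g t).im) g'.im s :=
  (Complex.imCLM.hasFDerivAt.comp_hasDerivAt s h)

lemma has_re {g : ℝ → ℂ} {g' : ℂ} {s : ℝ} (h : HasDerivAt g g' s) :
    HasDerivAt (fun t => (g t).re) g'.re s :=
  (Complex.reCLM.hasFDerivAt.comp_hasDerivAt s h)

lemma hasD (hA : DifferentiableOn ℂ A HH) {z y : ℝ} (hy : 0 < y) :
    HasDerivAt A (deriv A (pt z y)) (pt z y) :=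
  (hA.differentiableAt (HH_open.mem_nhds (pt_mem hy))).hasDerivAt

lemma im_z (hA : DifferentiableOn ℂ A HH) {z y : ℝ} (hy : 0 < y) :
    HasDerivAt (fun s : ℝ => (A (pt s y)).im) ((deriv A (pt z y)).im) z :=
  has_im (line_z (hasD hA hy))

lemma im_y (hA : DifferentiableOn ℂ A HH) {z y : ℝ} (hy : 0 < y) :
    HasDerivAt (fun s : ℝ => (A (pt z s)).im) ((deriv A (pt z y)).re) y := by
  have := has_im (line_y (hasD hA hy (z := z)))
  simpa using this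

lemma re_y (hA : DifferentiableOn ℂ A HH) {z y : ℝ} (hy : 0 < y) :
    HasDerivAt (fun s : ℝ => (A (pt z s)).re) (-(deriv A (pt z y)).im) y := by
  have := has_re (line_y (hasD hA hy (z := z)))
  simpa using this

lemma inv_d {v : ℝ → ℝ} {v' s : ℝ} (h : HasDerivAt v v' s) (h0 : v s ≠ 0) :
    HasDerivAt (fun t => (v t)⁻¹) (-v' * (v s)⁻¹ ^ 2) s := by
  refine (h.inv h0).congr_deriv ?_
  field_simp

end lines

lemma psi_c {F u i j : ℂ → ℝ} (h1 : ContinuousOn F HH) (h2 : ContinuousOn u HH)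
    (h3 : ContinuousOn i HH) (h4 : ContinuousOn j HH) :
    ContinuousOn (fun ζ => psi (F ζ) (u ζ) (i ζ) (j ζ)) HH := by
  unfold psi; fun_prop

lemma quad_c {u i j u1 v1 w1 : ℂ → ℝ} (h2 : ContinuousOn u HH)
    (h3 : ContinuousOn i HH) (h4 : ContinuousOn j HH) (h5 : ContinuousOn u1 HH)
    (h6 : ContinuousOn v1 HH) (h7 : ContinuousOn w1 HH) :
    ContinuousOn (fun ζ => quad (u ζ) (i ζ) (j ζ) (u1 ζ) (v1 ζ) (w1 ζ)) HH := by
  unfold quad; fun_prop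

lemma lin_c {u i j F2 u2 v2 w2 : ℂ → ℝ} (h2 : ContinuousOn u HH)
    (h3 : ContinuousOn i HH) (h4 : ContinuousOn j HH) (h5 : ContinuousOn F2 HH)
    (h6 : ContinuousOn u2 HH) (h7 : ContinuousOn v2 HH) (h8 : ContinuousOn w2 HH) :
    ContinuousOn (fun ζ => lin (u ζ) (i ζ) (j ζ) (F2 ζ) (u2 ζ) (v2 ζ) (w2 ζ)) HH := by
  unfold lin; fun_prop

lemma lin_neg (u i j F2 u2 v2 w2 : ℝ) :
    lin u i j (-F2) (-u2) (-v2) (-w2) = -lin u i j F2 u2 v2 w2 := by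
  unfold lin; ring

lemma im_c {A : ℂ → ℂ} (h : DifferentiableOn ℂ A HH) : ContinuousOn (fun ζ => (A ζ).im) HH :=
  Complex.continuous_im.comp_continuousOn h.continuousOn

lemma re_c {A : ℂ → ℂ} (h : DifferentiableOn ℂ A HH) : ContinuousOn (fun ζ => (A ζ).re) HH :=
  Complex.continuous_re.comp_continuousOn h.continuousOn

section area
variable {A1 A2 A3 A4 : ℂ → ℂ} {Q : ℝ}

theorem area_loc (d1 : DifferentiableOn ℂ A1 HH) (d2 : DifferentiableOn ℂ A2 HH)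
    (d3 : DifferentiableOn ℂ A3 HH) (d4 : DifferentiableOn ℂ A4 HH)
    (hv : ∀ ζ ∈ HH, 0 < (A3 ζ).im) (hw : ∀ ζ ∈ HH, 0 < (A4 ζ).im)
    (h1 : ∀ ζ ∈ HH, 1 ≤ (A3 ζ).im * (A4 ζ).im) (hQ : ∀ ζ ∈ HH, (A3 ζ).im * (A4 ζ).im ≤ Q)
    (hF : ∀ ζ ∈ HH, (A2 ζ).im ^ 2 ≤ (A1 ζ).im * (A3 ζ).im) {e R : ℝ} (he : 0 < e) (hR : 0 < R) :
    ∫ p in DD e R, (‖deriv A2 (pt p.1 p.2)‖ ^ 2 * (A4 (pt p.1 p.2)).im / (5 * Q ^ 3))
        * (al R p.1 * be e R p.2)
      ≤ 80 / R * ∫ p in DD e R, (A1 (pt p.1 p.2)).im := by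
  have e1 : DifferentiableOn ℂ (deriv A1) HH := d1.deriv HH_open
  have e2 : DifferentiableOn ℂ (deriv A2) HH := d2.deriv HH_open
  have e3 : DifferentiableOn ℂ (deriv A3) HH := d3.deriv HH_open
  have e4 : DifferentiableOn ℂ (deriv A4) HH := d4.deriv HH_open
  have f1 : DifferentiableOn ℂ (deriv (deriv A1)) HH := e1.deriv HH_open
  have f2 : DifferentiableOn ℂ (deriv (deriv A2)) HH := e2.deriv HH_open
  have f3 : DifferentiableOn ℂ (deriv (deriv A3)) HH := e3.deriv HH_open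
  have f4 : DifferentiableOn ℂ (deriv (deriv A4)) HH := e4.deriv HH_open
  have ci : ContinuousOn (fun ζ => ((A3 ζ).im)⁻¹) HH := (im_c d3).inv₀ fun ζ hζ => (hv ζ hζ).ne'
  have cj : ContinuousOn (fun ζ => ((A4 ζ).im)⁻¹) HH := (im_c d4).inv₀ fun ζ hζ => (hw ζ hζ).ne'
  have cQz := quad_c (im_c d2) ci cj (im_c e2) (im_c e3) (im_c e4)
  have cQy := quad_c (im_c d2) ci cj (re_c e2) (re_c e3) (re_c e4)
  have cLz := lin_c (im_c d2) ci cj (im_c f1) (im_c f2) (im_c f3) (im_c f4)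
  have cLy := lin_c (im_c d2) ci cj (im_c f1).neg (im_c f2).neg (im_c f3).neg (im_c f4).neg
  have G := green_abs
    (Ψ := fun ζ => psi (A1 ζ).im (A2 ζ).im ((A3 ζ).im)⁻¹ ((A4 ζ).im)⁻¹)
    (Pz := fun ζ => psi1 (deriv A1 ζ).im (A2 ζ).im ((A3 ζ).im)⁻¹ ((A4 ζ).im)⁻¹ (deriv A2 ζ).im
      (deriv A3 ζ).im (deriv A4 ζ).im)
    (Py := fun ζ => psi1 (deriv A1 ζ).re (A2 ζ).im ((A3 ζ).im)⁻¹ ((A4 ζ).im)⁻¹ (deriv A2 ζ).re
      (deriv A3 ζ).re (deriv A4 ζ).re)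
    (Pzz := fun ζ => -quad (A2 ζ).im ((A3 ζ).im)⁻¹ ((A4 ζ).im)⁻¹ (deriv A2 ζ).im
      (deriv A3 ζ).im (deriv A4 ζ).im + lin (A2 ζ).im ((A3 ζ).im)⁻¹ ((A4 ζ).im)⁻¹
      (deriv (deriv A1) ζ).im (deriv (deriv A2) ζ).im (deriv (deriv A3) ζ).im
      (deriv (deriv A4) ζ).im)
    (Pyy := fun ζ => -quad (A2 ζ).im ((A3 ζ).im)⁻¹ ((A4 ζ).im)⁻¹ (deriv A2 ζ).re
      (deriv A3 ζ).re (deriv A4 ζ).re + lin (A2 ζ).im ((A3 ζ).im)⁻¹ ((A4 ζ).im)⁻¹
      (-(deriv (deriv A1) ζ).im) (-(deriv (deriv A2) ζ).im) (-(deriv (deriv A3) ζ).im)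
      (-(deriv (deriv A4) ζ).im))
    (F := fun ζ => (A1 ζ).im)
    (psi_c (im_c d1) (im_c d2) ci cj) (cQz.neg.add cLz) (cQy.neg.add cLy) (im_c d1)
    (fun z y hy => hasDeriv1 (F := fun s => (A1 (pt s y)).im) (u := fun s => (A2 (pt s y)).im)
      (i := fun s => ((A3 (pt s y)).im)⁻¹) (j := fun s => ((A4 (pt s y)).im)⁻¹)
      (F1 := fun s => (deriv A1 (pt s y)).im) (u1 := fun s => (deriv A2 (pt s y)).im)
      (v1 := fun s => (deriv A3 (pt s y)).im) (w1 := fun s => (deriv A4 (pt s y)).im)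
      (im_z d1 hy) (im_z d2 hy) (inv_d (im_z d3 hy) (hv _ (pt_mem hy)).ne')
      (inv_d (im_z d4 hy) (hw _ (pt_mem hy)).ne'))
    (fun z y hy => hasDeriv2 (F := fun s => (A1 (pt s y)).im) (u := fun s => (A2 (pt s y)).im)
      (i := fun s => ((A3 (pt s y)).im)⁻¹) (j := fun s => ((A4 (pt s y)).im)⁻¹)
      (F1 := fun s => (deriv A1 (pt s y)).im) (u1 := fun s => (deriv A2 (pt s y)).im)
      (v1 := fun s => (deriv A3 (pt s y)).im) (w1 := fun s => (deriv A4 (pt s y)).im)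
      (F2 := fun s => (deriv (deriv A1) (pt s y)).im) (u2 := fun s => (deriv (deriv A2) (pt s y)).im)
      (v2 := fun s => (deriv (deriv A3) (pt s y)).im) (w2 := fun s => (deriv (deriv A4) (pt s y)).im)
      (im_z e1 hy) (im_z d2 hy) (inv_d (im_z d3 hy) (hv _ (pt_mem hy)).ne')
      (inv_d (im_z d4 hy) (hw _ (pt_mem hy)).ne') (im_z e2 hy) (im_z e3 hy) (im_z e4 hy))
    (fun z y hy => hasDeriv1 (F := fun s => (A1 (pt z s)).im) (u := fun s => (A2 (pt z s)).im)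
      (i := fun s => ((A3 (pt z s)).im)⁻¹) (j := fun s => ((A4 (pt z s)).im)⁻¹)
      (F1 := fun s => (deriv A1 (pt z s)).re) (u1 := fun s => (deriv A2 (pt z s)).re)
      (v1 := fun s => (deriv A3 (pt z s)).re) (w1 := fun s => (deriv A4 (pt z s)).re)
      (im_y d1 hy) (im_y d2 hy) (inv_d (im_y d3 hy) (hv _ (pt_mem hy)).ne')
      (inv_d (im_y d4 hy) (hw _ (pt_mem hy)).ne'))
    (fun z y hy => hasDeriv2 (F := fun s => (A1 (pt z s)).im) (u := fun s => (A2 (pt z s)).im)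
      (i := fun s => ((A3 (pt z s)).im)⁻¹) (j := fun s => ((A4 (pt z s)).im)⁻¹)
      (F1 := fun s => (deriv A1 (pt z s)).re) (u1 := fun s => (deriv A2 (pt z s)).re)
      (v1 := fun s => (deriv A3 (pt z s)).re) (w1 := fun s => (deriv A4 (pt z s)).re)
      (F2 := fun s => -(deriv (deriv A1) (pt z s)).im)
      (u2 := fun s => -(deriv (deriv A2) (pt z s)).im)
      (v2 := fun s => -(deriv (deriv A3) (pt z s)).im)
      (w2 := fun s => -(deriv (deriv A4) (pt z s)).im)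
      (re_y e1 hy) (im_y d2 hy) (inv_d (im_y d3 hy) (hv _ (pt_mem hy)).ne')
      (inv_d (im_y d4 hy) (hw _ (pt_mem hy)).ne') (re_y e2 hy) (re_y e3 hy) (re_y e4 hy))
    (fun ζ hζ => psi_nonneg (hv ζ hζ) (hw ζ hζ) (h1 ζ hζ) (hF ζ hζ))
    (fun ζ hζ => psi_le (hv ζ hζ) (hw ζ hζ)) he hR
  refine le_trans ?_ G
  have cal : Continuous fun p : ℝ × ℝ => al R p.1 := by unfold al; fun_prop
  have cbe : Continuous fun p : ℝ × ℝ => be e R p.2 := by unfold be; fun_prop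
  have mD : MeasurableSet (DD e R) := measurableSet_Ioc.prod measurableSet_Ioc
  refine setIntegral_mono_on ?_ ?_ mD ?_
  · exact DD_int (Φ := fun ζ => ‖deriv A2 ζ‖ ^ 2 * (A4 ζ).im / (5 * Q ^ 3)) he
      (((e2.continuousOn.norm.pow 2).mul (im_c d4)).div_const _) (cal.mul cbe)
  · exact DD_int (Φ := fun ζ => -((-quad (A2 ζ).im ((A3 ζ).im)⁻¹ ((A4 ζ).im)⁻¹ (deriv A2 ζ).im
      (deriv A3 ζ).im (deriv A4 ζ).im + lin (A2 ζ).im ((A3 ζ).im)⁻¹ ((A4 ζ).im)⁻¹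
      (deriv (deriv A1) ζ).im (deriv (deriv A2) ζ).im (deriv (deriv A3) ζ).im
      (deriv (deriv A4) ζ).im) + (-quad (A2 ζ).im ((A3 ζ).im)⁻¹ ((A4 ζ).im)⁻¹ (deriv A2 ζ).re
      (deriv A3 ζ).re (deriv A4 ζ).re + lin (A2 ζ).im ((A3 ζ).im)⁻¹ ((A4 ζ).im)⁻¹
      (-(deriv (deriv A1) ζ).im) (-(deriv (deriv A2) ζ).im) (-(deriv (deriv A3) ζ).im)
      (-(deriv (deriv A4) ζ).im)))) he
      (((cQz.neg.add cLz).add (cQy.neg.add cLy)).neg) (cal.mul cbe)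
  · intro p hp
    have hp2 : 0 < p.2 := he.trans hp.2.1
    have hm : pt p.1 p.2 ∈ HH := pt_mem hp2
    refine mul_le_mul_of_nonneg_right ?_ (mul_nonneg (al_nonneg R p.1) (be_nonneg hp.2.1.le))
    have q1 := quad_ge (u := (A2 (pt p.1 p.2)).im) (u1 := (deriv A2 (pt p.1 p.2)).im)
      (v1 := (deriv A3 (pt p.1 p.2)).im) (w1 := (deriv A4 (pt p.1 p.2)).im)
      (hv _ hm) (hw _ hm) (h1 _ hm) (hQ _ hm)
    have q2 := quad_ge (u := (A2 (pt p.1 p.2)).im) (u1 := (deriv A2 (pt p.1 p.2)).re)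
      (v1 := (deriv A3 (pt p.1 p.2)).re) (w1 := (deriv A4 (pt p.1 p.2)).re)
      (hv _ hm) (hw _ hm) (h1 _ hm) (hQ _ hm)
    have q3 : ‖deriv A2 (pt p.1 p.2)‖ ^ 2 = (deriv A2 (pt p.1 p.2)).re ^ 2
        + (deriv A2 (pt p.1 p.2)).im ^ 2 := by
      rw [← Complex.normSq_eq_norm_sq, Complex.normSq_apply]; ring
    simp only [lin_neg]
    rw [q3]
    have q4 : ((deriv A2 (pt p.1 p.2)).re ^ 2 + (deriv A2 (pt p.1 p.2)).im ^ 2)
        * (A4 (pt p.1 p.2)).im / (5 * Q ^ 3)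
        = (deriv A2 (pt p.1 p.2)).im ^ 2 * (A4 (pt p.1 p.2)).im / (5 * Q ^ 3)
          + (deriv A2 (pt p.1 p.2)).re ^ 2 * (A4 (pt p.1 p.2)).im / (5 * Q ^ 3) := by ring
    rw [q4]
    linarith

lemma tend_al (z : ℝ) : Tendsto (fun n : ℕ => al ((n:ℝ) + 1) z) atTop (𝓝 1) := by
  have hR : Tendsto (fun n : ℕ => (n:ℝ) + 1) atTop atTop :=
    tendsto_atTop_add_const_right _ _ tendsto_natCast_atTop_atTop
  have hR2 : Tendsto (fun n : ℕ => ((n:ℝ) + 1) ^ 2) atTop atTop :=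
    (tendsto_pow_atTop (by norm_num)).comp hR
  have h := (((tendsto_const_nhds (x := z ^ 2)).div_atTop hR2).const_sub 1).pow 2
  simpa [al] using h

lemma tend_be (y : ℝ) : Tendsto (fun n : ℕ => be (1 / ((n:ℝ) + 1)) ((n:ℝ) + 1) y) atTop (𝓝 y) := by
  have hR : Tendsto (fun n : ℕ => (n:ℝ) + 1) atTop atTop :=
    tendsto_atTop_add_const_right _ _ tendsto_natCast_atTop_atTop
  have hR2 : Tendsto (fun n : ℕ => ((n:ℝ) + 1) ^ 2) atTop atTop :=
    (tendsto_pow_atTop (by norm_num)).comp hR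
  have he : Tendsto (fun n : ℕ => 1 / ((n:ℝ) + 1)) atTop (𝓝 0) :=
    tendsto_one_div_add_atTop_nhds_zero_nat
  have h1 : Tendsto (fun n : ℕ => y - 1 / ((n:ℝ) + 1)) atTop (𝓝 (y - 0)) :=
    tendsto_const_nhds.sub he
  have h := h1.mul ((((h1.pow 2).div_atTop hR2).const_sub 1).pow 2)
  simpa [be] using h

lemma ev_DD {p : ℝ × ℝ} (hp : 0 < p.2) :
    ∀ᶠ n : ℕ in atTop, p ∈ DD (1 / ((n:ℝ) + 1)) ((n:ℝ) + 1) := by
  have hR : Tendsto (fun n : ℕ => (n:ℝ) + 1) atTop atTop :=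
    tendsto_atTop_add_const_right _ _ tendsto_natCast_atTop_atTop
  have he : Tendsto (fun n : ℕ => 1 / ((n:ℝ) + 1)) atTop (𝓝 0) :=
    tendsto_one_div_add_atTop_nhds_zero_nat
  filter_upwards [hR.eventually_gt_atTop |p.1|, hR.eventually_gt_atTop p.2,
    he.eventually (gt_mem_nhds hp)] with n h1 h2 h3
  have h4 := abs_lt.1 h1
  refine ⟨⟨h4.1, h4.2.le⟩, ⟨h3, ?_⟩⟩
  have : 0 < 1 / ((n:ℝ) + 1) := by positivity
  linarith

theorem area (d1 : DifferentiableOn ℂ A1 HH) (d2 : DifferentiableOn ℂ A2 HH)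
    (d3 : DifferentiableOn ℂ A3 HH) (d4 : DifferentiableOn ℂ A4 HH)
    (hv : ∀ ζ ∈ HH, 0 < (A3 ζ).im) (hw : ∀ ζ ∈ HH, 0 < (A4 ζ).im)
    (h1 : ∀ ζ ∈ HH, 1 ≤ (A3 ζ).im * (A4 ζ).im) (hQ : ∀ ζ ∈ HH, (A3 ζ).im * (A4 ζ).im ≤ Q)
    (hF : ∀ ζ ∈ HH, (A2 ζ).im ^ 2 ≤ (A1 ζ).im * (A3 ζ).im) {M : ℝ}
    (hM : ∀ e R : ℝ, 0 < e → 0 < R → ∫ p in DD e R, (A1 (pt p.1 p.2)).im ≤ R * M) :
    ∫⁻ p in (univ : Set ℝ) ×ˢ Ioi (0:ℝ),
        ENNReal.ofReal (‖deriv A2 (pt p.1 p.2)‖ ^ 2 * (A4 (pt p.1 p.2)).im * p.2)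
      ≤ ENNReal.ofReal (400 * Q ^ 3 * M) := by
  have e2 : DifferentiableOn ℂ (deriv A2) HH := d2.deriv HH_open
  have hQ0 : 0 < Q := by
    have hm : pt 0 1 ∈ HH := pt_mem one_pos
    have := (h1 _ hm).trans (hQ _ hm); linarith
  set g : ℝ × ℝ → ℝ := fun p => ‖deriv A2 (pt p.1 p.2)‖ ^ 2 * (A4 (pt p.1 p.2)).im with hg
  set H : Set (ℝ × ℝ) := (univ : Set ℝ) ×ˢ Ioi (0:ℝ) with hH
  have mH : MeasurableSet H := MeasurableSet.univ.prod measurableSet_Ioi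
  have hHH : ∀ p ∈ H, pt p.1 p.2 ∈ HH := fun p hp => pt_mem hp.2
  have gc : ContinuousOn g H :=
    (((e2.continuousOn.norm.pow 2).mul (im_c d4)).comp pt_cont.continuousOn hHH)
  set f : ℕ → ℝ × ℝ → ℝ≥0∞ := fun n => (DD (1 / ((n:ℝ) + 1)) ((n:ℝ) + 1)).indicator
    (fun p => ENNReal.ofReal (g p * (al ((n:ℝ) + 1) p.1 * be (1 / ((n:ℝ) + 1)) ((n:ℝ) + 1) p.2)))
    with hf
  have mD : ∀ n : ℕ, MeasurableSet (DD (1 / ((n:ℝ) + 1)) ((n:ℝ) + 1)) := fun n =>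
    measurableSet_Ioc.prod measurableSet_Ioc
  have fm : ∀ n, AEMeasurable (f n) (volume.restrict H) := by
    intro n
    refine AEMeasurable.indicator ?_ (mD n)
    refine ENNReal.measurable_ofReal.comp_aemeasurable ?_
    refine (gc.aemeasurable mH).mul ?_
    refine Measurable.aemeasurable ?_
    unfold al be
    fun_prop
  have lim : ∀ p ∈ H, liminf (fun n => f n p) atTop = ENNReal.ofReal (g p * p.2) := by
    intro p hp
    have hp2 : 0 < p.2 := hp.2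
    have t1 := (tend_al p.1).mul (tend_be p.2)
    rw [one_mul] at t1
    have t2 := ENNReal.tendsto_ofReal (t1.const_mul (g p))
    refine Tendsto.liminf_eq ?_
    refine t2.congr' ?_
    filter_upwards [ev_DD hp2] with n hn
    rw [hf]
    simp only
    rw [indicator_of_mem hn]
  have bd : ∀ n, ∫⁻ p in H, f n p ≤ ENNReal.ofReal (400 * Q ^ 3 * M) := by
    intro n
    set e := 1 / ((n:ℝ) + 1) with he
    set R := (n:ℝ) + 1 with hR
    have he0 : 0 < e := by positivity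
    have hR0 : 0 < R := by positivity
    have hsub : DD e R ⊆ H := by
      intro p hp
      exact ⟨mem_univ _, he0.trans hp.2.1⟩
    have e3 : ∫⁻ p in H, f n p = ∫⁻ p in DD e R, ENNReal.ofReal (g p * (al R p.1 * be e R p.2)) := by
      rw [hf]
      simp only
      rw [lintegral_indicator (mD n), Measure.restrict_restrict (mD n), inter_eq_left.2 hsub]
    rw [e3]
    have cal : Continuous fun p : ℝ × ℝ => al R p.1 := by unfold al; fun_prop
    have cbe : Continuous fun p : ℝ × ℝ => be e R p.2 := by unfold be; fun_prop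
    have int : IntegrableOn (fun p : ℝ × ℝ => g p * (al R p.1 * be e R p.2)) (DD e R) :=
      DD_int (Φ := fun ζ => ‖deriv A2 ζ‖ ^ 2 * (A4 ζ).im) he0
      ((e2.continuousOn.norm.pow 2).mul (im_c d4)) (cal.mul cbe)
    have nn : 0 ≤ᵐ[volume.restrict (DD e R)] fun p : ℝ × ℝ => g p * (al R p.1 * be e R p.2) := by
      filter_upwards [ae_restrict_mem (mD n)] with p hp
      have hm : pt p.1 p.2 ∈ HH := hHH p (hsub hp)
      have := hw _ hm
      have h5 : 0 ≤ al R p.1 * be e R p.2 := mul_nonneg (al_nonneg R p.1) (be_nonneg hp.2.1.le)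
      simp only [Pi.zero_apply, hg]
      positivity
    rw [← ofReal_integral_eq_lintegral_ofReal int nn]
    refine ENNReal.ofReal_le_ofReal ?_
    have h6 := area_loc d1 d2 d3 d4 hv hw h1 hQ hF he0 hR0
    have h7 := hM e R he0 hR0
    have h8 : ∫ p in DD e R, g p * (al R p.1 * be e R p.2) = (5 * Q ^ 3) *
        ∫ p in DD e R, (‖deriv A2 (pt p.1 p.2)‖ ^ 2 * (A4 (pt p.1 p.2)).im / (5 * Q ^ 3))
        * (al R p.1 * be e R p.2) := by
      rw [← integral_const_mul]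
      congr 1
      ext p
      simp only [hg]
      field_simp
    rw [h8]
    calc (5 * Q ^ 3) * _ ≤ (5 * Q ^ 3) * (80 / R * ∫ p in DD e R, (A1 (pt p.1 p.2)).im) :=
          mul_le_mul_of_nonneg_left h6 (by positivity)
      _ ≤ (5 * Q ^ 3) * (80 / R * (R * M)) := by
          refine mul_le_mul_of_nonneg_left ?_ (by positivity)
          exact mul_le_mul_of_nonneg_left h7 (by positivity)
      _ = _ := by field_simp; ring
  calc ∫⁻ p in H, ENNReal.ofReal (g p * p.2) = ∫⁻ p in H, liminf (fun n => f n p) atTop :=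
        setLIntegral_congr_fun mH fun p hp => (lim p hp).symm
    _ ≤ liminf (fun n => ∫⁻ p in H, f n p) atTop := lintegral_liminf_le' fm
    _ ≤ ENNReal.ofReal (400 * Q ^ 3 * M) := by
        refine liminf_le_of_frequently_le' (Frequently.of_forall fun n => bd n)

end area

end Pool.Agent.R216.GL
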