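import Pool.Agent.R216.GL.B4
import Pool.Agent.R216.GL.A6

/-! The weighted area integral estimate for `A_2` weights. -/

set_option autoImplicit false
set_option linter.unusedVariables false

open MeasureTheory Set Filter Topology
open scoped ENNReal

namespace Pool.Agent.R216.GL

lemma ae_toReal {W : ℝ → ℝ≥0∞} (hg : Good W) : ∀ᵐ x, ENNReal.ofReal (W x).toReal = W x :=
  hg.mono fun x hx => ENNReal.ofReal_toReal hx.2

lemma adm_of {w : ℝ → ℝ≥0∞} (hw : Measurable w) (hg : Good w) {K : ℝ≥0∞} (hK : K ≠ ∞)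
    (hA : ApK 2 w K) : Adm (fun x => (w x).toReal) := by
  refine ⟨(hw.ennreal_toReal.mul (by fun_prop)).aestronglyMeasurable, ?_⟩
  rw [hasFiniteIntegral_iff_norm]
  have h1 := tail2 hw hg hK hA (z := 0) one_pos
  have h2 := (ap_fin (r := 2) (by norm_num) hw hg hK hA (a := 0 - 1) (b := 0 + 1) (by norm_num)).1
  refine lt_of_le_of_lt ?_ (lt_of_le_of_lt h1 (ENNReal.mul_lt_top
    (ENNReal.mul_lt_top (by norm_num) (Cm_ne_top (by norm_num) hK).lt_top) h2.lt_top))
  refine lintegral_mono_ae ?_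
  filter_upwards [ae_toReal hg] with x hx
  rw [Real.norm_of_nonneg (by positivity), ENNReal.ofReal_mul ENNReal.toReal_nonneg, hx, mul_comm]
  refine mul_le_mul_left (ENNReal.ofReal_le_ofReal (le_of_eq ?_)) _
  rw [inv_eq_one_div]
  congr 1
  · norm_num
  · ring

lemma PP_nonneg {ρ : ℝ → ℝ} (h : ∀ᵐ t, 0 ≤ ρ t) {z y : ℝ} (hy : 0 < y) : 0 ≤ PP ρ z y := by
  unfold PP
  refine integral_nonneg_of_ae ?_
  filter_upwards [h] with t ht
  exact mul_nonneg ht (pk_pos hy z t).le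

lemma PP_comb {ρ1 ρ2 ρ3 : ℝ → ℝ} (h1 : Adm ρ1) (h2 : Adm ρ2) (h3 : Adm ρ3) (s : ℝ) {z y : ℝ}
    (hy : 0 < y) (h : ∀ᵐ t, 0 ≤ ρ1 t - 2 * s * ρ2 t + s ^ 2 * ρ3 t) :
    0 ≤ PP ρ1 z y - 2 * s * PP ρ2 z y + s ^ 2 * PP ρ3 z y := by
  have i1 := PP_integrable h1 (z := z) hy
  have i2 := (PP_integrable h2 (z := z) hy).const_mul (2 * s)
  have i3 := (PP_integrable h3 (z := z) hy).const_mul (s ^ 2)
  have e : PP ρ1 z y - 2 * s * PP ρ2 z y + s ^ 2 * PP ρ3 z y
      = ∫ t, (ρ1 t - 2 * s * ρ2 t + s ^ 2 * ρ3 t) * pk z y t := by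
    unfold PP
    have i12 : Integrable (fun t => ρ1 t * pk z y t - 2 * s * (ρ2 t * pk z y t)) := i1.sub i2
    rw [← integral_const_mul, ← integral_const_mul, ← integral_sub i1 i2,
      ← integral_add i12 i3]
    congr 1
    ext t
    ring
  rw [e]
  refine integral_nonneg_of_ae ?_
  filter_upwards [h] with t ht
  exact mul_nonneg ht (pk_pos hy z t).le

lemma adm_one : Adm (fun _ => 1) := by
  unfold Adm
  simp only [one_mul]
  exact integrable_inv_one_add_sq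

lemma PP_one {z y : ℝ} (hy : 0 < y) : PP (fun _ => 1) z y = 1 := by
  unfold PP
  simp only [one_mul]
  exact pk_int hy z

lemma PP_ofReal {w : ℝ → ℝ≥0∞} (hg : Good w) (ha : Adm (fun x => (w x).toReal)) {z y : ℝ}
    (hy : 0 < y) :
    ENNReal.ofReal (PP (fun x => (w x).toReal) z y) = ∫⁻ t, ENNReal.ofReal (pk z y t) * w t := by
  unfold PP
  rw [ofReal_integral_eq_lintegral_ofReal (PP_integrable ha hy)
    (ae_of_all _ fun t => mul_nonneg ENNReal.toReal_nonneg (pk_pos hy z t).le)]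
  refine lintegral_congr_ae ?_
  filter_upwards [ae_toReal hg] with t ht
  rw [ENNReal.ofReal_mul ENNReal.toReal_nonneg, ht, mul_comm]

lemma PP_upper {w : ℝ → ℝ≥0∞} (hw : Measurable w) (hg : Good w) {K : ℝ≥0∞} (hK : K ≠ ∞)
    (hA : ApK 2 w K) {z y : ℝ} (hy : 0 < y) :
    ENNReal.ofReal (PP (fun x => (w x).toReal) z y)
      ≤ ENNReal.ofReal (1 / (Real.pi * y)) * (2 * Cm 2 K * ∫⁻ x in Ioo (z - y) (z + y), w x) := by
  rw [PP_ofReal hg (adm_of hw hg hK hA) hy]
  have hpi := Real.pi_pos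
  calc ∫⁻ t, ENNReal.ofReal (pk z y t) * w t
      = ∫⁻ t, ENNReal.ofReal (1 / (Real.pi * y)) *
        (ENNReal.ofReal (y ^ 2 / ((t - z) ^ 2 + y ^ 2)) * w t) := by
        refine lintegral_congr fun t => ?_
        rw [← mul_assoc, ← ENNReal.ofReal_mul (by positivity)]
        congr 2
        unfold pk
        field_simp
    _ = ENNReal.ofReal (1 / (Real.pi * y)) *
        ∫⁻ t, (ENNReal.ofReal (y ^ 2 / ((t - z) ^ 2 + y ^ 2)) * w t) :=
        lintegral_const_mul' _ _ ENNReal.ofReal_ne_top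
    _ ≤ _ := mul_le_mul_right (tail2 hw hg hK hA hy) _

lemma PP_lower {w : ℝ → ℝ≥0∞} (hg : Good w) (ha : Adm (fun x => (w x).toReal)) {z y : ℝ}
    (hy : 0 < y) :
    ∫⁻ x in Ioo (z - y) (z + y), w x
      ≤ ENNReal.ofReal (2 * Real.pi * y) * ENNReal.ofReal (PP (fun x => (w x).toReal) z y) := by
  rw [PP_ofReal hg ha hy, ← lintegral_const_mul' _ _ ENNReal.ofReal_ne_top]
  have hpi := Real.pi_pos
  calc ∫⁻ x in Ioo (z - y) (z + y), w x
      ≤ ∫⁻ x in Ioo (z - y) (z + y), ENNReal.ofReal (2 * Real.pi * y) *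
          (ENNReal.ofReal (pk z y x) * w x) := by
        refine setLIntegral_mono' measurableSet_Ioo fun x hx => ?_
        rw [← mul_assoc, ← ENNReal.ofReal_mul (by positivity)]
        have h1 : 1 ≤ 2 * Real.pi * y * pk z y x := by
          unfold pk
          have h2 : (x - z) ^ 2 ≤ y ^ 2 := by
            rw [sq_le_sq, abs_of_pos hy, abs_le]
            constructor <;> linarith [hx.1, hx.2]
          have e : 2 * Real.pi * y * (Real.pi⁻¹ * (y / ((x - z) ^ 2 + y ^ 2)))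
              = 2 * y ^ 2 / ((x - z) ^ 2 + y ^ 2) := by field_simp
          rw [e, le_div_iff₀ (by positivity)]
          linarith
        calc w x = 1 * w x := (one_mul _).symm
          _ ≤ _ := by
            refine mul_le_mul_left ?_ _
            rw [← ENNReal.ofReal_one]
            exact ENNReal.ofReal_le_ofReal h1
    _ ≤ _ := setLIntegral_le_lintegral _ _

/-- the bound for the product of the Poisson integrals -/
noncomputable def QQ (K : ℝ≥0∞) : ℝ≥0∞ := 4 * Cm 2 K ^ 2 * K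

lemma QQ_ne_top {K : ℝ≥0∞} (hK : K ≠ ∞) : QQ K ≠ ∞ := by
  unfold QQ
  exact ENNReal.mul_ne_top (ENNReal.mul_ne_top (by norm_num)
    (ENNReal.pow_ne_top (Cm_ne_top (by norm_num) hK))) hK

lemma prod_bd {w : ℝ → ℝ≥0∞} (hw : Measurable w) (hg : Good w) {K : ℝ≥0∞} (hK : K ≠ ∞)
    (hA : ApK 2 w K) {z y : ℝ} (hy : 0 < y) :
    PP (fun x => ((w x)⁻¹).toReal) z y * PP (fun x => (w x).toReal) z y ≤ (QQ K).toReal := by
  have n1 : 0 ≤ PP (fun x => ((w x)⁻¹).toReal) z y :=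
    PP_nonneg (ae_of_all _ fun _ => ENNReal.toReal_nonneg) hy
  have n2 : 0 ≤ PP (fun x => (w x).toReal) z y :=
    PP_nonneg (ae_of_all _ fun _ => ENNReal.toReal_nonneg) hy
  rw [← ENNReal.ofReal_le_iff_le_toReal (QQ_ne_top hK), ENNReal.ofReal_mul n1]
  have u1 := PP_upper hw.inv (Good_inv hg) hK (ApK2_inv hA) (z := z) hy
  have u2 := PP_upper hw hg hK hA (z := z) hy
  have u3 := ApK2_prod hA (a := z - y) (b := z + y) (by linarith)
  have hpi := Real.pi_pos
  refine (mul_le_mul' u1 u2).trans ?_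
  set a := ENNReal.ofReal (1 / (Real.pi * y)) with ha
  set I1 := ∫⁻ x in Ioo (z - y) (z + y), w x with hI1
  set I2 := ∫⁻ x in Ioo (z - y) (z + y), (w x)⁻¹ with hI2
  have e1 : ∫⁻ x in Ioo (z - y) (z + y), w⁻¹ x = I2 := rfl
  have h5 : a * ENNReal.ofReal (z + y - (z - y)) ≤ 1 := by
    rw [ha, ← ENNReal.ofReal_mul (by positivity), ← ENNReal.ofReal_one]
    refine ENNReal.ofReal_le_ofReal ?_
    have : 1 / (Real.pi * y) * (z + y - (z - y)) = 2 / Real.pi := by field_simp; ring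
    rw [this, div_le_one hpi]
    linarith [Real.pi_gt_three]
  calc a * (2 * Cm 2 K * ∫⁻ x in Ioo (z - y) (z + y), w⁻¹ x) * (a * (2 * Cm 2 K * I1))
      = 4 * Cm 2 K ^ 2 * (I1 * I2) * a ^ 2 := by rw [e1]; ring
    _ ≤ 4 * Cm 2 K ^ 2 * (K * ENNReal.ofReal (z + y - (z - y)) ^ 2) * a ^ 2 := by gcongr
    _ = 4 * Cm 2 K ^ 2 * K * (a * ENNReal.ofReal (z + y - (z - y))) ^ 2 := by ring
    _ ≤ 4 * Cm 2 K ^ 2 * K * 1 ^ 2 := by gcongr
    _ = QQ K := by unfold QQ; ring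

lemma mass_bd {ρ : ℝ → ℝ} (hm : Measurable ρ) (h0 : ∀ t, 0 ≤ ρ t) (hi : Integrable ρ) (ha : Adm ρ)
    {e R : ℝ} (he : 0 < e) (hR : 0 < R) :
    ∫ p in DD e R, (Af ρ (pt p.1 p.2)).im ≤ R * ∫ t, ρ t := by
  have mD : MeasurableSet (DD e R) := measurableSet_Ioc.prod measurableSet_Ioc
  have hPP : ∀ p ∈ DD e R, (Af ρ (pt p.1 p.2)).im = PP ρ p.1 p.2 := by
    intro p hp
    rw [Af_im ha (pt_mem (he.trans hp.2.1)), pt_re, pt_im]
  have nn : ∀ p ∈ DD e R, 0 ≤ (Af ρ (pt p.1 p.2)).im := by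
    intro p hp
    rw [hPP p hp]
    exact PP_nonneg (ae_of_all _ h0) (he.trans hp.2.1)
  have hint : IntegrableOn (fun p : ℝ × ℝ => (Af ρ (pt p.1 p.2)).im) (DD e R) := by
    have := DD_int (e := e) (R := R) he (im_c (Af_diff ha)) (continuous_const (y := (1:ℝ)))
    simpa using this
  have hI0 : 0 ≤ ∫ t, ρ t := integral_nonneg h0
  rw [← ENNReal.ofReal_le_ofReal_iff (by positivity),
    ofReal_integral_eq_lintegral_ofReal hint ((ae_restrict_iff' mD).2 (ae_of_all _ nn)),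
    ENNReal.ofReal_mul hR.le, ofReal_integral_eq_lintegral_ofReal hi (ae_of_all _ h0)]
  have pkm : Measurable (fun q : (ℝ × ℝ) × ℝ => ENNReal.ofReal (pk q.1.1 q.1.2 q.2)) := by
    unfold pk; fun_prop
  calc ∫⁻ p in DD e R, ENNReal.ofReal ((Af ρ (pt p.1 p.2)).im)
      = ∫⁻ p in DD e R, ∫⁻ t, ENNReal.ofReal (pk p.1 p.2 t) * ENNReal.ofReal (ρ t) := by
        refine setLIntegral_congr_fun mD fun p hp => ?_
        have hy : 0 < p.2 := he.trans hp.2.1
        rw [hPP p hp]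
        unfold PP
        rw [ofReal_integral_eq_lintegral_ofReal (PP_integrable ha hy)
          (ae_of_all _ fun t => mul_nonneg (h0 t) (pk_pos hy p.1 t).le)]
        refine lintegral_congr fun t => ?_
        rw [ENNReal.ofReal_mul (h0 t), mul_comm]
    _ = ∫⁻ t, ∫⁻ p in DD e R, ENNReal.ofReal (pk p.1 p.2 t) * ENNReal.ofReal (ρ t) := by
        refine lintegral_lintegral_swap ?_
        exact (pkm.mul (by fun_prop)).aemeasurable
    _ ≤ ∫⁻ t, ENNReal.ofReal R * ENNReal.ofReal (ρ t) := by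
        refine lintegral_mono fun t => ?_
        rw [lintegral_mul_const' _ _ ENNReal.ofReal_ne_top]
        refine mul_le_mul_left ?_ _
        have pkm2 : Measurable (fun q : ℝ × ℝ => ENNReal.ofReal (pk q.1 q.2 t)) := by
          unfold pk; fun_prop
        calc ∫⁻ p in DD e R, ENNReal.ofReal (pk p.1 p.2 t)
            ≤ ∫⁻ p in (univ : Set ℝ) ×ˢ Ioc e (e + R), ENNReal.ofReal (pk p.1 p.2 t) :=
              lintegral_mono_set (prod_mono (subset_univ _) le_rfl)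
          _ = ∫⁻ y in Ioc e (e + R), ∫⁻ z, ENNReal.ofReal (pk z y t) := by
              rw [Measure.volume_eq_prod, ← Measure.prod_restrict, Measure.restrict_univ,
                lintegral_prod_symm _ pkm2.aemeasurable]
          _ = ∫⁻ y in Ioc e (e + R), 1 := by
              refine setLIntegral_congr_fun measurableSet_Ioc fun y hy => ?_
              exact pk_lint' (he.trans hy.1) t
          _ = ENNReal.ofReal R := by simp
    _ = ENNReal.ofReal R * ∫⁻ t, ENNReal.ofReal (ρ t) :=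
        lintegral_const_mul' _ _ ENNReal.ofReal_ne_top

/-- the constant of the weighted area integral estimate -/
noncomputable def CW (K : ℝ≥0∞) : ℝ≥0∞ :=
  ENNReal.ofReal (2 * Real.pi) * ENNReal.ofReal (400 * (QQ K).toReal ^ 3)

lemma CW_ne_top (K : ℝ≥0∞) : CW K ≠ ∞ := ENNReal.mul_ne_top ENNReal.ofReal_ne_top ENNReal.ofReal_ne_top

lemma adm_f {W : ℝ → ℝ≥0∞} (hW : Measurable W) (hg : Good W) {K : ℝ≥0∞} (hK : K ≠ ∞)
    (hA : ApK 2 W K) {f : ℝ → ℝ} (hf : Measurable f)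
    (hfin : ∫⁻ x, ENNReal.ofReal (f x ^ 2) * W x ≠ ∞) :
    Integrable (fun x => f x ^ 2 * (W x).toReal) ∧ Adm (fun x => f x ^ 2 * (W x).toReal) ∧ Adm f := by
  have i1 : Integrable (fun x => f x ^ 2 * (W x).toReal) := by
    refine ⟨((hf.pow_const 2).mul hW.ennreal_toReal).aestronglyMeasurable, ?_⟩
    rw [hasFiniteIntegral_iff_norm]
    refine lt_of_le_of_lt (lintegral_mono_ae ?_) hfin.lt_top
    filter_upwards [ae_toReal hg] with x hx
    rw [Real.norm_of_nonneg (by positivity), ENNReal.ofReal_mul (sq_nonneg _), hx]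
  have a1 : Adm (fun x => f x ^ 2 * (W x).toReal) := by
    unfold Adm
    refine Integrable.mono' i1 ?_ ?_
    · exact (((hf.pow_const 2).mul hW.ennreal_toReal).mul (by fun_prop)).aestronglyMeasurable
    · refine ae_of_all _ fun t => ?_
      rw [Real.norm_of_nonneg (by positivity)]
      refine mul_le_of_le_one_right (by positivity) ?_
      exact inv_le_one_of_one_le₀ (by nlinarith [sq_nonneg t])
  refine ⟨i1, a1, ?_⟩
  have a2 := adm_of hW.inv (Good_inv hg) hK (ApK2_inv hA)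
  unfold Adm at a1 a2 ⊢
  refine Integrable.mono' (a1.add a2) (hf.mul (by fun_prop)).aestronglyMeasurable ?_
  filter_upwards [hg] with t ht
  have hw0 : 0 < (W t).toReal := ENNReal.toReal_pos ht.1 ht.2
  simp only [Pi.add_apply, Pi.inv_apply, ENNReal.toReal_inv]
  rw [norm_mul, Real.norm_of_nonneg (by positivity : (0:ℝ) ≤ (1 + t ^ 2)⁻¹), ← add_mul]
  refine mul_le_mul_of_nonneg_right ?_ (by positivity)
  rw [Real.norm_eq_abs]
  set w := (W t).toReal
  have h1 : 0 ≤ w⁻¹ * (|f t| * w - 1) ^ 2 := by positivity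
  have h2 : w⁻¹ * (|f t| * w - 1) ^ 2 = |f t| ^ 2 * w - 2 * |f t| + w⁻¹ := by
    field_simp
    ring
  rw [h2, sq_abs] at h1
  have h3 : 0 ≤ |f t| := abs_nonneg _
  linarith

theorem WAI {W : ℝ → ℝ≥0∞} (hW : Measurable W) (hg : Good W) {K : ℝ≥0∞} (hK : K ≠ ∞)
    (hA : ApK 2 W K) {f : ℝ → ℝ} (hf : Measurable f)
    (hfin : ∫⁻ x, ENNReal.ofReal (f x ^ 2) * W x ≠ ∞) :
    ∫⁻ p in (univ : Set ℝ) ×ˢ Ioi (0:ℝ), ENNReal.ofReal (‖deriv (Af f) (pt p.1 p.2)‖ ^ 2) *
        ∫⁻ x in Ioo (p.1 - p.2) (p.1 + p.2), W x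
      ≤ CW K * ∫⁻ x, ENNReal.ofReal (f x ^ 2) * W x := by
  obtain ⟨i1, a1, a2⟩ := adm_f hW hg hK hA hf hfin
  have a3 := adm_of hW.inv (Good_inv hg) hK (ApK2_inv hA)
  have a4 := adm_of hW hg hK hA
  have m3 : (fun x => (W⁻¹ x).toReal) = fun x => ((W x)⁻¹).toReal := rfl
  rw [m3] at a3
  -- relations
  have rel1 : ∀ z y : ℝ, 0 < y → ∀ s : ℝ, 0 ≤ PP (fun x => (W x).toReal) z y
      - 2 * s * 1 + s ^ 2 * PP (fun x => ((W x)⁻¹).toReal) z y := by
    intro z y hy s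
    have h := PP_comb a4 adm_one a3 s (z := z) hy ?_
    · rwa [PP_one hy] at h
    · filter_upwards [hg] with t ht
      have hw0 : 0 < (W t).toReal := ENNReal.toReal_pos ht.1 ht.2
      rw [ENNReal.toReal_inv]
      set w := (W t).toReal
      have h1 : 0 ≤ w⁻¹ * (w - s) ^ 2 := by positivity
      have h2 : w⁻¹ * (w - s) ^ 2 = w - 2 * s * 1 + s ^ 2 * w⁻¹ := by field_simp; ring
      rwa [h2] at h1
  have rel2 : ∀ z y : ℝ, 0 < y → ∀ s : ℝ, 0 ≤ PP (fun x => f x ^ 2 * (W x).toReal) z y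
      - 2 * s * PP f z y + s ^ 2 * PP (fun x => ((W x)⁻¹).toReal) z y := by
    intro z y hy s
    refine PP_comb a1 a2 a3 s (z := z) hy ?_
    filter_upwards [hg] with t ht
    have hw0 : 0 < (W t).toReal := ENNReal.toReal_pos ht.1 ht.2
    rw [ENNReal.toReal_inv]
    set w := (W t).toReal
    have h1 : 0 ≤ w⁻¹ * (f t * w - s) ^ 2 := by positivity
    have h2 : w⁻¹ * (f t * w - s) ^ 2 = f t ^ 2 * w - 2 * s * f t + s ^ 2 * w⁻¹ := by
      field_simp
      ring
    rwa [h2] at h1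
  have vpos : ∀ z y : ℝ, 0 < y → 0 < PP (fun x => ((W x)⁻¹).toReal) z y := by
    intro z y hy
    have n1 : 0 ≤ PP (fun x => ((W x)⁻¹).toReal) z y :=
      PP_nonneg (ae_of_all _ fun _ => ENNReal.toReal_nonneg) hy
    rcases n1.lt_or_eq with h | h
    · exact h
    · exfalso
      have h2 := rel1 z y hy (PP (fun x => (W x).toReal) z y + 1)
      have n2 : 0 ≤ PP (fun x => (W x).toReal) z y :=
        PP_nonneg (ae_of_all _ fun _ => ENNReal.toReal_nonneg) hy
      rw [← h] at h2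
      linarith
  have vw : ∀ z y : ℝ, 0 < y → 1 ≤ PP (fun x => ((W x)⁻¹).toReal) z y
      * PP (fun x => (W x).toReal) z y := by
    intro z y hy
    have hv := vpos z y hy
    have h2 := rel1 z y hy (PP (fun x => ((W x)⁻¹).toReal) z y)⁻¹
    set v := PP (fun x => ((W x)⁻¹).toReal) z y
    set w := PP (fun x => (W x).toReal) z y
    have e : w - 2 * v⁻¹ * 1 + v⁻¹ ^ 2 * v = w - v⁻¹ := by field_simp; ring
    rw [e] at h2
    have h3 : v * v⁻¹ ≤ v * w := mul_le_mul_of_nonneg_left (by linarith) hv.le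
    rwa [mul_inv_cancel₀ hv.ne'] at h3
  have wpos : ∀ z y : ℝ, 0 < y → 0 < PP (fun x => (W x).toReal) z y := by
    intro z y hy
    by_contra hcon
    have h1 := vw z y hy
    have h2 := mul_nonpos_of_nonneg_of_nonpos (vpos z y hy).le (not_lt.1 hcon)
    linarith
  have fv : ∀ z y : ℝ, 0 < y → PP f z y ^ 2 ≤ PP (fun x => f x ^ 2 * (W x).toReal) z y
      * PP (fun x => ((W x)⁻¹).toReal) z y := by
    intro z y hy
    have hv := vpos z y hy
    have h2 := rel2 z y hy (PP f z y * (PP (fun x => ((W x)⁻¹).toReal) z y)⁻¹)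
    set v := PP (fun x => ((W x)⁻¹).toReal) z y
    set F := PP (fun x => f x ^ 2 * (W x).toReal) z y
    set u := PP f z y
    have e : F - 2 * (u * v⁻¹) * u + (u * v⁻¹) ^ 2 * v = F - u ^ 2 / v := by field_simp; ring
    rw [e] at h2
    have h3 : u ^ 2 / v ≤ F := by linarith
    rwa [div_le_iff₀ hv] at h3
  have key := area (A1 := Af (fun x => f x ^ 2 * (W x).toReal)) (A2 := Af f)
    (A3 := Af (fun x => ((W x)⁻¹).toReal)) (A4 := Af (fun x => (W x).toReal))
    (Q := (QQ K).toReal) (Af_diff a1) (Af_diff a2) (Af_diff a3) (Af_diff a4)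
    (fun ζ hζ => by rw [Af_im a3 hζ]; exact vpos _ _ hζ)
    (fun ζ hζ => by rw [Af_im a4 hζ]; exact wpos _ _ hζ)
    (fun ζ hζ => by rw [Af_im a3 hζ, Af_im a4 hζ]; exact vw _ _ hζ)
    (fun ζ hζ => by rw [Af_im a3 hζ, Af_im a4 hζ]; exact prod_bd hW hg hK hA hζ)
    (fun ζ hζ => by rw [Af_im a1 hζ, Af_im a2 hζ, Af_im a3 hζ]; exact fv _ _ hζ)
    (M := ∫ x, f x ^ 2 * (W x).toReal)
    (fun e R he hR => mass_bd ((hf.pow_const 2).mul hW.ennreal_toReal)
      (fun t => mul_nonneg (sq_nonneg _) ENNReal.toReal_nonneg) i1 a1 he hR)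
  have hpi := Real.pi_pos
  have mH : MeasurableSet ((univ : Set ℝ) ×ˢ Ioi (0:ℝ)) := MeasurableSet.univ.prod measurableSet_Ioi
  have hM : ENNReal.ofReal (∫ x, f x ^ 2 * (W x).toReal) = ∫⁻ x, ENNReal.ofReal (f x ^ 2) * W x := by
    rw [ofReal_integral_eq_lintegral_ofReal i1
      (ae_of_all _ fun t => mul_nonneg (sq_nonneg _) ENNReal.toReal_nonneg)]
    refine lintegral_congr_ae ?_
    filter_upwards [ae_toReal hg] with x hx
    rw [ENNReal.ofReal_mul (sq_nonneg _), hx]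
  calc ∫⁻ p in (univ : Set ℝ) ×ˢ Ioi (0:ℝ), ENNReal.ofReal (‖deriv (Af f) (pt p.1 p.2)‖ ^ 2) *
        ∫⁻ x in Ioo (p.1 - p.2) (p.1 + p.2), W x
      ≤ ∫⁻ p in (univ : Set ℝ) ×ˢ Ioi (0:ℝ), ENNReal.ofReal (2 * Real.pi) *
        ENNReal.ofReal (‖deriv (Af f) (pt p.1 p.2)‖ ^ 2 *
          (Af (fun x => (W x).toReal) (pt p.1 p.2)).im * p.2) := by
        refine setLIntegral_mono' mH fun p hp => ?_
        have hy : 0 < p.2 := hp.2
        rw [Af_im a4 (pt_mem hy), pt_re, pt_im]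
        refine (mul_le_mul_right (PP_lower hg a4 hy) _).trans (le_of_eq ?_)
        have := wpos p.1 p.2 hy
        rw [← ENNReal.ofReal_mul (by positivity), ← ENNReal.ofReal_mul (by positivity),
          ← ENNReal.ofReal_mul (by positivity)]
        congr 1
        ring
    _ = ENNReal.ofReal (2 * Real.pi) * ∫⁻ p in (univ : Set ℝ) ×ˢ Ioi (0:ℝ),
        ENNReal.ofReal (‖deriv (Af f) (pt p.1 p.2)‖ ^ 2 *
          (Af (fun x => (W x).toReal) (pt p.1 p.2)).im * p.2) :=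
        lintegral_const_mul' _ _ ENNReal.ofReal_ne_top
    _ ≤ ENNReal.ofReal (2 * Real.pi) *
        ENNReal.ofReal (400 * (QQ K).toReal ^ 3 * ∫ x, f x ^ 2 * (W x).toReal) :=
        mul_le_mul_right key _
    _ = CW K * ∫⁻ x, ENNReal.ofReal (f x ^ 2) * W x := by
        rw [ENNReal.ofReal_mul (p := 400 * (QQ K).toReal ^ 3) (by positivity), hM, CW]
        ring

end Pool.Agent.R216.GL
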