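import Pool.Agent.R216.GL.A5

/-! Self-improvement of the `B_q` condition and the associated maximal function. -/

set_option autoImplicit false
set_option linter.unusedVariables false

open MeasureTheory Set Filter Topology
open scoped ENNReal

namespace Pool.Agent.R216.GL

/-- `y / (|x - z| + y)` -/
noncomputable def kap (z y x : ℝ) : ℝ := y / (|x - z| + y)

lemma kap_pos {z y x : ℝ} (hy : 0 < y) : 0 < kap z y x := by unfold kap; positivity

lemma kap_le_one {z y x : ℝ} (hy : 0 < y) : kap z y x ≤ 1 := by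
  unfold kap
  rw [div_le_one (by positivity)]
  linarith [abs_nonneg (x - z)]

lemma kap_half {z y x : ℝ} (hy : 0 < y) (hx : x ∈ Ioo (z - y) (z + y)) : 1 / 2 ≤ kap z y x := by
  unfold kap
  have : |x - z| ≤ y := by
    rw [abs_le]; constructor <;> linarith [hx.1, hx.2]
  rw [div_le_div_iff₀ (by norm_num) (by positivity)]
  linarith

lemma kap_meas (z y : ℝ) : Measurable (kap z y) := by unfold kap; fun_prop

/-- integral form of the `B_q` condition -/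
def BB (q : ℝ) (U : ℝ → ℝ≥0∞) (C : ℝ≥0∞) : Prop :=
  ∀ z y : ℝ, 0 < y → ∫⁻ x, ENNReal.ofReal (kap z y x ^ q) * U x
    ≤ C * ∫⁻ x in Ioo (z - y) (z + y), U x

/-- the growth ratio -/
noncomputable def rho (q : ℝ) (C : ℝ≥0∞) : ℝ≥0∞ := 2 ^ q - (3 * C)⁻¹

section
variable {U : ℝ → ℝ≥0∞} {q : ℝ} {C : ℝ≥0∞}

lemma kap_double {z y x : ℝ} (hy : 0 < y) (hq : 1 ≤ q) :
    ENNReal.ofReal (kap z (2 * y) x ^ q) + (Ioo (z - y) (z + y)).indicator (fun _ => (3:ℝ≥0∞)⁻¹) x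
      ≤ 2 ^ q * ENNReal.ofReal (kap z y x ^ q) := by
  have h2 : (2:ℝ≥0∞) ^ q = ENNReal.ofReal (2 ^ q) := by
    rw [← ENNReal.ofReal_rpow_of_pos (by norm_num)]; simp
  rw [h2, ← ENNReal.ofReal_mul (by positivity)]
  set d := |x - z| with hd
  have hd0 : 0 ≤ d := abs_nonneg _
  have e1 : kap z (2 * y) x = 2 * kap z y x * ((d + y) / (d + 2 * y)) := by
    unfold kap
    rw [← hd]
    field_simp
  have hk := kap_pos hy (z := z) (x := x)
  have e2 : kap z (2 * y) x ^ q = 2 ^ q * kap z y x ^ q * ((d + y) / (d + 2 * y)) ^ q := by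
    rw [e1, Real.mul_rpow (by positivity) (by positivity), Real.mul_rpow (by norm_num) hk.le]
  have hr1 : (d + y) / (d + 2 * y) ≤ 1 := by
    rw [div_le_one (by positivity)]; linarith
  have hr0 : 0 ≤ (d + y) / (d + 2 * y) := by positivity
  by_cases hx : x ∈ Ioo (z - y) (z + y)
  · rw [indicator_of_mem hx]
    have h3 : (3:ℝ≥0∞)⁻¹ = ENNReal.ofReal (1 / 3) := by
      rw [one_div, ENNReal.ofReal_inv_of_pos (by norm_num)]; simp
    rw [h3, ← ENNReal.ofReal_add (Real.rpow_nonneg (kap_pos (by positivity)).le _) (by norm_num)]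
    refine ENNReal.ofReal_le_ofReal ?_
    have hdy : d ≤ y := by
      rw [hd, abs_le]; constructor <;> linarith [hx.1, hx.2]
    have hr : (d + y) / (d + 2 * y) ≤ 2 / 3 := by
      rw [div_le_div_iff₀ (by positivity) (by norm_num)]; linarith
    have hr' : ((d + y) / (d + 2 * y)) ^ q ≤ 2 / 3 := by
      calc ((d + y) / (d + 2 * y)) ^ q ≤ ((d + y) / (d + 2 * y)) ^ (1:ℝ) :=
            Real.rpow_le_rpow_of_exponent_ge' hr0 hr1 (by norm_num) hq
        _ ≤ 2 / 3 := by rw [Real.rpow_one]; exact hr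
    have h4 : 1 ≤ 2 ^ q * kap z y x ^ q := by
      rw [← Real.mul_rpow (by norm_num) hk.le]
      refine Real.one_le_rpow ?_ (by linarith)
      have := kap_half hy hx
      linarith
    rw [e2]
    have h5 : 2 ^ q * kap z y x ^ q * ((d + y) / (d + 2 * y)) ^ q
        ≤ 2 ^ q * kap z y x ^ q * (2 / 3) := mul_le_mul_of_nonneg_left hr' (by linarith)
    linarith
  · rw [indicator_of_notMem hx, add_zero]
    refine ENNReal.ofReal_le_ofReal ?_
    rw [e2]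
    refine mul_le_of_le_one_right (by positivity) (Real.rpow_le_one hr0 hr1 (by linarith))

lemma phi_double (hU : Measurable U) (hB : BB q U C) (hq : 1 ≤ q) (hC : C ≠ ∞)
    (hf : ∀ a b : ℝ, ∫⁻ x in Ioo a b, U x ≠ ∞) {z y : ℝ} (hy : 0 < y) :
    ∫⁻ x, ENNReal.ofReal (kap z (2 * y) x ^ q) * U x
      ≤ rho q C * ∫⁻ x, ENNReal.ofReal (kap z y x ^ q) * U x := by
  set φ := ∫⁻ x, ENNReal.ofReal (kap z y x ^ q) * U x with hφ
  have hb : φ ≤ C * ∫⁻ x in Ioo (z - y) (z + y), U x := hB z y hy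
  have hφt : φ ≠ ∞ := ne_top_of_le_ne_top (ENNReal.mul_ne_top hC (hf _ _)) hb
  have hm : ∀ y', Measurable fun x => ENNReal.ofReal (kap z y' x ^ q) * U x := fun y' =>
    (((kap_meas z y').pow_const q).ennreal_ofReal).mul hU
  have h1 : (∫⁻ x, ENNReal.ofReal (kap z (2 * y) x ^ q) * U x)
      + 3⁻¹ * ∫⁻ x in Ioo (z - y) (z + y), U x ≤ 2 ^ q * φ := by
    rw [hφ, ← lintegral_const_mul _ (hm y), ← lintegral_const_mul _ hU,
      ← lintegral_indicator measurableSet_Ioo, ← lintegral_add_left (hm _)]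
    refine lintegral_mono fun x => ?_
    have h2 := kap_double (z := z) (x := x) hy hq
    have e : (Ioo (z - y) (z + y)).indicator (fun x => (3:ℝ≥0∞)⁻¹ * U x) x
        = (Ioo (z - y) (z + y)).indicator (fun _ => (3:ℝ≥0∞)⁻¹) x * U x := by
      by_cases hx : x ∈ Ioo (z - y) (z + y)
      · rw [indicator_of_mem hx, indicator_of_mem hx]
      · rw [indicator_of_notMem hx, indicator_of_notMem hx, zero_mul]
    rw [e, ← add_mul, ← mul_assoc]
    exact mul_le_mul_left h2 _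
  have h3 : (3 * C)⁻¹ * φ ≤ 3⁻¹ * ∫⁻ x in Ioo (z - y) (z + y), U x := by
    rw [ENNReal.mul_inv (Or.inl (by norm_num)) (Or.inl (by norm_num)), mul_assoc]
    refine mul_le_mul_right ?_ _
    calc C⁻¹ * φ ≤ C⁻¹ * (C * ∫⁻ x in Ioo (z - y) (z + y), U x) := mul_le_mul_right hb _
      _ = (C⁻¹ * C) * ∫⁻ x in Ioo (z - y) (z + y), U x := by ring
      _ ≤ 1 * ∫⁻ x in Ioo (z - y) (z + y), U x := by
          refine mul_le_mul_left ?_ _
          rw [mul_comm]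
          exact ENNReal.mul_inv_le_one C
      _ = _ := one_mul _
  have h4 : (∫⁻ x, ENNReal.ofReal (kap z (2 * y) x ^ q) * U x) + (3 * C)⁻¹ * φ ≤ 2 ^ q * φ :=
    (add_le_add le_rfl h3).trans h1
  unfold rho
  rw [ENNReal.sub_mul (fun _ _ => hφt)]
  by_cases ht : (3 * C)⁻¹ * φ = ∞
  · rw [ht] at h4
    have h5 : (2:ℝ≥0∞) ^ q * φ ≠ ∞ := ENNReal.mul_ne_top
      (ENNReal.rpow_ne_top_of_nonneg (by linarith) (by norm_num)) hφt
    exact absurd (top_le_iff.1 (le_trans le_add_self h4)) h5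
  · exact ENNReal.le_sub_of_add_le_right ht h4

lemma phi_pow (hU : Measurable U) (hB : BB q U C) (hq : 1 ≤ q) (hC : C ≠ ∞)
    (hf : ∀ a b : ℝ, ∫⁻ x in Ioo a b, U x ≠ ∞) {z y : ℝ} (hy : 0 < y) (n : ℕ) :
    ∫⁻ x, ENNReal.ofReal (kap z (2 ^ n * y) x ^ q) * U x
      ≤ rho q C ^ n * ∫⁻ x, ENNReal.ofReal (kap z y x ^ q) * U x := by
  induction n with
  | zero => simp
  | succ n ih =>
    have e : (2:ℝ) ^ (n + 1) * y = 2 * (2 ^ n * y) := by ring
    rw [e]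
    calc _ ≤ rho q C * ∫⁻ x, ENNReal.ofReal (kap z (2 ^ n * y) x ^ q) * U x :=
          phi_double hU hB hq hC hf (by positivity)
      _ ≤ rho q C * (rho q C ^ n * ∫⁻ x, ENNReal.ofReal (kap z y x ^ q) * U x) :=
          mul_le_mul_right ih _
      _ = _ := by ring

lemma dil (hU : Measurable U) (hB : BB q U C) (hq : 1 ≤ q) (hC : C ≠ ∞)
    (hf : ∀ a b : ℝ, ∫⁻ x in Ioo a b, U x ≠ ∞) {z y : ℝ} (hy : 0 < y) (n : ℕ) :
    ∫⁻ x in Ioo (z - 2 ^ n * y) (z + 2 ^ n * y), U x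
      ≤ (2 ^ q * C) * rho q C ^ n * ∫⁻ x in Ioo (z - y) (z + y), U x := by
  have hY : 0 < 2 ^ n * y := by positivity
  have h1 : ∫⁻ x in Ioo (z - 2 ^ n * y) (z + 2 ^ n * y), U x
      ≤ 2 ^ q * ∫⁻ x, ENNReal.ofReal (kap z (2 ^ n * y) x ^ q) * U x := by
    rw [← lintegral_const_mul' _ _ (ENNReal.rpow_ne_top_of_nonneg (by linarith) (by norm_num)),
      ← lintegral_indicator measurableSet_Ioo]
    refine lintegral_mono fun x => ?_
    by_cases hx : x ∈ Ioo (z - 2 ^ n * y) (z + 2 ^ n * y)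
    · rw [indicator_of_mem hx]
      have h2 : (2:ℝ≥0∞) ^ q = ENNReal.ofReal (2 ^ q) := by
        rw [← ENNReal.ofReal_rpow_of_pos (by norm_num)]; simp
      rw [h2, ← mul_assoc, ← ENNReal.ofReal_mul (by positivity)]
      have h3 := kap_half hY hx
      have h4 : 1 ≤ 2 ^ q * kap z (2 ^ n * y) x ^ q := by
        rw [← Real.mul_rpow (by norm_num) (kap_pos hY).le]
        exact Real.one_le_rpow (by linarith) (by linarith)
      calc U x = 1 * U x := (one_mul _).symm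
        _ ≤ _ := by
          refine mul_le_mul_left ?_ _
          rw [← ENNReal.ofReal_one]
          exact ENNReal.ofReal_le_ofReal h4
    · rw [indicator_of_notMem hx]; exact zero_le
  calc _ ≤ 2 ^ q * ∫⁻ x, ENNReal.ofReal (kap z (2 ^ n * y) x ^ q) * U x := h1
    _ ≤ 2 ^ q * (rho q C ^ n * ∫⁻ x, ENNReal.ofReal (kap z y x ^ q) * U x) :=
        mul_le_mul_right (phi_pow hU hB hq hC hf hy n) _
    _ ≤ 2 ^ q * (rho q C ^ n * (C * ∫⁻ x in Ioo (z - y) (z + y), U x)) :=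
        mul_le_mul_right (mul_le_mul_right (hB z y hy) _) _
    _ = _ := by ring

/-- maximal function over dilated intervals -/
noncomputable def Phi (G : ℝ → ℝ≥0∞) (j : ℕ) (x : ℝ) : ℝ≥0∞ :=
  ⨆ (z : ℝ) (y : ℝ) (_ : 0 < y ∧ x ∈ Ioo (z - 2 ^ j * y) (z + 2 ^ j * y)), av G (z - y) (z + y)

lemma le_Phi (G : ℝ → ℝ≥0∞) {j : ℕ} {z y x : ℝ} (hy : 0 < y)
    (hx : x ∈ Ioo (z - 2 ^ j * y) (z + 2 ^ j * y)) : av G (z - y) (z + y) ≤ Phi G j x :=
  le_iSup_of_le z (le_iSup_of_le y (le_iSup_of_le ⟨hy, hx⟩ le_rfl))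

lemma lt_Phi_iff {G : ℝ → ℝ≥0∞} {j : ℕ} {x : ℝ} {t : ℝ≥0∞} :
    t < Phi G j x ↔ ∃ z y : ℝ, (0 < y ∧ x ∈ Ioo (z - 2 ^ j * y) (z + 2 ^ j * y)) ∧
      t < av G (z - y) (z + y) := by
  simp only [Phi, lt_iSup_iff, exists_prop]

lemma Phi_level (G : ℝ → ℝ≥0∞) (j : ℕ) (t : ℝ≥0∞) :
    {x | t < Phi G j x} = ⋃ i ∈ {i : ℝ × ℝ | 0 < i.2 ∧ t < av G (i.1 - i.2) (i.1 + i.2)},
      Ioo (i.1 - 2 ^ j * i.2) (i.1 + 2 ^ j * i.2) := by
  ext x
  simp only [mem_ofPred_eq, lt_Phi_iff, mem_iUnion, exists_prop, Prod.exists]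
  constructor
  · rintro ⟨z, y, ⟨h1, h2⟩, h3⟩; exact ⟨z, y, ⟨h1, h3⟩, h2⟩
  · rintro ⟨z, y, ⟨h1, h3⟩, h2⟩; exact ⟨z, y, ⟨h1, h2⟩, h3⟩

lemma Phi_meas (G : ℝ → ℝ≥0∞) (j : ℕ) : Measurable (Phi G j) := by
  refine measurable_of_Ioi fun t => ?_
  have : Phi G j ⁻¹' Ioi t = {x | t < Phi G j x} := rfl
  rw [this, Phi_level]
  exact (isOpen_biUnion fun i _ => isOpen_Ioo).measurableSet

lemma Phi_lev_bd (hU : Measurable U) (hg : Good U) (hB : BB q U C) (hq : 1 ≤ q) (hC : C ≠ ∞)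
    (hf : ∀ a b : ℝ, ∫⁻ x in Ioo a b, U x ≠ ∞) (G : ℝ → ℝ≥0∞) (j : ℕ) (t : ℝ≥0∞) :
    (volume.withDensity U) {x | t < Phi G j x} ≤
      4 * ((2 ^ q * C) * rho q C ^ j) * (volume.withDensity U) {x | t < MM volume G x} := by
  set μ := (volume.withDensity U) with hμ
  set O := {x | t < MM volume G x} with hO
  have hOm : MeasurableSet O := (isOpen_level volume G t).measurableSet
  set A := (2 ^ q * C) * rho q C ^ j with hA
  have happ : ∀ a b : ℝ, μ (Ioo a b) = ∫⁻ x in Ioo a b, U x := fun a b =>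
    withDensity_apply _ measurableSet_Ioo
  have hA0 : A ≠ 0 := by
    intro h0
    have h1 := dil hU hB hq hC hf (z := 0) one_pos j
    rw [← hA, h0, zero_mul] at h1
    refine int_pos hU (hg.mono fun x hx => hx.1) (a := 0 - 2 ^ j * 1) (b := 0 + 2 ^ j * 1) ?_
      (le_antisymm h1 zero_le)
    have : (0:ℝ) < 2 ^ j := by positivity
    linarith
  have hAt : A ≠ ∞ := by
    refine ENNReal.mul_ne_top (ENNReal.mul_ne_top
      (ENNReal.rpow_ne_top_of_nonneg (by linarith) (by norm_num)) hC) (ENNReal.pow_ne_top ?_)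
    unfold rho
    exact ENNReal.sub_ne_top (ENNReal.rpow_ne_top_of_nonneg (by linarith) (by norm_num))
  set τ := (2 * A)⁻¹ with hτ
  have hτA : τ < A⁻¹ := by
    rw [hτ, ENNReal.inv_lt_inv]
    rw [two_mul]
    exact ENNReal.lt_add_right hAt hA0
  have hsub : {x | t < Phi G j x} ⊆ {x | τ < MM μ (O.indicator 1) x} := by
    intro x hx
    obtain ⟨z, y, ⟨hy, hxj⟩, ht⟩ := lt_Phi_iff.1 hx
    refine lt_of_lt_of_le hτA ?_
    refine le_trans ?_ (le_MM μ _ hxj)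
    have hIJ : Ioo (z - y) (z + y) ⊆ Ioo (z - 2 ^ j * y) (z + 2 ^ j * y) := by
      have : 1 ≤ (2:ℝ) ^ j := one_le_pow₀ (by norm_num)
      have : y ≤ 2 ^ j * y := le_mul_of_one_le_left hy.le this
      exact Ioo_subset_Ioo (by linarith) (by linarith)
    have hIO : Ioo (z - y) (z + y) ⊆ O := by
      intro w hw
      refine lt_of_lt_of_le ht ?_
      have := le_MM volume G hw
      rwa [Real.volume_Ioo] at this
    have e1 : ∫⁻ s in Ioo (z - 2 ^ j * y) (z + 2 ^ j * y), O.indicator 1 s ∂μ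
        = μ (O ∩ Ioo (z - 2 ^ j * y) (z + 2 ^ j * y)) := by
      rw [lintegral_indicator_one hOm, Measure.restrict_apply hOm]
    rw [e1]
    have h2 : μ (Ioo (z - y) (z + y)) ≤ μ (O ∩ Ioo (z - 2 ^ j * y) (z + 2 ^ j * y)) :=
      measure_mono (subset_inter hIO hIJ)
    have h3 := dil hU hB hq hC hf (z := z) hy j
    rw [← hA, ← happ, ← happ] at h3
    have hI0 : μ (Ioo (z - y) (z + y)) ≠ 0 := by
      rw [happ]; exact int_pos hU (hg.mono fun x hx => hx.1) (by linarith)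
    have hJt : μ (Ioo (z - 2 ^ j * y) (z + 2 ^ j * y)) ≠ ∞ := by rw [happ]; exact hf _ _
    have hJ0 : μ (Ioo (z - 2 ^ j * y) (z + 2 ^ j * y)) ≠ 0 := fun h0 =>
      hI0 (le_antisymm ((measure_mono hIJ).trans h0.le) zero_le)
    rw [ENNReal.le_div_iff_mul_le (Or.inl hJ0) (Or.inl hJt)]
    calc A⁻¹ * μ (Ioo (z - 2 ^ j * y) (z + 2 ^ j * y)) ≤ A⁻¹ * (A * μ (Ioo (z - y) (z + y))) :=
          mul_le_mul_right h3 _
      _ = μ (Ioo (z - y) (z + y)) := by
          rw [← mul_assoc, ENNReal.inv_mul_cancel hA0 hAt, one_mul]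
      _ ≤ _ := h2
  have hw := weak μ (O.indicator 1) (measurable_one.indicator hOm) τ
  rw [lintegral_indicator_one hOm] at hw
  have hτ0 : τ ≠ 0 := ENNReal.inv_ne_zero.2 (ENNReal.mul_ne_top (by norm_num) hAt)
  have hτt : τ ≠ ∞ := ENNReal.inv_ne_top.2 (mul_ne_zero (by norm_num) hA0)
  calc μ {x | t < Phi G j x} ≤ μ {x | τ < MM μ (O.indicator 1) x} := measure_mono hsub
    _ = τ⁻¹ * (τ * μ {x | τ < MM μ (O.indicator 1) x}) := by
        rw [← mul_assoc, ENNReal.inv_mul_cancel hτ0 hτt, one_mul]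
    _ ≤ τ⁻¹ * (2 * μ O) := mul_le_mul_right hw _
    _ = 4 * A * μ O := by rw [hτ, inv_inv]; ring

lemma Phi_norm (hU : Measurable U) (hg : Good U) (hB : BB q U C) (hq : 1 ≤ q) (hC : C ≠ ∞)
    (hf : ∀ a b : ℝ, ∫⁻ x in Ioo a b, U x ≠ ∞) (G : ℝ → ℝ≥0∞) (j : ℕ) {p : ℝ} (hp : 0 < p) :
    ∫⁻ x, Phi G j x ^ p * U x ≤
      4 * ((2 ^ q * C) * rho q C ^ j) * ∫⁻ x, MM volume G x ^ p * U x := by
  have hAt : 4 * ((2 ^ q * C) * rho q C ^ j) ≠ ∞ := by
    refine ENNReal.mul_ne_top (by norm_num) (ENNReal.mul_ne_top (ENNReal.mul_ne_top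
      (ENNReal.rpow_ne_top_of_nonneg (by linarith) (by norm_num)) hC) (ENNReal.pow_ne_top ?_))
    unfold rho
    exact ENNReal.sub_ne_top (ENNReal.rpow_ne_top_of_nonneg (by linarith) (by norm_num))
  have h := cake_mono (volume.withDensity U) hp (Phi_meas G j) (measurable_MM volume G) hAt
    (fun t _ => Phi_lev_bd hU hg hB hq hC hf G j (ENNReal.ofReal t))
  rw [lintegral_withDensity_eq_lintegral_mul _ hU ((Phi_meas G j).pow_const p),
    lintegral_withDensity_eq_lintegral_mul _ hU ((measurable_MM volume G).pow_const p)] at h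
  simp only [Pi.mul_apply] at h
  simp_rw [mul_comm (U _)] at h
  exact h

/-- the majorant `G_*` -/
noncomputable def Gs (lam : ℝ) (G : ℝ → ℝ≥0∞) (x : ℝ) : ℝ≥0∞ :=
  ⨆ j : ℕ, ENNReal.ofReal ((2 * (1 / 2) ^ j) ^ (lam / 2)) * Phi G j x

lemma Gs_meas (lam : ℝ) (G : ℝ → ℝ≥0∞) : Measurable (Gs lam G) :=
  Measurable.iSup fun j => (Phi_meas G j).const_mul _

lemma Gs_ge {lam : ℝ} (hlam : 0 ≤ lam) (G : ℝ → ℝ≥0∞) {z y x : ℝ} (hy : 0 < y) :
    ENNReal.ofReal (kap z y x ^ (lam / 2)) * av G (z - y) (z + y) ≤ Gs lam G x := by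
  have key : ∃ j : ℕ, |x - z| < 2 ^ j * y ∧ kap z y x ≤ 2 * (1 / 2) ^ j := by
    by_cases h : |x - z| < y
    · exact ⟨0, by simpa using h, by simpa using (kap_le_one hy).trans (by norm_num)⟩
    · have h' : y ≤ |x - z| := not_lt.1 h
      have h1 : 1 ≤ |x - z| / y := by rwa [le_div_iff₀ hy, one_mul]
      obtain ⟨n, hn1, hn2⟩ := exists_nat_pow_near h1 (by norm_num : (1:ℝ) < 2)
      refine ⟨n + 1, by rwa [div_lt_iff₀ hy] at hn2, ?_⟩
      rw [le_div_iff₀ hy] at hn1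
      unfold kap
      have e : (2:ℝ) * (1 / 2) ^ (n + 1) = 1 / 2 ^ n := by
        rw [pow_succ, one_div_pow]; ring
      rw [e, div_le_div_iff₀ (by positivity) (by positivity)]
      linarith
  obtain ⟨j, hj1, hj2⟩ := key
  refine le_iSup_of_le j ?_
  have hx : x ∈ Ioo (z - 2 ^ j * y) (z + 2 ^ j * y) := by
    have := abs_lt.1 hj1
    constructor <;> linarith [this.1, this.2]
  exact mul_le_mul' (ENNReal.ofReal_le_ofReal (Real.rpow_le_rpow (kap_pos hy).le hj2 (by positivity)))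
    (le_Phi G hy hx)

/-- the ratio -/
noncomputable def theta (q : ℝ) (C : ℝ≥0∞) : ℝ≥0∞ := rho q C * ((2:ℝ≥0∞) ^ q)⁻¹

lemma theta_lt (hq : 1 ≤ q) (hC : C ≠ ∞) : theta q C < 1 := by
  unfold theta rho
  have h0 : (2:ℝ≥0∞) ^ q ≠ 0 := (ENNReal.rpow_pos (by norm_num) (by norm_num)).ne'
  have ht : (2:ℝ≥0∞) ^ q ≠ ∞ := ENNReal.rpow_ne_top_of_nonneg (by linarith) (by norm_num)
  rw [← div_eq_mul_inv, ENNReal.div_lt_iff (Or.inl h0) (Or.inl ht), one_mul]
  refine ENNReal.sub_lt_self ht h0 (ENNReal.inv_ne_zero.2 (ENNReal.mul_ne_top (by norm_num) hC))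

/-- the constant for `G_*` -/
noncomputable def CG (q : ℝ) (C : ℝ≥0∞) : ℝ≥0∞ := 4 * (2 ^ q * C) * 2 ^ q * (1 - theta q C)⁻¹

lemma CG_ne_top (hq : 1 ≤ q) (hC : C ≠ ∞) : CG q C ≠ ∞ := by
  unfold CG
  have ht : (2:ℝ≥0∞) ^ q ≠ ∞ := ENNReal.rpow_ne_top_of_nonneg (by linarith) (by norm_num)
  refine ENNReal.mul_ne_top (ENNReal.mul_ne_top (ENNReal.mul_ne_top (by norm_num)
    (ENNReal.mul_ne_top ht hC)) ht) (ENNReal.inv_ne_top.2 ?_)
  exact (tsub_pos_of_lt (theta_lt hq hC)).ne'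

lemma Gs_norm {lam p : ℝ} (hU : Measurable U) (hg : Good U) (hB : BB q U C) (hq : 1 ≤ q)
    (hC : C ≠ ∞) (hf : ∀ a b : ℝ, ∫⁻ x in Ioo a b, U x ≠ ∞) (G : ℝ → ℝ≥0∞) (hp : 0 < p)
    (hqe : q = lam * p / 2) :
    ∫⁻ x, Gs lam G x ^ p * U x ≤ CG q C * ∫⁻ x, MM volume G x ^ p * U x := by
  set N := ∫⁻ x, MM volume G x ^ p * U x with hN
  have h0 : (2:ℝ≥0∞) ^ q ≠ 0 := (ENNReal.rpow_pos (by norm_num) (by norm_num)).ne'
  have ht : (2:ℝ≥0∞) ^ q ≠ ∞ := ENNReal.rpow_ne_top_of_nonneg (by linarith) (by norm_num)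
  have pt1 : ∀ x, Gs lam G x ^ p ≤ ∑' j : ℕ, ENNReal.ofReal ((2 * (1 / 2) ^ j) ^ q) * Phi G j x ^ p := by
    intro x
    set T := ∑' j : ℕ, ENNReal.ofReal ((2 * (1 / 2) ^ j) ^ q) * Phi G j x ^ p with hT
    have h1 : Gs lam G x ≤ T ^ p⁻¹ := by
      refine iSup_le fun j => ?_
      have h2 : ENNReal.ofReal ((2 * (1 / 2) ^ j) ^ q) * Phi G j x ^ p ≤ T := ENNReal.le_tsum j
      calc ENNReal.ofReal ((2 * (1 / 2) ^ j) ^ (lam / 2)) * Phi G j x
          = ((ENNReal.ofReal ((2 * (1 / 2) ^ j) ^ (lam / 2)) * Phi G j x) ^ p) ^ p⁻¹ := by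
            rw [← ENNReal.rpow_mul, mul_inv_cancel₀ hp.ne', ENNReal.rpow_one]
        _ = (ENNReal.ofReal ((2 * (1 / 2) ^ j) ^ q) * Phi G j x ^ p) ^ p⁻¹ := by
            have e9 : lam / 2 * p = q := by rw [hqe]; ring
            rw [ENNReal.mul_rpow_of_nonneg _ _ hp.le, ENNReal.ofReal_rpow_of_pos (by positivity),
              ← Real.rpow_mul (by positivity), e9]
        _ ≤ T ^ p⁻¹ := ENNReal.rpow_le_rpow h2 (by positivity)
    calc Gs lam G x ^ p ≤ (T ^ p⁻¹) ^ p := ENNReal.rpow_le_rpow h1 hp.le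
      _ = T := by rw [← ENNReal.rpow_mul, inv_mul_cancel₀ hp.ne', ENNReal.rpow_one]
  calc ∫⁻ x, Gs lam G x ^ p * U x
      ≤ ∫⁻ x, ∑' j : ℕ, ENNReal.ofReal ((2 * (1 / 2) ^ j) ^ q) * (Phi G j x ^ p * U x) := by
        refine lintegral_mono fun x => ?_
        calc Gs lam G x ^ p * U x
            ≤ (∑' j : ℕ, ENNReal.ofReal ((2 * (1 / 2) ^ j) ^ q) * Phi G j x ^ p) * U x :=
              mul_le_mul_left (pt1 x) _
          _ = _ := by
              rw [← ENNReal.tsum_mul_right]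
              exact tsum_congr fun j => by ring
    _ = ∑' j : ℕ, ∫⁻ x, ENNReal.ofReal ((2 * (1 / 2) ^ j) ^ q) * (Phi G j x ^ p * U x) := by
        refine lintegral_tsum fun j => ?_
        exact ((((Phi_meas G j).pow_const p).mul hU).const_mul _).aemeasurable
    _ = ∑' j : ℕ, ENNReal.ofReal ((2 * (1 / 2) ^ j) ^ q) * ∫⁻ x, Phi G j x ^ p * U x := by
        refine tsum_congr fun j => lintegral_const_mul' _ _ ENNReal.ofReal_ne_top
    _ ≤ ∑' j : ℕ, ENNReal.ofReal ((2 * (1 / 2) ^ j) ^ q) *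
          (4 * ((2 ^ q * C) * rho q C ^ j) * N) :=
        ENNReal.tsum_le_tsum fun j => mul_le_mul_right (Phi_norm hU hg hB hq hC hf G j hp) _
    _ = ∑' j : ℕ, theta q C ^ j * (4 * (2 ^ q * C) * 2 ^ q * N) := by
        refine tsum_congr fun j => ?_
        have e1 : ENNReal.ofReal ((2 * (1 / 2) ^ j) ^ q) = 2 ^ q * (((2:ℝ≥0∞) ^ q)⁻¹) ^ j := by
          rw [Real.mul_rpow (by norm_num) (by positivity), ENNReal.ofReal_mul (by positivity)]
          congr 1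
          · rw [← ENNReal.ofReal_rpow_of_pos (by norm_num)]; simp
          · have e2 : (((1:ℝ) / 2) ^ j) ^ q = (((1:ℝ) / 2) ^ q) ^ j := by
              rw [← Real.rpow_natCast, ← Real.rpow_mul (by norm_num), mul_comm,
                Real.rpow_mul (by norm_num), Real.rpow_natCast]
            rw [e2, ENNReal.ofReal_pow (by positivity)]
            congr 1
            rw [one_div, Real.inv_rpow (by norm_num), ENNReal.ofReal_inv_of_pos (by positivity),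
              ← ENNReal.ofReal_rpow_of_pos (by norm_num)]
            simp
        rw [e1, theta, mul_pow]
        ring
    _ = CG q C * N := by
        rw [ENNReal.tsum_mul_right, ENNReal.tsum_geometric, CG]
        ring

end

end Pool.Agent.R216.GL
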