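import Pool.Agent.R216.GL.C1
import Pool.Agent.R216.GL.B5

/-! The main estimate. -/

set_option autoImplicit false
set_option linter.unusedVariables false

open MeasureTheory Set Filter Topology
open scoped ENNReal

namespace Pool.Agent.R216.GL

/-- squared gradient in the upper half plane, `0` elsewhere -/
noncomputable def Dn (f : ℝ → ℝ) : ℝ × ℝ → ℝ≥0∞ :=
  ((univ : Set ℝ) ×ˢ Ioi (0:ℝ)).indicator
    (fun p => ENNReal.ofReal (‖deriv (Af f) (pt p.1 p.2)‖ ^ 2))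

lemma mHs : MeasurableSet ((univ : Set ℝ) ×ˢ Ioi (0:ℝ)) := MeasurableSet.univ.prod measurableSet_Ioi

lemma Dn_meas {f : ℝ → ℝ} (ha : Adm f) : Measurable (Dn f) := by
  classical
  have gc : ContinuousOn (fun p : ℝ × ℝ => ENNReal.ofReal (‖deriv (Af f) (pt p.1 p.2)‖ ^ 2))
      ((univ : Set ℝ) ×ˢ Ioi (0:ℝ)) :=
    ENNReal.continuous_ofReal.comp_continuousOn
      ((((Af_diff ha).deriv HH_open).continuousOn.norm.pow 2).comp pt_cont.continuousOn
        fun p hp => pt_mem hp.2)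
  have h := gc.measurable_piecewise (g := fun _ => 0) continuousOn_const mHs
  unfold Dn
  rw [← piecewise_eq_indicator]
  exact h

/-- square of `g^*_λ` -/
noncomputable def Gam (lam : ℝ) (f : ℝ → ℝ) (x : ℝ) : ℝ≥0∞ :=
  ∫⁻ p : ℝ × ℝ, ENNReal.ofReal (kap p.1 p.2 x ^ lam) * Dn f p

lemma kapj_meas (lam : ℝ) :
    Measurable fun t : ℝ × (ℝ × ℝ) => ENNReal.ofReal (kap t.2.1 t.2.2 t.1 ^ lam) := by
  unfold kap
  have h : Measurable fun t : ℝ × (ℝ × ℝ) => t.2.2 / (|t.1 - t.2.1| + t.2.2) := by fun_prop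
  exact (h.pow_const lam).ennreal_ofReal

lemma Gam_meas {lam : ℝ} {f : ℝ → ℝ} (ha : Adm f) : Measurable (Gam lam f) := by
  have h : Measurable fun t : ℝ × (ℝ × ℝ) => ENNReal.ofReal (kap t.2.1 t.2.2 t.1 ^ lam) * Dn f t.2 :=
    (kapj_meas lam).mul ((Dn_meas ha).comp measurable_snd)
  exact h.lintegral_prod_right'

section
variable {U G : ℝ → ℝ≥0∞} {q lam p : ℝ} {C K c : ℝ≥0∞}

lemma inner_bd (hlam : 0 < lam) (hqe : q = lam * p / 2) (hp : 1 < p) (hp2 : p < 2)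
    (hU : Measurable U) (hg : Good U) (hK : K ≠ ∞)
    (hA : ApK p U K) (hB : BB q U C)
    (hG : Measurable G) (hG0 : ∀ x, G x ≠ 0) (hGt : ∀ᵐ x, G x ≠ ∞)
    (hGM : ∀ x, MM volume G x ≤ c * G x) (hc : c ≠ ∞) {z y : ℝ} (hy : 0 < y) :
    ∫⁻ x, ENNReal.ofReal (kap z y x ^ lam) * ((Gs lam G x ^ (2 - p))⁻¹ * U x)
      ≤ C * (4 * K) * ∫⁻ x in Ioo (z - y) (z + y), WW p U G x := by
  have h2 : 0 < 2 - p := by linarith
  have hab : z - y < z + y := by linarith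
  set g := av G (z - y) (z + y) with hgd
  have hg0 : g ≠ 0 := av_ne_zero hG hG0 hab
  have hgt : g ≠ ∞ := av_ne_top hGt hGM hc hab
  have hgp0 : g ^ (2 - p) ≠ 0 := (ENNReal.rpow_pos (pos_iff_ne_zero.2 hg0) hgt).ne'
  have hgpt : g ^ (2 - p) ≠ ∞ := ENNReal.rpow_ne_top_of_nonneg h2.le hgt
  have key : ∀ x, ENNReal.ofReal (kap z y x ^ lam) * (Gs lam G x ^ (2 - p))⁻¹
      ≤ (g ^ (2 - p))⁻¹ * ENNReal.ofReal (kap z y x ^ q) := by
    intro x
    have hk := kap_pos hy (z := z) (x := x)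
    have h3 := Gs_ge hlam.le G hy (z := z) (x := x)
    have h4 : ENNReal.ofReal (kap z y x ^ (lam / 2 * (2 - p))) * g ^ (2 - p)
        ≤ Gs lam G x ^ (2 - p) := by
      calc _ = (ENNReal.ofReal (kap z y x ^ (lam / 2)) * g) ^ (2 - p) := by
            rw [ENNReal.mul_rpow_of_nonneg _ _ h2.le, ENNReal.ofReal_rpow_of_pos (by positivity),
              ← Real.rpow_mul hk.le]
        _ ≤ _ := ENNReal.rpow_le_rpow h3 h2.le
    have hk0 : ENNReal.ofReal (kap z y x ^ (lam / 2 * (2 - p))) ≠ 0 := by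
      rw [ne_eq, ENNReal.ofReal_eq_zero, not_le]; positivity
    calc ENNReal.ofReal (kap z y x ^ lam) * (Gs lam G x ^ (2 - p))⁻¹
        ≤ ENNReal.ofReal (kap z y x ^ lam) *
          (ENNReal.ofReal (kap z y x ^ (lam / 2 * (2 - p))) * g ^ (2 - p))⁻¹ :=
          mul_le_mul_right (ENNReal.inv_le_inv.2 h4) _
      _ = (ENNReal.ofReal (kap z y x ^ lam) *
          (ENNReal.ofReal (kap z y x ^ (lam / 2 * (2 - p))))⁻¹) * (g ^ (2 - p))⁻¹ := by
          rw [ENNReal.mul_inv (Or.inl hk0) (Or.inl ENNReal.ofReal_ne_top), mul_assoc]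
      _ = ENNReal.ofReal (kap z y x ^ q) * (g ^ (2 - p))⁻¹ := by
          congr 1
          rw [← ENNReal.ofReal_inv_of_pos (by positivity), ← ENNReal.ofReal_mul (by positivity),
            ← Real.rpow_neg hk.le, ← Real.rpow_add hk]
          congr 2
          rw [hqe]; ring
      _ = _ := mul_comm _ _
  calc ∫⁻ x, ENNReal.ofReal (kap z y x ^ lam) * ((Gs lam G x ^ (2 - p))⁻¹ * U x)
      ≤ ∫⁻ x, (g ^ (2 - p))⁻¹ * (ENNReal.ofReal (kap z y x ^ q) * U x) := by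
        refine lintegral_mono fun x => ?_
        rw [← mul_assoc, ← mul_assoc]
        exact mul_le_mul_left (key x) _
    _ = (g ^ (2 - p))⁻¹ * ∫⁻ x, (ENNReal.ofReal (kap z y x ^ q) * U x) :=
        lintegral_const_mul' _ _ (ENNReal.inv_ne_top.2 hgp0)
    _ ≤ (g ^ (2 - p))⁻¹ * (C * ∫⁻ x in Ioo (z - y) (z + y), U x) := mul_le_mul_right (hB z y hy) _
    _ = C * ((g ^ (2 - p))⁻¹ * ∫⁻ x in Ioo (z - y) (z + y), U x) := by ring
    _ ≤ C * (4 * K * ∫⁻ x in Ioo (z - y) (z + y), WW p U G x) :=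
        mul_le_mul_right (WW_lower hp hp2 hU hg hK hA hG hG0 hGt hGM hc hab) _
    _ = _ := by ring

lemma outer_bd (hlam : 0 < lam) (hqe : q = lam * p / 2) (hp : 1 < p) (hp2 : p < 2)
    (hU : Measurable U) (hg : Good U) (hK : K ≠ ∞)
    (hA : ApK p U K) (hB : BB q U C) (hC : C ≠ ∞)
    (hG : Measurable G) (hG0 : ∀ x, G x ≠ 0) (hGt : ∀ᵐ x, G x ≠ ∞)
    (hGM : ∀ x, MM volume G x ≤ c * G x) (hc : c ≠ ∞) {f : ℝ → ℝ} (hf : Measurable f)
    (hfG : ∀ x, ENNReal.ofReal |f x| ≤ G x) (hN : ∫⁻ x, G x ^ p * U x ≠ ∞) :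
    Adm f ∧ ∫⁻ x, Gam lam f x * ((Gs lam G x ^ (2 - p))⁻¹ * U x)
      ≤ C * (4 * K) * CW (c ^ (2 - p) * K) * ∫⁻ x, G x ^ p * U x := by
  have h2 : 0 < 2 - p := by linarith
  have hWm := WW_meas (p := p) hU hG
  have hWg := WW_good (p := p) hp2 hg hG0 hGt
  have hWA := WW_A2 hp hp2 hU hg hA hG hG0 hGt hGM hc
  have hKt : c ^ (2 - p) * K ≠ ∞ := ENNReal.mul_ne_top (ENNReal.rpow_ne_top_of_nonneg h2.le hc) hK
  have h3 : ∫⁻ x, ENNReal.ofReal (f x ^ 2) * WW p U G x ≤ ∫⁻ x, G x ^ p * U x := by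
    refine lintegral_mono_ae ?_
    filter_upwards [hGt] with x hx
    unfold WW
    have h4 : ENNReal.ofReal (f x ^ 2) ≤ G x ^ (2:ℝ) := by
      rw [← sq_abs, ENNReal.ofReal_pow (abs_nonneg _), ← ENNReal.rpow_two]
      exact ENNReal.rpow_le_rpow (hfG x) (by norm_num)
    have h5 : G x ^ (2:ℝ) * (G x ^ (2 - p))⁻¹ = G x ^ p := by
      rw [← ENNReal.rpow_neg, ← ENNReal.rpow_add _ _ (hG0 x) hx]
      congr 1
      ring
    calc ENNReal.ofReal (f x ^ 2) * (U x * (G x ^ (2 - p))⁻¹)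
        ≤ G x ^ (2:ℝ) * (U x * (G x ^ (2 - p))⁻¹) := mul_le_mul_left h4 _
      _ = (G x ^ (2:ℝ) * (G x ^ (2 - p))⁻¹) * U x := by ring
      _ = _ := by rw [h5]
  have hfin : ∫⁻ x, ENNReal.ofReal (f x ^ 2) * WW p U G x ≠ ∞ := ne_top_of_le_ne_top hN h3
  have ha := (adm_f hWm hWg hKt hWA hf hfin).2.2
  refine ⟨ha, ?_⟩
  have hgm : Measurable fun x => (Gs lam G x ^ (2 - p))⁻¹ * U x :=
    (((Gs_meas lam G).pow_const _).inv).mul hU
  have wai := WAI hWm hWg hKt hWA hf hfin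
  calc ∫⁻ x, Gam lam f x * ((Gs lam G x ^ (2 - p))⁻¹ * U x)
      = ∫⁻ x, ∫⁻ t : ℝ × ℝ, ENNReal.ofReal (kap t.1 t.2 x ^ lam) * Dn f t *
          ((Gs lam G x ^ (2 - p))⁻¹ * U x) := by
        refine lintegral_congr fun x => ?_
        unfold Gam
        rw [lintegral_mul_const]
        have h : Measurable fun t : ℝ × ℝ => ENNReal.ofReal (kap t.1 t.2 x ^ lam) :=
          (kapj_meas lam).comp (measurable_const.prodMk measurable_id)
        exact h.mul (Dn_meas ha)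
    _ = ∫⁻ t : ℝ × ℝ, ∫⁻ x, ENNReal.ofReal (kap t.1 t.2 x ^ lam) * Dn f t *
          ((Gs lam G x ^ (2 - p))⁻¹ * U x) := by
        refine lintegral_lintegral_swap ?_
        refine Measurable.aemeasurable ?_
        exact ((kapj_meas lam).mul ((Dn_meas ha).comp measurable_snd)).mul (hgm.comp measurable_fst)
    _ ≤ ∫⁻ t : ℝ × ℝ, Dn f t * (C * (4 * K) * ∫⁻ x in Ioo (t.1 - t.2) (t.1 + t.2), WW p U G x) := by
        refine lintegral_mono fun t => ?_
        by_cases ht : t ∈ (univ : Set ℝ) ×ˢ Ioi (0:ℝ)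
        · have hy : 0 < t.2 := ht.2
          calc ∫⁻ x, ENNReal.ofReal (kap t.1 t.2 x ^ lam) * Dn f t *
                ((Gs lam G x ^ (2 - p))⁻¹ * U x)
              = ∫⁻ x, Dn f t * (ENNReal.ofReal (kap t.1 t.2 x ^ lam) *
                ((Gs lam G x ^ (2 - p))⁻¹ * U x)) := lintegral_congr fun x => by ring
            _ = Dn f t * ∫⁻ x, (ENNReal.ofReal (kap t.1 t.2 x ^ lam) *
                ((Gs lam G x ^ (2 - p))⁻¹ * U x)) := by
                refine lintegral_const_mul' _ _ ?_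
                unfold Dn
                rw [indicator_of_mem ht]
                exact ENNReal.ofReal_ne_top
            _ ≤ _ := mul_le_mul_right (inner_bd hlam hqe hp hp2 hU hg hK hA hB hG hG0 hGt hGM hc hy) _
        · have h0 : Dn f t = 0 := by unfold Dn; rw [indicator_of_notMem ht]
          simp [h0]
    _ = C * (4 * K) * ∫⁻ t : ℝ × ℝ, Dn f t * ∫⁻ x in Ioo (t.1 - t.2) (t.1 + t.2), WW p U G x := by
        rw [← lintegral_const_mul' _ _ (ENNReal.mul_ne_top hC (ENNReal.mul_ne_top (by norm_num) hK))]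
        exact lintegral_congr fun t => by ring
    _ = C * (4 * K) * ∫⁻ t in (univ : Set ℝ) ×ˢ Ioi (0:ℝ),
          ENNReal.ofReal (‖deriv (Af f) (pt t.1 t.2)‖ ^ 2) *
            ∫⁻ x in Ioo (t.1 - t.2) (t.1 + t.2), WW p U G x := by
        congr 1
        rw [← lintegral_indicator mHs]
        refine lintegral_congr fun t => ?_
        unfold Dn
        by_cases ht : t ∈ (univ : Set ℝ) ×ˢ Ioi (0:ℝ)
        · rw [indicator_of_mem ht, indicator_of_mem ht]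
        · rw [indicator_of_notMem ht, indicator_of_notMem ht, zero_mul]
    _ ≤ C * (4 * K) * (CW (c ^ (2 - p) * K) * ∫⁻ x, ENNReal.ofReal (f x ^ 2) * WW p U G x) :=
        mul_le_mul_right wai _
    _ ≤ C * (4 * K) * (CW (c ^ (2 - p) * K) * ∫⁻ x, G x ^ p * U x) :=
        mul_le_mul_right (mul_le_mul_right h3 _) _
    _ = _ := by ring

/-- first constant -/
noncomputable def Ca (p : ℝ) (K C : ℝ≥0∞) : ℝ≥0∞ := C * (4 * K) * CW ((2 * cc p K) ^ (2 - p) * K)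

/-- second constant -/
noncomputable def Cb (q p : ℝ) (K C : ℝ≥0∞) : ℝ≥0∞ := CG q C * Cm p K

/-- the final constant -/
noncomputable def CF (q p : ℝ) (K C : ℝ≥0∞) : ℝ≥0∞ :=
  Ca p K C ^ (p / 2) * Cb q p K C ^ (1 - p / 2) * 2 ^ p

lemma CF_ne_top (hp : 1 < p) (hp2 : p < 2) (hq : 1 ≤ q) (hK : K ≠ ∞) (hC : C ≠ ∞) :
    CF q p K C ≠ ∞ := by
  unfold CF Ca Cb
  refine ENNReal.mul_ne_top (ENNReal.mul_ne_top ?_ ?_) ?_
  · refine ENNReal.rpow_ne_top_of_nonneg (by linarith) ?_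
    exact ENNReal.mul_ne_top (ENNReal.mul_ne_top hC (ENNReal.mul_ne_top (by norm_num) hK))
      (CW_ne_top _)
  · refine ENNReal.rpow_ne_top_of_nonneg (by linarith) ?_
    exact ENNReal.mul_ne_top (CG_ne_top hq hC) (Cm_ne_top hp hK)
  · exact ENNReal.rpow_ne_top_of_nonneg (by linarith) (by norm_num)

theorem main_est (hlam : 0 < lam) (hqe : q = lam * p / 2) (hq : 1 ≤ q) (hp : 1 < p) (hp2 : p < 2)
    (hU : Measurable U) (hg : Good U) (hK : K ≠ ∞)
    (hA : ApK p U K) (hB : BB q U C) (hC : C ≠ ∞) {f : ℝ → ℝ} (hf : Measurable f)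
    (hne : ¬ f =ᵐ[volume] 0) (hfin : ∫⁻ x, ENNReal.ofReal |f x| ^ p * U x ≠ ∞) :
    Adm f ∧ ∫⁻ x, Gam lam f x ^ (p / 2) * U x
      ≤ CF q p K C * ∫⁻ x, ENNReal.ofReal |f x| ^ p * U x := by
  have hp0 : 0 < p := by linarith
  have h2 : 0 < 2 - p := by linarith
  set h : ℝ → ℝ≥0∞ := fun x => ENNReal.ofReal |f x| with hh
  have hhm : Measurable h := by
    have : Measurable fun x => |f x| := hf.abs
    exact this.ennreal_ofReal
  set G := GG p K h with hGd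
  have hG : Measurable G := GG_meas hhm
  have hne' : ¬ h =ᵐ[volume] 0 := by
    intro h0
    refine hne ?_
    filter_upwards [h0] with x hx
    simp only [hh, Pi.zero_apply, ENNReal.ofReal_eq_zero] at hx
    exact abs_nonpos_iff.1 hx
  have hG0 : ∀ x, G x ≠ 0 := fun x => GG_pos hhm hp hK hne' x
  have hN1 : ∫⁻ x, G x ^ p * U x ≤ 2 ^ p * ∫⁻ x, h x ^ p * U x := GG_norm hp hU hg hK hA hhm
  have hN : ∫⁻ x, G x ^ p * U x ≠ ∞ := ne_top_of_le_ne_top
    (ENNReal.mul_ne_top (ENNReal.rpow_ne_top_of_nonneg hp0.le (by norm_num)) hfin) hN1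
  have hGt : ∀ᵐ x, G x ≠ ∞ := by
    have := ae_lt_top ((hG.pow_const p).mul hU) hN
    filter_upwards [this, hg] with x hx hx' hcon
    simp only [Pi.mul_apply] at hx
    rw [hcon, ENNReal.top_rpow_of_pos hp0, ENNReal.top_mul hx'.1] at hx
    exact lt_irrefl _ hx
  have hc : 2 * cc p K ≠ ∞ := ENNReal.mul_ne_top (by norm_num) (cc_ne_top hp hK)
  have hGM : ∀ x, MM volume G x ≤ 2 * cc p K * G x := fun x => MM_GG hp hK hhm x
  have hfi : ∀ a b : ℝ, ∫⁻ x in Ioo a b, U x ≠ ∞ := by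
    intro a b
    rcases lt_or_ge a b with hab | hab
    · exact (ap_fin hp hU hg hK hA hab).1
    · rw [Ioo_eq_empty (not_lt.2 hab)]; simp
  obtain ⟨ha, ho⟩ := outer_bd hlam hqe hp hp2 hU hg hK hA hB hC hG hG0 hGt hGM hc hf
    (fun x => le_GG h x) hN
  refine ⟨ha, ?_⟩
  set N := ∫⁻ x, G x ^ p * U x with hNd
  have hgs : ∫⁻ x, Gs lam G x ^ p * U x ≤ Cb q p K C * N := by
    calc _ ≤ CG q C * ∫⁻ x, MM volume G x ^ p * U x :=
          Gs_norm hU hg hB hq hC hfi G hp0 hqe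
      _ ≤ CG q C * (Cm p K * N) := mul_le_mul_right (muck hp hU hg hK hA hG) _
      _ = _ := by unfold Cb; ring
  have hgst : ∫⁻ x, Gs lam G x ^ p * U x ≠ ∞ := ne_top_of_le_ne_top
    (ENNReal.mul_ne_top (ENNReal.mul_ne_top (CG_ne_top hq hC) (Cm_ne_top hp hK)) hN) hgs
  have hGst : ∀ᵐ x, Gs lam G x ≠ ∞ := by
    have := ae_lt_top (((Gs_meas lam G).pow_const p).mul hU) hgst
    filter_upwards [this, hg] with x hx hx' hcon
    simp only [Pi.mul_apply] at hx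
    rw [hcon, ENNReal.top_rpow_of_pos hp0, ENNReal.top_mul hx'.1] at hx
    exact lt_irrefl _ hx
  have hGs0 : ∀ x, Gs lam G x ≠ 0 := by
    intro x
    have h3 := Gs_ge hlam.le G one_pos (z := x) (x := x)
    have h4 : ENNReal.ofReal (kap x 1 x ^ (lam / 2)) ≠ 0 := by
      rw [ne_eq, ENNReal.ofReal_eq_zero, not_le]
      exact Real.rpow_pos_of_pos (kap_pos one_pos) _
    have h5 : av G (x - 1) (x + 1) ≠ 0 := av_ne_zero hG hG0 (by linarith)
    exact (lt_of_lt_of_le (pos_iff_ne_zero.2 (mul_ne_zero h4 h5)) h3).ne'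
  have hgm : Measurable fun x => (Gs lam G x ^ (2 - p))⁻¹ * U x :=
    (((Gs_meas lam G).pow_const _).inv).mul hU
  have hold := ENNReal.lintegral_mul_norm_pow_le (μ := volume)
    (f := fun x => Gam lam f x * ((Gs lam G x ^ (2 - p))⁻¹ * U x))
    (g := fun x => Gs lam G x ^ p * U x)
    ((Gam_meas ha).mul hgm).aemeasurable (((Gs_meas lam G).pow_const p).mul hU).aemeasurable
    (p := p / 2) (q := 1 - p / 2) (by linarith) (by linarith) (by ring)
  have hpt : ∫⁻ x, Gam lam f x ^ (p / 2) * U x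
      = ∫⁻ x, (Gam lam f x * ((Gs lam G x ^ (2 - p))⁻¹ * U x)) ^ (p / 2) *
        (Gs lam G x ^ p * U x) ^ (1 - p / 2) := by
    refine lintegral_congr_ae ?_
    filter_upwards [hGst] with x hx
    have hp2' : 0 ≤ p / 2 := by linarith
    have hp2'' : 0 ≤ 1 - p / 2 := by linarith
    rw [ENNReal.mul_rpow_of_nonneg _ _ hp2', ENNReal.mul_rpow_of_nonneg _ _ hp2',
      ENNReal.mul_rpow_of_nonneg _ _ hp2'']
    have e1 : ((Gs lam G x ^ (2 - p))⁻¹) ^ (p / 2) * (Gs lam G x ^ p) ^ (1 - p / 2) = 1 := by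
      rw [← ENNReal.rpow_neg, ← ENNReal.rpow_mul, ← ENNReal.rpow_mul,
        ← ENNReal.rpow_add _ _ (hGs0 x) hx]
      have : -(2 - p) * (p / 2) + p * (1 - p / 2) = 0 := by ring
      rw [this, ENNReal.rpow_zero]
    have e2 : U x ^ (p / 2) * U x ^ (1 - p / 2) = U x := by
      rw [← ENNReal.rpow_add_of_nonneg _ _ hp2' hp2'']
      have : p / 2 + (1 - p / 2) = 1 := by ring
      rw [this, ENNReal.rpow_one]
    calc Gam lam f x ^ (p / 2) * U x
        = Gam lam f x ^ (p / 2) * (U x ^ (p / 2) * U x ^ (1 - p / 2)) * 1 := by rw [e2, mul_one]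
      _ = Gam lam f x ^ (p / 2) * (U x ^ (p / 2) * U x ^ (1 - p / 2)) *
          (((Gs lam G x ^ (2 - p))⁻¹) ^ (p / 2) * (Gs lam G x ^ p) ^ (1 - p / 2)) := by rw [e1]
      _ = _ := by ring
  rw [hpt]
  refine hold.trans ?_
  calc (∫⁻ x, Gam lam f x * ((Gs lam G x ^ (2 - p))⁻¹ * U x)) ^ (p / 2) *
        (∫⁻ x, Gs lam G x ^ p * U x) ^ (1 - p / 2)
      ≤ (Ca p K C * N) ^ (p / 2) * (Cb q p K C * N) ^ (1 - p / 2) := by
        refine mul_le_mul' (ENNReal.rpow_le_rpow ?_ (by linarith))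
          (ENNReal.rpow_le_rpow hgs (by linarith))
        exact ho
    _ = Ca p K C ^ (p / 2) * Cb q p K C ^ (1 - p / 2) * (N ^ (p / 2) * N ^ (1 - p / 2)) := by
        rw [ENNReal.mul_rpow_of_nonneg _ _ (by linarith), ENNReal.mul_rpow_of_nonneg _ _ (by linarith)]
        ring
    _ = Ca p K C ^ (p / 2) * Cb q p K C ^ (1 - p / 2) * N := by
        rw [← ENNReal.rpow_add_of_nonneg _ _ (by linarith) (by linarith)]
        have : p / 2 + (1 - p / 2) = 1 := by ring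
        rw [this, ENNReal.rpow_one]
    _ ≤ Ca p K C ^ (p / 2) * Cb q p K C ^ (1 - p / 2) * (2 ^ p * ∫⁻ x, h x ^ p * U x) :=
        mul_le_mul_right hN1 _
    _ = _ := by unfold CF; ring

end

end Pool.Agent.R216.GL
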