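import Pool.Agent.R216.GL.C2

/-! Preparations for the final statement. -/

set_option autoImplicit false
set_option linter.unusedVariables false

open MeasureTheory Set Filter Topology
open scoped ENNReal

namespace Pool.Agent.R216.GL

section
variable {U : ℝ → ℝ≥0∞} {q lam p : ℝ} {C K : ℝ≥0∞}

lemma good_of (hp : 1 < p) (hU : Measurable U) (hK : K ≠ ∞) (hA : ApK p U K)
    (ht : ∀ᵐ x, U x ≠ ∞) (h0 : ¬ U =ᵐ[volume] 0) : Good U := by
  have hp1 : 0 < p - 1 := by linarith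
  -- on every interval with positive mass the weight is a.e. nonzero
  have alt : ∀ a b : ℝ, a < b → (∫⁻ x in Ioo a b, U x) ≠ 0 →
      ∀ᵐ x, x ∈ Ioo a b → U x ≠ 0 := by
    intro a b hab hI
    have hL := vol_ne hab
    have hLt : ENNReal.ofReal (b - a) ≠ ∞ := ENNReal.ofReal_ne_top
    have h1 := hA a b hab
    have h2 : (∫⁻ x in Ioo a b, U x ^ (-(1 / (p - 1)))) ≠ ∞ := by
      intro hcon
      rw [hcon, ENNReal.top_div_of_ne_top hLt, ENNReal.top_rpow_of_pos hp1, ENNReal.mul_top] at h1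
      · exact hK (top_le_iff.1 h1)
      · rw [ne_eq, ENNReal.div_eq_zero_iff, not_or]
        exact ⟨hI, hLt⟩
    have h3 := ae_lt_top (hU.pow_const _) h2
    rw [ae_restrict_iff' measurableSet_Ioo] at h3
    filter_upwards [h3] with x hx hx' hcon
    have h4 := hx hx'
    rw [hcon, ENNReal.zero_rpow_of_neg (by rw [neg_lt_zero]; positivity)] at h4
    exact lt_irrefl _ h4
  -- some interval has positive mass
  have ex : ∃ n : ℕ, (∫⁻ x in Ioo (-((n:ℝ) + 1)) ((n:ℝ) + 1), U x) ≠ 0 := by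
    by_contra hcon
    push Not at hcon
    apply h0
    have h1 : ∀ n : ℕ, ∀ᵐ x, x ∈ Ioo (-((n:ℝ) + 1)) ((n:ℝ) + 1) → U x = 0 := by
      intro n
      have h2 := (lintegral_eq_zero_iff hU).1 (hcon n)
      rw [Filter.EventuallyEq, ae_restrict_iff' measurableSet_Ioo] at h2
      exact h2
    rw [← ae_all_iff] at h1
    filter_upwards [h1] with x hx
    obtain ⟨n, hn⟩ := exists_nat_gt |x|
    refine hx n ?_
    have := abs_lt.1 hn
    constructor <;> linarith [this.1, this.2]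
  obtain ⟨n0, hn0⟩ := ex
  have h5 : ∀ n : ℕ, ∀ᵐ x, x ∈ Ioo (-((n:ℝ) + n0 + 1)) ((n:ℝ) + n0 + 1) → U x ≠ 0 := by
    intro n
    have hn : (0:ℝ) ≤ n := Nat.cast_nonneg n
    have hn' : (0:ℝ) ≤ n0 := Nat.cast_nonneg n0
    refine alt _ _ (by linarith) ?_
    intro hcon
    apply hn0
    refine le_antisymm ?_ zero_le
    rw [← hcon]
    exact lintegral_mono_set (Ioo_subset_Ioo (by linarith) (by linarith))
  rw [← ae_all_iff] at h5
  filter_upwards [h5, ht] with x hx hx'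
  refine ⟨?_, hx'⟩
  obtain ⟨n, hn⟩ := exists_nat_gt |x|
  refine hx n ?_
  have hn' : (0:ℝ) ≤ n0 := Nat.cast_nonneg n0
  have := abs_lt.1 hn
  constructor <;> linarith [this.1, this.2]

lemma kap_le {z y x : ℝ} (hy : 0 < y) (hq : 1 ≤ q) :
    kap z y x ^ q ≤ 2 * ((2 * y) ^ (q - 1) / ((2 * y) ^ q + |x - z| ^ q)) * (2 * y) := by
  set d := |x - z| with hd
  have hd0 : 0 ≤ d := abs_nonneg _
  have hq0 : 0 < q := by linarith
  have hy2 : (0:ℝ) < 2 * y := by positivity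
  have e1 : 2 * ((2 * y) ^ (q - 1) / ((2 * y) ^ q + d ^ q)) * (2 * y)
      = 2 * (2 * y) ^ q / ((2 * y) ^ q + d ^ q) := by
    have : (2 * y) ^ (q - 1) * (2 * y) = (2 * y) ^ q := by
      rw [← Real.rpow_add_one hy2.ne']; congr 1; ring
    rw [← this]
    ring
  rw [e1]
  have h1 : kap z y x ^ q = y ^ q / (d + y) ^ q := by
    unfold kap; rw [← hd, Real.div_rpow hy.le (by positivity)]
  rw [h1]
  have hyq : 0 < y ^ q := Real.rpow_pos_of_pos hy q
  have hdq : 0 ≤ d ^ q := Real.rpow_nonneg hd0 q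
  have h2y : y ^ q ≤ (2 * y) ^ q := Real.rpow_le_rpow hy.le (by linarith) hq0.le
  have h2yp : 0 < (2 * y) ^ q := Real.rpow_pos_of_pos hy2 q
  have hdy1 : y ^ q ≤ (d + y) ^ q := Real.rpow_le_rpow hy.le (by linarith) hq0.le
  have hdy2 : d ^ q ≤ (d + y) ^ q := Real.rpow_le_rpow hd0 (by linarith) hq0.le
  have hdyp : 0 < (d + y) ^ q := Real.rpow_pos_of_pos (by positivity) q
  rw [div_le_div_iff₀ hdyp (by positivity)]
  have s1 : y ^ q * (2 * y) ^ q ≤ (d + y) ^ q * (2 * y) ^ q := mul_le_mul_of_nonneg_right hdy1 h2yp.le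
  have s2 : y ^ q * d ^ q ≤ (2 * y) ^ q * (d + y) ^ q := mul_le_mul h2y hdy2 hdq h2yp.le
  nlinarith

lemma BB_of (hq : 1 ≤ q) (hB : ∀ a b : ℝ, a < b →
    ∫⁻ x, ENNReal.ofReal ((b - a) ^ (q - 1) / ((b - a) ^ q + |x - (a + b) / 2| ^ q)) * U x
      ≤ C / ENNReal.ofReal (b - a) * ∫⁻ x in Ioo a b, U x) : BB q U (2 * C) := by
  intro z y hy
  have h1 := hB (z - y) (z + y) (by linarith)
  have e1 : z + y - (z - y) = 2 * y := by ring
  have e2 : (z - y + (z + y)) / 2 = z := by ring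
  rw [e1, e2] at h1
  have hL0 : ENNReal.ofReal (2 * y) ≠ 0 := by
    rw [ne_eq, ENNReal.ofReal_eq_zero, not_le]; positivity
  have hLt : ENNReal.ofReal (2 * y) ≠ ∞ := ENNReal.ofReal_ne_top
  have hy2 : (0:ℝ) < 2 * y := by positivity
  calc ∫⁻ x, ENNReal.ofReal (kap z y x ^ q) * U x
      ≤ ∫⁻ x, (2 * ENNReal.ofReal (2 * y)) *
        (ENNReal.ofReal ((2 * y) ^ (q - 1) / ((2 * y) ^ q + |x - z| ^ q)) * U x) := by
        refine lintegral_mono fun x => ?_
        rw [← mul_assoc]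
        refine mul_le_mul_left ?_ _
        have e3 : (2:ℝ≥0∞) = ENNReal.ofReal 2 := by simp
        have hdq : 0 ≤ |x - z| ^ q := Real.rpow_nonneg (abs_nonneg _) q
        rw [e3, ← ENNReal.ofReal_mul (by norm_num), ← ENNReal.ofReal_mul (by positivity)]
        refine ENNReal.ofReal_le_ofReal ((kap_le hy hq).trans (le_of_eq ?_))
        ring
    _ = (2 * ENNReal.ofReal (2 * y)) * ∫⁻ x,
        (ENNReal.ofReal ((2 * y) ^ (q - 1) / ((2 * y) ^ q + |x - z| ^ q)) * U x) :=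
        lintegral_const_mul' _ _ (ENNReal.mul_ne_top (by norm_num) hLt)
    _ ≤ (2 * ENNReal.ofReal (2 * y)) * (C / ENNReal.ofReal (2 * y) *
        ∫⁻ x in Ioo (z - y) (z + y), U x) := mul_le_mul_right h1 _
    _ = 2 * (ENNReal.ofReal (2 * y) * (C / ENNReal.ofReal (2 * y))) *
        ∫⁻ x in Ioo (z - y) (z + y), U x := by ring
    _ = 2 * C * ∫⁻ x in Ioo (z - y) (z + y), U x := by
        rw [ENNReal.mul_div_cancel hL0 hLt]

lemma zero_case {f : ℝ → ℝ} (h : f =ᵐ[volume] 0) : Adm f ∧ ∀ x, Gam lam f x = 0 := by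
  constructor
  · unfold Adm
    refine (integrable_zero ℝ ℝ volume).congr ?_
    filter_upwards [h] with t ht
    simp [ht]
  · intro x
    have h1 : Af f = fun _ => 0 := by
      ext ζ
      unfold Af
      have : ∫ t, (f t : ℂ) * kk ζ t = 0 := by
        refine integral_eq_zero_of_ae ?_
        filter_upwards [h] with t ht
        simp [ht]
      rw [this, mul_zero]
    have h2 : ∀ t, Dn f t = 0 := by
      intro t
      unfold Dn
      rw [h1]
      by_cases ht : t ∈ (univ : Set ℝ) ×ˢ Ioi (0:ℝ)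
      · rw [indicator_of_mem ht]; simp
      · rw [indicator_of_notMem ht]
    unfold Gam
    simp [h2]

theorem main_all (hlam : 0 < lam) (hqe : q = lam * p / 2) (hq : 1 ≤ q) (hp : 1 < p) (hp2 : p < 2)
    (hU : Measurable U) (hg : Good U) (hK : K ≠ ∞)
    (hA : ApK p U K) (hB : BB q U C) (hC : C ≠ ∞) {f : ℝ → ℝ} (hf : Measurable f)
    (hfin : ∫⁻ x, ENNReal.ofReal |f x| ^ p * U x ≠ ∞) :
    Adm f ∧ ∫⁻ x, Gam lam f x ^ (p / 2) * U x
      ≤ CF q p K C * ∫⁻ x, ENNReal.ofReal |f x| ^ p * U x := by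
  by_cases hne : f =ᵐ[volume] 0
  · obtain ⟨h1, h2⟩ := zero_case (lam := lam) hne
    refine ⟨h1, ?_⟩
    simp_rw [h2, ENNReal.zero_rpow_of_pos (by linarith : 0 < p / 2), zero_mul, lintegral_zero]
    exact zero_le
  · exact main_est hlam hqe hq hp hp2 hU hg hK hA hB hC hf hne hfin

lemma Gam_iter {f : ℝ → ℝ} (ha : Adm f) (x : ℝ) :
    Gam lam f x = ∫⁻ z, ∫⁻ y in Ioi (0:ℝ),
      ENNReal.ofReal ((y / (|x - z| + y)) ^ lam * ‖deriv (Af f) (pt z y)‖ ^ 2) := by
  unfold Gam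
  have hm : Measurable fun t : ℝ × ℝ => ENNReal.ofReal (kap t.1 t.2 x ^ lam) * Dn f t := by
    have h : Measurable fun t : ℝ × ℝ => ENNReal.ofReal (kap t.1 t.2 x ^ lam) :=
      (kapj_meas lam).comp (measurable_const.prodMk measurable_id)
    exact h.mul (Dn_meas ha)
  rw [Measure.volume_eq_prod, lintegral_prod _ hm.aemeasurable]
  refine lintegral_congr fun z => ?_
  rw [← lintegral_indicator measurableSet_Ioi]
  refine lintegral_congr fun y => ?_
  unfold Dn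
  by_cases hy : y ∈ Ioi (0:ℝ)
  · have ht : ((z, y) : ℝ × ℝ) ∈ (univ : Set ℝ) ×ˢ Ioi (0:ℝ) := ⟨mem_univ _, hy⟩
    rw [indicator_of_mem ht, indicator_of_mem hy, ← ENNReal.ofReal_mul
      (Real.rpow_nonneg (kap_pos hy).le _)]
    rfl
  · have ht : ((z, y) : ℝ × ℝ) ∉ (univ : Set ℝ) ×ˢ Ioi (0:ℝ) := fun h => hy h.2
    rw [indicator_of_notMem ht, indicator_of_notMem hy, mul_zero]

end

end Pool.Agent.R216.GL
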